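import Pool.Agent.HLL.St

/-!
# PAD1: degrees, tape and triangles of the padded graphs
-/

set_option linter.unusedSectionVars false

namespace Pool.Agent.HLL

open Pool.Agent.HDL

section Pad

variable {K E : Type} (Fr : Frame K E) (P : ℕ)

/-! ### colours -/

lemma PAD_col_front {v : ℕ} (h : v < 3 * P) : PAD_col Fr P v ≤ 2 := by
  unfold PAD_col
  rw [if_pos h]
  have h1 : v / P < 3 := Nat.div_lt_of_lt_mul (by omega)
  omega

lemma PAD_col_old {v : ℕ} (h1 : 3 * P ≤ v) (h2 : v < 3 * P + 3 * Fr.Γ) :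
    PAD_col Fr P v =
      if (v - 3 * P) / 3 < Fr.OY then 3 else if (v - 3 * P) / 3 < Fr.OZ then 4 else 5 := by
  unfold PAD_col
  rw [if_neg (by omega), if_pos h2]

lemma PAD_col_old_mem {v : ℕ} (h1 : 3 * P ≤ v) (h2 : v < 3 * P + 3 * Fr.Γ) :
    3 ≤ PAD_col Fr P v ∧ PAD_col Fr P v ≤ 5 := by
  rw [PAD_col_old Fr P h1 h2]
  split_ifs <;> omega

lemma PAD_col_back {v : ℕ} (h1 : 3 * P + 3 * Fr.Γ ≤ v) (h2 : v < 6 * P + 3 * Fr.Γ) :
    PAD_col Fr P v ≤ 2 := by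
  unfold PAD_col
  rw [if_neg (by omega), if_neg (by omega), if_pos h2]
  have h3 : (v - 3 * P - 3 * Fr.Γ) / P < 3 := Nat.div_lt_of_lt_mul (by omega)
  omega

lemma PAD_col_iso {v : ℕ} (h1 : 6 * P + 3 * Fr.Γ ≤ v) : PAD_col Fr P v = 9 := by
  unfold PAD_col
  rw [if_neg (by omega), if_neg (by omega), if_neg (by omega)]

lemma PAD_col_rng (v : ℕ) : PAD_col Fr P v ≤ 5 ∨ PAD_col Fr P v = 9 := by
  rcases lt_or_ge v (3 * P) with h | h
  · have := PAD_col_front Fr P h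
    omega
  rcases lt_or_ge v (3 * P + 3 * Fr.Γ) with h' | h'
  · have := PAD_col_old_mem Fr P h h'
    omega
  rcases lt_or_ge v (6 * P + 3 * Fr.Γ) with h'' | h''
  · have := PAD_col_back Fr P h' h''
    omega
  · exact Or.inr (PAD_col_iso Fr P h'')

lemma PAD_lt_of_col {v : ℕ} (h : PAD_col Fr P v ≤ 5) : v < 6 * P + 3 * Fr.Γ := by
  by_contra hc
  have := PAD_col_iso Fr P (not_lt.1 hc)
  omega

/-- the link of the old vertex `v` with the group of the old vertex `w` -/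
def PAD_C (v w : ℕ) : Prop :=
  3 * P ≤ v ∧ 3 * P ≤ w ∧ GAD_has Fr ((v - 3 * P) / 3) ((v - 3 * P) % 3) ((w - 3 * P) / 3)

lemma PAD_C_old {v w : ℕ} (h : PAD_C Fr P v w) :
    v < 3 * P + 3 * Fr.Γ ∧ w < 3 * P + 3 * Fr.Γ := by
  have h1 := GAD_has_lt Fr h.2.2
  omega

lemma PAD_C_col {v w : ℕ} (h : PAD_C Fr P v w) :
    (3 ≤ PAD_col Fr P v ∧ PAD_col Fr P v ≤ 5) ∧ (3 ≤ PAD_col Fr P w ∧ PAD_col Fr P w ≤ 5) := by
  have h1 := PAD_C_old Fr P h
  exact ⟨PAD_col_old_mem Fr P h.1 h1.1, PAD_col_old_mem Fr P h.2.1 h1.2⟩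

lemma PAD_C_ne {v w : ℕ} (h : PAD_C Fr P v w) : PAD_col Fr P v ≠ PAD_col Fr P w := by
  have h1 := PAD_C_old Fr P h
  have h2 := GAD_has_side Fr h.2.2
  have h3 := Fr.hYZ
  rw [PAD_col_old Fr P h.1 h1.1, PAD_col_old Fr P h.2.1 h1.2]
  intro h4
  split_ifs at h4 with a1 a2 a3 a4 a5 a6 <;> omega

lemma PAD_nb_pos (F : Dat K E) {v w : ℕ} (h : PAD_C Fr P v w) : PAD_nb Fr P F (v, w) =
    w + GAD_mb Fr F ((v - 3 * P) / 3) ((v - 3 * P) % 3) ((w - 3 * P) / 3) := by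
  unfold PAD_nb
  exact if_pos h

lemma PAD_nb_neg (F : Dat K E) {v w : ℕ} (h : ¬ PAD_C Fr P v w) : PAD_nb Fr P F (v, w) = w := by
  unfold PAD_nb
  exact if_neg h

lemma PAD_nb_ge (F : Dat K E) (v w : ℕ) : w ≤ PAD_nb Fr P F (v, w) := by
  by_cases h : PAD_C Fr P v w
  · rw [PAD_nb_pos Fr P F h]
    omega
  · rw [PAD_nb_neg Fr P F h]

lemma PAD_mb_lt (F : Dat K E) {v w : ℕ} (h : PAD_C Fr P v w) :
    GAD_mb Fr F ((v - 3 * P) / 3) ((v - 3 * P) % 3) ((w - 3 * P) / 3) < 3 :=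
  GAD_mb_lt Fr F h.2.2 (Nat.mod_lt _ (by norm_num))

lemma PAD_has_C {v w : ℕ} (h : PAD_has Fr P v w) (hc : PAD_C Fr P v w) : (w - 3 * P) % 3 = 0 := by
  have h1 := PAD_C_col Fr P hc
  rcases h with h | h | h
  · omega
  · omega
  · exact h.2.2.1

/-! ### rows -/

lemma PAD_mem_gl {v w : ℕ} : w ∈ PAD_gl Fr P v ↔ PAD_has Fr P v w := by
  classical
  unfold PAD_gl
  rw [List.mem_filter, List.mem_range, decide_eq_true_iff]
  refine ⟨fun h => h.2, fun h => ⟨?_, h⟩⟩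
  have h1 := PAD_col_rng Fr P v
  have h2 := PAD_col_rng Fr P w
  rcases h with h | h | h
  · exact PAD_lt_of_col Fr P (by omega)
  · exact PAD_lt_of_col Fr P (by omega)
  · have := PAD_C_old Fr P ⟨h.1, h.2.1, h.2.2.2⟩
    omega

lemma PAD_gl_lt (v : ℕ) : (PAD_gl Fr P v).Pairwise (· < ·) :=
  List.pairwise_lt_range.filter _

lemma PAD_nb_lt (F : Dat K E) {v w w' : ℕ} (h : PAD_has Fr P v w) (h' : PAD_has Fr P v w')
    (hw : w < w') : PAD_nb Fr P F (v, w) < PAD_nb Fr P F (v, w') := by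
  by_cases hc : PAD_C Fr P v w
  · have h1 := PAD_has_C Fr P h hc
    have h2 := PAD_mb_lt Fr P F hc
    have h3 := PAD_C_old Fr P hc
    have h4 := PAD_C_col Fr P hc
    have h5 := hc.2.1
    rw [PAD_nb_pos Fr P F hc]
    by_cases hc' : PAD_C Fr P v w'
    · have h6 := PAD_has_C Fr P h' hc'
      have h7 := PAD_nb_ge Fr P F v w'
      have h8 := hc'.2.1
      omega
    · rw [PAD_nb_neg Fr P F hc']
      have h9 := PAD_col_rng Fr P w'
      have h10 : PAD_col Fr P w' ≤ 2 := by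
        rcases h' with h' | h' | h'
        · omega
        · omega
        · exact absurd ⟨h'.1, h'.2.1, h'.2.2.2⟩ hc'
      have h11 : 3 * P + 3 * Fr.Γ ≤ w' := by
        by_contra h12
        have := PAD_col_old_mem Fr P (v := w') (by omega) (not_le.1 h12)
        omega
      omega
  · rw [PAD_nb_neg Fr P F hc]
    exact lt_of_lt_of_le hw (PAD_nb_ge Fr P F v w')

lemma PAD_sort {n : ℕ} (hn : 6 * P + 3 * Fr.Γ ≤ n) (F : Dat K E) (v : Fin n)
    [Fintype ((PAD_G Fr P n F).neighborSet v)] :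
    (((PAD_G Fr P n F).neighborFinset v).sort (· ≤ ·)).map Fin.val =
      (PAD_gl Fr P (v : ℕ)).map fun w => PAD_nb Fr P F ((v : ℕ), w) := by
  apply List.Pairwise.eq_of_mem_iff (r := fun a b : ℕ => a < b)
  · rw [List.pairwise_map]
    exact (Finset.sortedLT_sort _).pairwise.imp fun h => h
  · rw [List.pairwise_map]
    refine (PAD_gl_lt Fr P (v : ℕ)).imp_of_mem fun {w w'} h1 h2 h => ?_
    exact PAD_nb_lt Fr P F ((PAD_mem_gl Fr P).1 h1) ((PAD_mem_gl Fr P).1 h2) h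
  · intro a
    rw [List.mem_map, List.mem_map]
    have hv := PAD_col_rng Fr P v
    constructor
    · rintro ⟨u, hu, rfl⟩
      rw [Finset.mem_sort, SimpleGraph.mem_neighborFinset] at hu
      have hur := PAD_col_rng Fr P u
      rcases hu with h | h | ⟨h1, h2, h3, h4⟩
      · refine ⟨u, (PAD_mem_gl Fr P).2 (Or.inl h), PAD_nb_neg Fr P F fun hc => ?_⟩
        have := PAD_C_col Fr P hc
        omega
      · refine ⟨u, (PAD_mem_gl Fr P).2 (Or.inr (Or.inl h)), PAD_nb_neg Fr P F fun hc => ?_⟩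
        have := PAD_C_col Fr P hc
        omega
      · have e1 : (3 * P + 3 * (((u : ℕ) - 3 * P) / 3) - 3 * P) / 3 = ((u : ℕ) - 3 * P) / 3 := by
          omega
        have hc : PAD_C Fr P v (3 * P + 3 * (((u : ℕ) - 3 * P) / 3)) := by
          refine ⟨h1, by omega, ?_⟩
          rw [e1]
          exact h3
        refine ⟨3 * P + 3 * (((u : ℕ) - 3 * P) / 3), (PAD_mem_gl Fr P).2
          (Or.inr (Or.inr ⟨h1, by omega, by omega, hc.2.2⟩)), ?_⟩
        rw [PAD_nb_pos Fr P F hc, e1, h4]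
        omega
    · rintro ⟨w, hw, rfl⟩
      rw [PAD_mem_gl] at hw
      have hwr := PAD_col_rng Fr P w
      rcases hw with h | h | ⟨h1, h2, h3, h4⟩
      · have hc : ¬ PAD_C Fr P v w := fun hc => by
          have := PAD_C_col Fr P hc
          omega
        have hlt := PAD_lt_of_col Fr P (v := w) (by omega)
        refine ⟨⟨w, by omega⟩, ?_, (PAD_nb_neg Fr P F hc).symm⟩
        rw [Finset.mem_sort, SimpleGraph.mem_neighborFinset]
        exact Or.inl h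
      · have hc : ¬ PAD_C Fr P v w := fun hc => by
          have := PAD_C_col Fr P hc
          omega
        have hlt := PAD_lt_of_col Fr P (v := w) (by omega)
        refine ⟨⟨w, by omega⟩, ?_, (PAD_nb_neg Fr P F hc).symm⟩
        rw [Finset.mem_sort, SimpleGraph.mem_neighborFinset]
        exact Or.inr (Or.inl h)
      · have hc : PAD_C Fr P v w := ⟨h1, h2, h4⟩
        have h5 := PAD_mb_lt Fr P F hc
        have h6 := PAD_C_old Fr P hc
        have h7 := PAD_nb_pos Fr P F hc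
        generalize hm : GAD_mb Fr F (((v : ℕ) - 3 * P) / 3) (((v : ℕ) - 3 * P) % 3)
          ((w - 3 * P) / 3) = m at h5 h7
        have e1 : (w + m - 3 * P) / 3 = (w - 3 * P) / 3 := by omega
        have e2 : (w + m - 3 * P) % 3 = m := by omega
        refine ⟨⟨w + m, by omega⟩, ?_, h7.symm⟩
        rw [Finset.mem_sort, SimpleGraph.mem_neighborFinset]
        refine Or.inr (Or.inr ⟨h1, ?_, ?_, ?_⟩)
        · show 3 * P ≤ w + m
          omega
        · show GAD_has Fr (((v : ℕ) - 3 * P) / 3) (((v : ℕ) - 3 * P) % 3) ((w + m - 3 * P) / 3)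
          rw [e1]
          exact h4
        · show GAD_mb Fr F (((v : ℕ) - 3 * P) / 3) (((v : ℕ) - 3 * P) % 3)
            ((w + m - 3 * P) / 3) = (w + m - 3 * P) % 3
          rw [e1, e2, hm]

lemma PAD_deg {n : ℕ} (hn : 6 * P + 3 * Fr.Γ ≤ n) (F : Dat K E) :
    HasDegrees (PAD_G Fr P n F) (PAD_d Fr P n) := by
  classical
  intro v
  have h := congrArg List.length (PAD_sort Fr P hn F v)
  rw [List.length_map, Finset.length_sort, List.length_map] at h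
  show ((PAD_G Fr P n F).neighborSet v).ncard = (PAD_gl Fr P (v : ℕ)).length
  rw [← h, Set.ncard_eq_toFinset_card']
  rfl

lemma PAD_lists {n : ℕ} (hn : 6 * P + 3 * Fr.Γ ≤ n) (F : Dat K E) :
    (lists (PAD_G Fr P n F)).map Fin.val = (PAD_L0 Fr P n).map (PAD_nb Fr P F) := by
  have h : List.range n = (List.finRange n).map Fin.val :=
    List.ext_getElem (by simp) (by intros; simp)
  unfold lists PAD_L0
  rw [List.map_flatMap, List.map_flatMap, h, List.flatMap_map]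
  congr 1
  funext v
  rw [List.map_map]
  classical
  exact PAD_sort Fr P hn F v

lemma PAD_tape {n : ℕ} (hn : 6 * P + 3 * Fr.Γ ≤ n) (F : Dat K E)
    (p : Fin (∑ v : Fin n, PAD_d Fr P n v)) :
    (tape (PAD_d Fr P n) (PAD_G Fr P n F) p).map Fin.val =
      ((PAD_L0 Fr P n)[(p : ℕ)]?).map (PAD_nb Fr P F) := by
  unfold tape
  rw [← List.getElem?_map, PAD_lists Fr P hn, List.getElem?_map]

/-! ### triangles -/

lemma PAD_adj_cases {n : ℕ} {F : Dat K E} {u v : Fin n} (h : (PAD_G Fr P n F).Adj u v) :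
    PAD_col Fr P u + 3 = PAD_col Fr P v ∨ PAD_col Fr P v + 3 = PAD_col Fr P u ∨
      ((3 ≤ PAD_col Fr P u ∧ PAD_col Fr P u ≤ 5) ∧ (3 ≤ PAD_col Fr P v ∧ PAD_col Fr P v ≤ 5) ∧
        PAD_col Fr P u ≠ PAD_col Fr P v) := by
  rcases h with h | h | ⟨h1, h2, h3, -⟩
  · exact Or.inl h
  · exact Or.inr (Or.inl h)
  · have hc : PAD_C Fr P u v := ⟨h1, h2, h3⟩
    have h4 := PAD_C_col Fr P hc
    exact Or.inr (Or.inr ⟨h4.1, h4.2, PAD_C_ne Fr P hc⟩)

lemma PAD_old_of_col {v : ℕ} (h1 : 3 ≤ PAD_col Fr P v) (h2 : PAD_col Fr P v ≤ 5) :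
    3 * P ≤ v ∧ v < 3 * P + 3 * Fr.Γ := by
  have h3 := PAD_lt_of_col Fr P h2
  constructor
  · by_contra hc
    have := PAD_col_front Fr P (not_le.1 hc)
    omega
  · by_contra hc
    have := PAD_col_back Fr P (not_lt.1 hc) h3
    omega

/-- old vertices: adjacency is the one of the old graph -/
lemma PAD_adj_old {n : ℕ} {F : Dat K E} {u v : Fin n} (h : (PAD_G Fr P n F).Adj u v)
    (hu : (u : ℕ) - 3 * P < 3 * Fr.Γ) (hv : (v : ℕ) - 3 * P < 3 * Fr.Γ)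
    (hu' : 3 ≤ PAD_col Fr P u) (hv' : 3 ≤ PAD_col Fr P v) :
    (GAD_G Fr (3 * Fr.Γ) F).Adj ⟨(u : ℕ) - 3 * P, hu⟩ ⟨(v : ℕ) - 3 * P, hv⟩ := by
  have h1 := PAD_col_rng Fr P u
  have h2 := PAD_col_rng Fr P v
  rcases h with h | h | ⟨-, -, h3, h4⟩
  · omega
  · omega
  · exact ⟨h3, h4⟩

lemma PAD_adj_new {n : ℕ} (hn : 6 * P + 3 * Fr.Γ ≤ n) {F : Dat K E} {u v : Fin (3 * Fr.Γ)}
    (h : (GAD_G Fr (3 * Fr.Γ) F).Adj u v) :
    (PAD_G Fr P n F).Adj ⟨3 * P + u, by omega⟩ ⟨3 * P + v, by omega⟩ := by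
  obtain ⟨h1, h2⟩ := h
  have e1 : 3 * P + (u : ℕ) - 3 * P = u := by omega
  have e2 : 3 * P + (v : ℕ) - 3 * P = v := by omega
  refine Or.inr (Or.inr ⟨?_, ?_, ?_, ?_⟩)
  · show 3 * P ≤ 3 * P + (u : ℕ)
    omega
  · show 3 * P ≤ 3 * P + (v : ℕ)
    omega
  · show GAD_has Fr ((3 * P + (u : ℕ) - 3 * P) / 3) ((3 * P + (u : ℕ) - 3 * P) % 3)
      ((3 * P + (v : ℕ) - 3 * P) / 3)
    rw [e1, e2]
    exact h1
  · show GAD_mb Fr F ((3 * P + (u : ℕ) - 3 * P) / 3) ((3 * P + (u : ℕ) - 3 * P) % 3)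
      ((3 * P + (v : ℕ) - 3 * P) / 3) = (3 * P + (v : ℕ) - 3 * P) % 3
    rw [e1, e2]
    exact h2

lemma PAD_tri {n : ℕ} (hn : 6 * P + 3 * Fr.Γ ≤ n) (F : Dat K E) :
    (PAD_G Fr P n F).CliqueFree 3 ↔ ∀ κ e, (F κ).1 e = true → (F κ).2 e = false := by
  classical
  rw [← GAD_tri Fr le_rfl F]
  constructor
  · intro h s hs
    rw [SimpleGraph.is3Clique_iff] at hs
    obtain ⟨u, v, w, huv, huw, hvw, -⟩ := hs
    apply h {⟨3 * P + u, by omega⟩, ⟨3 * P + v, by omega⟩, ⟨3 * P + w, by omega⟩}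
    rw [SimpleGraph.is3Clique_triple_iff]
    exact ⟨PAD_adj_new Fr P hn huv, PAD_adj_new Fr P hn huw, PAD_adj_new Fr P hn hvw⟩
  · intro h s hs
    rw [SimpleGraph.is3Clique_iff] at hs
    obtain ⟨u, v, w, huv, huw, hvw, -⟩ := hs
    have c1 := PAD_adj_cases Fr P huv
    have c2 := PAD_adj_cases Fr P huw
    have c3 := PAD_adj_cases Fr P hvw
    have r1 := PAD_col_rng Fr P u
    have r2 := PAD_col_rng Fr P v
    have r3 := PAD_col_rng Fr P w
    have k1 : 3 ≤ PAD_col Fr P u ∧ PAD_col Fr P u ≤ 5 := by omega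
    have k2 : 3 ≤ PAD_col Fr P v ∧ PAD_col Fr P v ≤ 5 := by omega
    have k3 : 3 ≤ PAD_col Fr P w ∧ PAD_col Fr P w ≤ 5 := by omega
    have o1 := PAD_old_of_col Fr P k1.1 k1.2
    have o2 := PAD_old_of_col Fr P k2.1 k2.2
    have o3 := PAD_old_of_col Fr P k3.1 k3.2
    apply h {⟨(u : ℕ) - 3 * P, by omega⟩, ⟨(v : ℕ) - 3 * P, by omega⟩,
      ⟨(w : ℕ) - 3 * P, by omega⟩}
    rw [SimpleGraph.is3Clique_triple_iff]
    exact ⟨PAD_adj_old Fr P huv _ _ k1.1 k2.1, PAD_adj_old Fr P huw _ _ k1.1 k3.1,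
      PAD_adj_old Fr P hvw _ _ k2.1 k3.1⟩

end Pad

theorem m_PAD1 : S_PAD1 := by
  intro K E Fr P _ n hn F
  exact ⟨PAD_deg Fr P hn F, fun p => PAD_tape Fr P hn F p, PAD_tri Fr P hn F⟩

end Pool.Agent.HLL
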