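import Pool.Agent.HLL.St

/-!
# PAD2: the layout of the padded graphs
-/

set_option linter.unusedSectionVars false

namespace Pool.Agent.HLL

open Pool.Agent.HDL

section Pad2

variable {K E : Type} (Fr : Frame K E) (P : ℕ)

/-- `x` is an old vertex -/
def PAD_old (x : ℕ) : Prop := 3 * P ≤ x ∧ x < 3 * P + 3 * Fr.Γ

lemma PAD2_col_front (hP : 0 < P) {c j : ℕ} (hc : c < 3) (hj : j < P) :
    PAD_col Fr P (c * P + j) = c ∧ c * P + j < 3 * P := by
  have h1 : c * P + j < 3 * P := by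
    have : c * P ≤ 2 * P := Nat.mul_le_mul_right P (by omega)
    omega
  refine ⟨?_, h1⟩
  unfold PAD_col
  rw [if_pos h1, Nat.add_comm, Nat.add_mul_div_right _ _ hP, Nat.div_eq_of_lt hj, Nat.zero_add]

lemma PAD2_col_back (hP : 0 < P) {c j : ℕ} (hc : c < 3) (hj : j < P) :
    PAD_col Fr P (3 * P + 3 * Fr.Γ + (c * P + j)) = c ∧ c * P + j < 3 * P := by
  have h1 : c * P + j < 3 * P := by
    have : c * P ≤ 2 * P := Nat.mul_le_mul_right P (by omega)
    omega
  refine ⟨?_, h1⟩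
  unfold PAD_col
  rw [if_neg (by omega), if_neg (by omega), if_pos (by omega)]
  have h2 : 3 * P + 3 * Fr.Γ + (c * P + j) - 3 * P - 3 * Fr.Γ = j + c * P := by omega
  rw [h2, Nat.add_mul_div_right _ _ hP, Nat.div_eq_of_lt hj, Nat.zero_add]

/-- the five kinds of vertices -/
lemma PAD_col_cases (_hP : 0 < P) (x : ℕ) :
    (x < 3 * P ∧ PAD_col Fr P x = x / P ∧ x / P < 3) ∨
    (PAD_old Fr P x ∧ 3 ≤ PAD_col Fr P x ∧ PAD_col Fr P x ≤ 5) ∨
    (3 * P + 3 * Fr.Γ ≤ x ∧ x < 6 * P + 3 * Fr.Γ ∧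
      PAD_col Fr P x = (x - 3 * P - 3 * Fr.Γ) / P ∧ (x - 3 * P - 3 * Fr.Γ) / P < 3) ∨
    (6 * P + 3 * Fr.Γ ≤ x ∧ PAD_col Fr P x = 9) := by
  unfold PAD_old PAD_col
  by_cases h1 : x < 3 * P
  · left
    rw [if_pos h1]
    exact ⟨h1, rfl, Nat.div_lt_of_lt_mul (by rw [Nat.mul_comm]; exact h1)⟩
  · by_cases h2 : x < 3 * P + 3 * Fr.Γ
    · right
      left
      rw [if_neg h1, if_pos h2]
      refine ⟨⟨by omega, h2⟩, ?_, ?_⟩ <;> split_ifs <;> omega
    · by_cases h3 : x < 6 * P + 3 * Fr.Γ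
      · right
        right
        left
        rw [if_neg h1, if_neg h2, if_pos h3]
        exact ⟨by omega, h3, rfl, Nat.div_lt_of_lt_mul (by rw [Nat.mul_comm]; omega)⟩
      · right
        right
        right
        rw [if_neg h1, if_neg h2, if_neg h3]
        exact ⟨by omega, rfl⟩

/-- the links of a vertex with a code: pad and old vertex, old vertex and pad, two old vertices -/
lemma PAD_has_cases (hP : 0 < P) {v w : ℕ} (h : PAD_has Fr P v w) :
    (¬ PAD_old Fr P v ∧ PAD_old Fr P w ∧ v < 6 * P + 3 * Fr.Γ ∧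
      PAD_col Fr P v + 3 = PAD_col Fr P w) ∨
    (PAD_old Fr P v ∧ ¬ PAD_old Fr P w ∧ w < 6 * P + 3 * Fr.Γ ∧
      PAD_col Fr P w + 3 = PAD_col Fr P v) ∨
    (PAD_old Fr P v ∧ PAD_old Fr P w ∧ (w - 3 * P) % 3 = 0 ∧
      GAD_has Fr ((v - 3 * P) / 3) ((v - 3 * P) % 3) ((w - 3 * P) / 3)) := by
  have cv := PAD_col_cases Fr P hP v
  have cw := PAD_col_cases Fr P hP w
  unfold PAD_old at cv cw ⊢
  rcases h with h | h | ⟨h1, h2, h3, h4⟩
  · left
    omega
  · right
    left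
    omega
  · right
    right
    have h5 := GAD_has_lt Fr h4
    refine ⟨⟨h1, ?_⟩, ⟨h2, ?_⟩, h3, h4⟩
    · omega
    · omega

lemma PAD2_mem_gl {v w : ℕ} : w ∈ PAD_gl Fr P v ↔ w < 6 * P + 3 * Fr.Γ ∧ PAD_has Fr P v w := by
  classical
  unfold PAD_gl
  rw [List.mem_filter, List.mem_range, decide_eq_true_iff]

lemma PAD2_gl_lt (v : ℕ) : (PAD_gl Fr P v).Pairwise (· < ·) :=
  List.pairwise_lt_range.filter _

lemma PAD_gl_nil (hP : 0 < P) {v : ℕ} (h : 6 * P + 3 * Fr.Γ ≤ v) : PAD_gl Fr P v = [] := by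
  rw [List.eq_nil_iff_forall_not_mem]
  intro w hw
  rw [PAD2_mem_gl] at hw
  have h1 := PAD_has_cases Fr P hP hw.2
  unfold PAD_old at h1
  omega

lemma PAD_mem_L0 {n : ℕ} {c : ℕ × ℕ} : c ∈ PAD_L0 Fr P n ↔
    c.1 < n ∧ c.2 < 6 * P + 3 * Fr.Γ ∧ PAD_has Fr P c.1 c.2 := by
  unfold PAD_L0
  rw [List.mem_flatMap]
  constructor
  · rintro ⟨u, hu, hc⟩
    obtain ⟨γ, hγ, rfl⟩ := List.mem_map.1 hc
    exact ⟨List.mem_range.1 hu, (PAD2_mem_gl Fr P).1 hγ⟩
  · rintro ⟨h1, h2⟩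
    exact ⟨c.1, List.mem_range.2 h1, List.mem_map.2 ⟨c.2, (PAD2_mem_gl Fr P).2 h2, rfl⟩⟩

lemma PAD_L0_lex (n : ℕ) : (PAD_L0 Fr P n).Pairwise GAD_lex := by
  unfold PAD_L0
  rw [List.pairwise_flatMap]
  constructor
  · intro u _
    rw [List.pairwise_map]
    exact (PAD2_gl_lt Fr P u).imp fun h => Or.inr ⟨rfl, h⟩
  · refine List.pairwise_lt_range.imp fun {a b} h c hc c' hc' => ?_
    obtain ⟨γ, _, rfl⟩ := List.mem_map.1 hc
    obtain ⟨γ', _, rfl⟩ := List.mem_map.1 hc'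
    exact Or.inl h

lemma PAD_L0_length (n : ℕ) :
    (PAD_L0 Fr P n).length = ∑ i ∈ Finset.range n, (PAD_gl Fr P i).length := by
  unfold PAD_L0
  rw [List.length_flatMap, GAD_sum_range]
  refine Finset.sum_congr rfl fun u _ => ?_
  rw [List.length_map]

lemma PAD_L0_length_fin (n : ℕ) : (PAD_L0 Fr P n).length = ∑ v : Fin n, PAD_d Fr P n v := by
  rw [PAD_L0_length, Finset.sum_range]
  rfl

lemma PAD_L0_mono {m n : ℕ} (h : m ≤ n) :
    (PAD_L0 Fr P m).length ≤ (PAD_L0 Fr P n).length := by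
  rw [PAD_L0_length, PAD_L0_length]
  exact Finset.sum_le_sum_of_subset (Finset.range_subset_range.2 h)

lemma PAD_nodup (n : ℕ) : (PAD_L0 Fr P n).Nodup := by
  refine (PAD_L0_lex Fr P n).imp fun {c c'} h => ?_
  rintro rfl
  unfold GAD_lex at h
  omega

/-- vertex and code of a cell -/
noncomputable def PAD_cl {n : ℕ} (p : Fin (∑ v : Fin n, PAD_d Fr P n v)) : ℕ × ℕ :=
  (PAD_L0 Fr P n)[(p : ℕ)]'(by rw [PAD_L0_length_fin]; exact p.2)

lemma PAD_cl_get {n : ℕ} (p : Fin (∑ v : Fin n, PAD_d Fr P n v)) :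
    (PAD_L0 Fr P n)[(p : ℕ)]? = some (PAD_cl Fr P p) :=
  List.getElem?_eq_getElem _

lemma PAD_cl_mem {n : ℕ} (p : Fin (∑ v : Fin n, PAD_d Fr P n v)) :
    PAD_cl Fr P p ∈ PAD_L0 Fr P n := List.getElem_mem _

lemma PAD_cl_lex {n : ℕ} {p q : Fin (∑ v : Fin n, PAD_d Fr P n v)} (h : p < q) :
    GAD_lex (PAD_cl Fr P p) (PAD_cl Fr P q) :=
  List.pairwise_iff_getElem.1 (PAD_L0_lex Fr P n) p q _ _ h

lemma PAD_cl_inj {n : ℕ} {p q : Fin (∑ v : Fin n, PAD_d Fr P n v)}
    (h : PAD_cl Fr P p = PAD_cl Fr P q) : p = q := by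
  by_contra hpq
  rcases lt_or_gt_of_ne hpq with h1 | h1
  · have h2 := PAD_cl_lex Fr P h1
    rw [h] at h2
    unfold GAD_lex at h2
    omega
  · have h2 := PAD_cl_lex Fr P h1
    rw [h] at h2
    unfold GAD_lex at h2
    omega

lemma PAD_cl_surj {n : ℕ} {c : ℕ × ℕ} (h : c ∈ PAD_L0 Fr P n) :
    ∃ p : Fin (∑ v : Fin n, PAD_d Fr P n v), PAD_cl Fr P p = c := by
  obtain ⟨i, hi, h⟩ := List.getElem_of_mem h
  have hi' : i < ∑ v : Fin n, PAD_d Fr P n v := by
    rw [← PAD_L0_length_fin]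
    exact hi
  exact ⟨⟨i, hi'⟩, h⟩

open Classical in
/-- the address of a cell -/
noncomputable def PAD_adr (c : ℕ × ℕ) : Option (K × E × Bool) :=
  if PAD_old Fr P c.1 ∧ PAD_old Fr P c.2 then
    GAD_ad Fr ((c.1 - 3 * P) / 3) ((c.2 - 3 * P) / 3)
  else none

/-- the place of a cell in the old tape -/
def PAD_mp (c : ℕ × ℕ) : ℕ × ℕ :=
  if c.1 < 3 * P then (0, 0)
  else if c.1 < 3 * P + 3 * Fr.Γ then
    (c.1 - 3 * P, if c.2 < 3 * P then 0 else if c.2 < 3 * P + 3 * Fr.Γ then (c.2 - 3 * P) / 3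
      else Fr.Γ)
  else (3 * Fr.Γ, Fr.Γ)

lemma PAD_mp_old {c : ℕ × ℕ} (h1 : PAD_old Fr P c.1) (h2 : PAD_old Fr P c.2) :
    PAD_mp Fr P c = (c.1 - 3 * P, (c.2 - 3 * P) / 3) := by
  unfold PAD_old at h1 h2
  unfold PAD_mp
  rw [if_neg (by omega), if_pos h1.2, if_neg (by omega), if_pos h2.2]

lemma PAD_mp_mono {c c' : ℕ × ℕ} (h : c.1 < c'.1 ∨ (c.1 = c'.1 ∧ c.2 ≤ c'.2)) :
    (PAD_mp Fr P c).1 < (PAD_mp Fr P c').1 ∨
      ((PAD_mp Fr P c).1 = (PAD_mp Fr P c').1 ∧ (PAD_mp Fr P c).2 ≤ (PAD_mp Fr P c').2) := by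
  obtain ⟨v, w⟩ := c
  obtain ⟨v', w'⟩ := c'
  unfold PAD_mp
  simp only at h ⊢
  split_ifs <;> first
    | exact Or.inr ⟨rfl, le_rfl⟩
    | (simp only [Nat.zero_le, and_true, le_refl]; omega)

lemma PAD_adr_old {c : ℕ × ℕ} (h : PAD_adr Fr P c ≠ none) :
    PAD_old Fr P c.1 ∧ PAD_old Fr P c.2 := by
  unfold PAD_adr at h
  by_contra hc
  exact h (if_neg hc)

lemma PAD_adr_eq {c : ℕ × ℕ} (h : PAD_old Fr P c.1 ∧ PAD_old Fr P c.2) :
    PAD_adr Fr P c = GAD_ad Fr ((c.1 - 3 * P) / 3) ((c.2 - 3 * P) / 3) := by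
  unfold PAD_adr
  rw [if_pos h]

/-- a cell with an address -/
lemma PAD_adr_some {c : ℕ × ℕ} {x : K × E × Bool} (h : PAD_adr Fr P c = some x) :
    PAD_mp Fr P c = (c.1 - 3 * P, (c.2 - 3 * P) / 3) ∧
      GAD_Key Fr ((PAD_mp Fr P c).1 / 3) (PAD_mp Fr P c).2 x := by
  have h1 := PAD_adr_old Fr P (c := c) (by rw [h]; simp)
  rw [PAD_adr_eq Fr P h1, GAD_ad_iff] at h
  have h2 := PAD_mp_old Fr P h1.1 h1.2
  refine ⟨h2, ?_⟩
  rw [h2]
  exact h

/-- cells of the old tape are cells of the new tape -/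
lemma PAD_up {c : ℕ × ℕ} (h : GAD_has Fr (c.1 / 3) (c.1 % 3) c.2) {n : ℕ}
    (hn : 6 * P + 3 * Fr.Γ ≤ n) :
    (3 * P + c.1, 3 * P + 3 * c.2) ∈ PAD_L0 Fr P n ∧
      PAD_mp Fr P (3 * P + c.1, 3 * P + 3 * c.2) = c := by
  have h1 := GAD_has_lt Fr h
  have e1 : 3 * P + c.1 - 3 * P = c.1 := by omega
  have e2 : 3 * P + 3 * c.2 - 3 * P = 3 * c.2 := by omega
  constructor
  · rw [PAD_mem_L0]
    refine ⟨by show 3 * P + c.1 < n; omega, by show 3 * P + 3 * c.2 < _; omega, ?_⟩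
    refine Or.inr (Or.inr ⟨by omega, by omega, ?_, ?_⟩)
    · show (3 * P + 3 * c.2 - 3 * P) % 3 = 0
      omega
    · show GAD_has Fr ((3 * P + c.1 - 3 * P) / 3) ((3 * P + c.1 - 3 * P) % 3)
        ((3 * P + 3 * c.2 - 3 * P) / 3)
      rw [e1, e2, Nat.mul_div_cancel_left _ (by norm_num)]
      exact h
  · rw [PAD_mp_old Fr P (c := (3 * P + c.1, 3 * P + 3 * c.2))
      ⟨by show 3 * P ≤ 3 * P + c.1; omega, by show 3 * P + c.1 < _; omega⟩
      ⟨by show 3 * P ≤ 3 * P + 3 * c.2; omega, by show 3 * P + 3 * c.2 < _; omega⟩]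
    show (3 * P + c.1 - 3 * P, (3 * P + 3 * c.2 - 3 * P) / 3) = c
    rw [e1, e2, Nat.mul_div_cancel_left _ (by norm_num)]

/-- the layout -/
noncomputable def PAD_Lay (hP : 0 < P) {n : ℕ} (hn : 6 * P + 3 * Fr.Γ ≤ n)
    (htape : ∀ (F : Dat K E) (p : Fin (∑ v : Fin n, PAD_d Fr P n v)),
      (tape (PAD_d Fr P n) (PAD_G Fr P n F) p).map Fin.val =
        ((PAD_L0 Fr P n)[(p : ℕ)]?).map (PAD_nb Fr P F)) :
    Lay (∑ v : Fin n, PAD_d Fr P n v) (Option (Fin n)) K E (Option (ℕ × ℕ)) where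
  len := Fr.len
  b0 := Fr.b0
  cont F := tape (PAD_d Fr P n) (PAD_G Fr P n F)
  adr p := PAD_adr Fr P (PAD_cl Fr P p)
  sc p := some (Fr.key (PAD_mp Fr P (PAD_cl Fr P p)).1 (PAD_mp Fr P (PAD_cl Fr P p)).2)
  hlen := Fr.hlen
  hb0 := Fr.hb0
  congr := by
    intro F F' p h1 h2
    apply Option.map_injective Fin.val_injective
    rw [htape, htape, PAD_cl_get]
    show some (PAD_nb Fr P F (PAD_cl Fr P p)) = some (PAD_nb Fr P F' (PAD_cl Fr P p))
    generalize PAD_cl Fr P p = c at h1 h2 ⊢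
    unfold PAD_nb
    split_ifs with h
    · have h5 := GAD_has_lt Fr h.2.2
      have h6 : PAD_old Fr P c.1 ∧ PAD_old Fr P c.2 := by
        unfold PAD_old
        omega
      rw [PAD_adr_eq Fr P h6] at h1 h2
      rw [GAD_mb_congr Fr (GAD_bt_congr Fr h1 h2)]
    · rfl
  conv := by
    intro p q r hpq hqr h
    rcases hpq.eq_or_lt with rfl | hpq
    · rfl
    rcases hqr.eq_or_lt with rfl | hqr
    · exact h.symm
    have h1 := PAD_cl_lex Fr P hpq
    have h2 := PAD_cl_lex Fr P hqr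
    have h3 := Option.some.inj h
    unfold GAD_lex at h1 h2
    have h4 := PAD_mp_mono Fr P (c := PAD_cl Fr P p) (c' := PAD_cl Fr P q) (by omega)
    have h5 := PAD_mp_mono Fr P (c := PAD_cl Fr P q) (c' := PAD_cl Fr P r) (by omega)
    rw [Fr.conv (PAD_mp Fr P (PAD_cl Fr P p)).1 (PAD_mp Fr P (PAD_cl Fr P p)).2
      (PAD_mp Fr P (PAD_cl Fr P q)).1 (PAD_mp Fr P (PAD_cl Fr P q)).2
      (PAD_mp Fr P (PAD_cl Fr P r)).1 (PAD_mp Fr P (PAD_cl Fr P r)).2 h4 h5 h3]
  big := by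
    intro p hp
    obtain ⟨o1, o2⟩ := PAD_adr_old Fr P hp
    rw [PAD_adr_eq Fr P ⟨o1, o2⟩] at hp
    have hmp := PAD_mp_old Fr P o1 o2
    have hm := (PAD_mem_L0 Fr P).1 (PAD_cl_mem Fr P p)
    have hh : GAD_has Fr (((PAD_cl Fr P p).1 - 3 * P) / 3) (((PAD_cl Fr P p).1 - 3 * P) % 3)
        (((PAD_cl Fr P p).2 - 3 * P) / 3) := by
      rcases PAD_has_cases Fr P hP hm.2.2 with h | h | h
      · exact absurd o1 h.1
      · exact absurd o2 h.2.1
      · exact h.2.2.2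
    obtain ⟨p', hp'⟩ := GAD_cl_surj Fr (n := 3 * Fr.Γ)
      (c := ((PAD_cl Fr P p).1 - 3 * P, ((PAD_cl Fr P p).2 - 3 * P) / 3))
      (by
        show (PAD_cl Fr P p).1 - 3 * P < 3 * Fr.Γ
        unfold PAD_old at o1
        omega) hh
    obtain ⟨S, hS, hS'⟩ := GAD_big Fr p' (by rw [hp']; exact hp)
    rw [hp'] at hS'
    classical
    refine ⟨Finset.univ.filter fun q => ∃ c ∈ S,
      PAD_cl Fr P q = (3 * P + c.1, 3 * P + 3 * c.2), hS.trans ?_, ?_⟩
    · apply Finset.card_le_card_of_surjOn fun q => PAD_mp Fr P (PAD_cl Fr P q)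
      intro c hc
      obtain ⟨h1, h2⟩ := PAD_up Fr P (hS' c hc).1 hn
      obtain ⟨q, hq⟩ := PAD_cl_surj Fr P h1
      refine ⟨q, ?_, ?_⟩
      · rw [Finset.mem_coe, Finset.mem_filter]
        exact ⟨Finset.mem_univ _, c, hc, hq⟩
      · show PAD_mp Fr P (PAD_cl Fr P q) = c
        rw [hq]
        exact h2
    · intro q hq
      obtain ⟨-, c, hc, h1⟩ := Finset.mem_filter.1 hq
      obtain ⟨h3, h4⟩ := hS' c hc
      rw [h1, (PAD_up Fr P h3 hn).2, h4, hmp]
  one := by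
    intro p q κ κ' e e' hp hq h
    have hp := (PAD_adr_some Fr P hp).2
    have hq := (PAD_adr_some Fr P hq).2
    have h3 := Option.some.inj h
    unfold GAD_Key at hp hq
    simp only [true_and, Bool.true_eq_false, false_and, or_false] at hp hq
    refine Fr.one (PAD_mp Fr P (PAD_cl Fr P p)).1 (PAD_mp Fr P (PAD_cl Fr P p)).2
      (PAD_mp Fr P (PAD_cl Fr P q)).1 (PAD_mp Fr P (PAD_cl Fr P q)).2 κ e κ' e' ?_ ?_ h3
    · rcases hp with ⟨a1, a2⟩ | ⟨a1, a2⟩
      · exact Or.inl ⟨a1.symm, a2.symm⟩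
      · exact Or.inr ⟨a2.symm, a1.symm⟩
    · rcases hq with ⟨a1, a2⟩ | ⟨a1, a2⟩
      · exact Or.inl ⟨a1.symm, a2.symm⟩
      · exact Or.inr ⟨a2.symm, a1.symm⟩
  few := by
    intro c κ s hs
    rcases s.eq_empty_or_nonempty with rfl | ⟨p0, hp0⟩
    · simp
    classical
    have h1 : (s.image fun p => PAD_mp Fr P (PAD_cl Fr P p)).card = s.card := by
      apply Finset.card_image_of_injOn
      intro p hp q hq hpq
      obtain ⟨-, e, he⟩ := hs p hp
      obtain ⟨-, e', he'⟩ := hs q hq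
      have o := PAD_adr_old Fr P (c := PAD_cl Fr P p) (by rw [he]; simp)
      have o' := PAD_adr_old Fr P (c := PAD_cl Fr P q) (by rw [he']; simp)
      have m := (PAD_mem_L0 Fr P).1 (PAD_cl_mem Fr P p)
      have m' := (PAD_mem_L0 Fr P).1 (PAD_cl_mem Fr P q)
      have r : ((PAD_cl Fr P p).2 - 3 * P) % 3 = 0 := by
        rcases PAD_has_cases Fr P hP m.2.2 with h | h | h
        · exact absurd o.1 h.1
        · exact absurd o.2 h.2.1
        · exact h.2.2.1
      have r' : ((PAD_cl Fr P q).2 - 3 * P) % 3 = 0 := by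
        rcases PAD_has_cases Fr P hP m'.2.2 with h | h | h
        · exact absurd o'.1 h.1
        · exact absurd o'.2 h.2.1
        · exact h.2.2.1
      have hpq : PAD_mp Fr P (PAD_cl Fr P p) = PAD_mp Fr P (PAD_cl Fr P q) := hpq
      rw [PAD_mp_old Fr P o.1 o.2, PAD_mp_old Fr P o'.1 o'.2, Prod.mk.injEq] at hpq
      unfold PAD_old at o o'
      apply PAD_cl_inj Fr P
      apply Prod.ext
      · omega
      · omega
    rw [← h1]
    apply Fr.few (Fr.key (PAD_mp Fr P (PAD_cl Fr P p0)).1 (PAD_mp Fr P (PAD_cl Fr P p0)).2) κ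
    intro x hx
    obtain ⟨p, hp, rfl⟩ := Finset.mem_image.1 hx
    obtain ⟨h2, e, h3⟩ := hs p hp
    refine ⟨Option.some.inj (h2.trans (hs p0 hp0).1.symm), e, ?_⟩
    have h3 := (PAD_adr_some Fr P h3).2
    unfold GAD_Key at h3
    simp only [Bool.false_eq_true, false_and, false_or, true_and] at h3
    rcases h3 with ⟨a1, a2⟩ | ⟨a1, a2⟩
    · exact Or.inl ⟨a1.symm, a2.symm⟩
    · exact Or.inr ⟨a2.symm, a1.symm⟩

/-! ### The number of cells -/

lemma PAD_pad_card (hP : 0 < P) (s : Finset (ℕ × ℕ))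
    (hs : ∀ c ∈ s, ¬ PAD_old Fr P c.1 ∧ PAD_old Fr P c.2 ∧ c.1 < 6 * P + 3 * Fr.Γ ∧
      PAD_col Fr P c.1 + 3 = PAD_col Fr P c.2) : s.card ≤ 6 * P * Fr.Γ := by
  classical
  have h1 : s.card ≤ (Finset.range (2 * P) ×ˢ Finset.range (3 * Fr.Γ)).card := by
    apply Finset.card_le_card_of_injOn
      (fun c => ((if c.1 < 3 * P then c.1 % P else P + (c.1 - 3 * P - 3 * Fr.Γ) % P),
        c.2 - 3 * P))
    · intro c hc
      obtain ⟨a1, a2, a3, a4⟩ := hs c hc
      unfold PAD_old at a2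
      rw [Finset.mem_coe, Finset.mem_product, Finset.mem_range, Finset.mem_range]
      refine ⟨?_, by show c.2 - 3 * P < _; omega⟩
      show (if c.1 < 3 * P then c.1 % P else P + (c.1 - 3 * P - 3 * Fr.Γ) % P) < 2 * P
      have m1 := Nat.mod_lt c.1 hP
      have m2 := Nat.mod_lt (c.1 - 3 * P - 3 * Fr.Γ) hP
      split_ifs <;> omega
    · intro c hc c' hc' h
      obtain ⟨a1, a2, a3, a4⟩ := hs c hc
      obtain ⟨b1, b2, b3, b4⟩ := hs c' hc'
      have h : ((if c.1 < 3 * P then c.1 % P else P + (c.1 - 3 * P - 3 * Fr.Γ) % P),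
        c.2 - 3 * P) = ((if c'.1 < 3 * P then c'.1 % P else P + (c'.1 - 3 * P - 3 * Fr.Γ) % P),
        c'.2 - 3 * P) := h
      rw [Prod.mk.injEq] at h
      obtain ⟨h1, h2⟩ := h
      unfold PAD_old at a1 a2 b1 b2
      have h3 : c.2 = c'.2 := by omega
      have h4 : PAD_col Fr P c.1 = PAD_col Fr P c'.1 := by
        rw [h3] at a4
        omega
      have m1 := Nat.mod_lt c.1 hP
      have m2 := Nat.mod_lt (c.1 - 3 * P - 3 * Fr.Γ) hP
      have m1' := Nat.mod_lt c'.1 hP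
      have m2' := Nat.mod_lt (c'.1 - 3 * P - 3 * Fr.Γ) hP
      have d1 := Nat.div_add_mod c.1 P
      have d2 := Nat.div_add_mod (c.1 - 3 * P - 3 * Fr.Γ) P
      have d1' := Nat.div_add_mod c'.1 P
      have d2' := Nat.div_add_mod (c'.1 - 3 * P - 3 * Fr.Γ) P
      have cc := PAD_col_cases Fr P hP c.1
      have cc' := PAD_col_cases Fr P hP c'.1
      unfold PAD_old at cc cc'
      have h5 : c.1 = c'.1 := by
        by_cases g : c.1 < 3 * P
        · by_cases g' : c'.1 < 3 * P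
          · rw [if_pos g, if_pos g'] at h1
            have q : c.1 / P = c'.1 / P := by omega
            rw [q] at d1
            omega
          · rw [if_pos g, if_neg g'] at h1
            omega
        · by_cases g' : c'.1 < 3 * P
          · rw [if_neg g, if_pos g'] at h1
            omega
          · rw [if_neg g, if_neg g'] at h1
            have q : (c.1 - 3 * P - 3 * Fr.Γ) / P = (c'.1 - 3 * P - 3 * Fr.Γ) / P := by omega
            rw [q] at d2
            omega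
      exact Prod.ext h5 h3
  refine h1.trans ?_
  rw [Finset.card_product, Finset.card_range, Finset.card_range]
  exact le_of_eq (by ring)

lemma PAD_sum_le (hP : 0 < P) :
    (PAD_L0 Fr P (6 * P + 3 * Fr.Γ)).length ≤ Fr.Bd + 12 * P * Fr.Γ := by
  classical
  rw [← List.toFinset_card_of_nodup (PAD_nodup Fr P _)]
  set T := (PAD_L0 Fr P (6 * P + 3 * Fr.Γ)).toFinset with hT
  have hmem : ∀ c ∈ T, PAD_has Fr P c.1 c.2 := by
    intro c hc
    exact ((PAD_mem_L0 Fr P).1 (List.mem_toFinset.1 hc)).2.2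
  -- two old vertices
  have b1 : (T.filter fun c => PAD_old Fr P c.1 ∧ PAD_old Fr P c.2).card ≤ Fr.Bd := by
    have key : ∀ c ∈ T.filter fun c => PAD_old Fr P c.1 ∧ PAD_old Fr P c.2,
        PAD_old Fr P c.1 ∧ PAD_old Fr P c.2 ∧ (c.2 - 3 * P) % 3 = 0 ∧
          GAD_has Fr ((c.1 - 3 * P) / 3) ((c.1 - 3 * P) % 3) ((c.2 - 3 * P) / 3) := by
      intro c hc
      obtain ⟨h1, h2, h3⟩ := Finset.mem_filter.1 hc
      rcases PAD_has_cases Fr P hP (hmem c h1) with h | h | h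
      · exact absurd h2 h.1
      · exact absurd h3 h.2.1
      · exact h
    have h1 : ((T.filter fun c => PAD_old Fr P c.1 ∧ PAD_old Fr P c.2).image
        fun c => (c.1 - 3 * P, (c.2 - 3 * P) / 3)).card =
        (T.filter fun c => PAD_old Fr P c.1 ∧ PAD_old Fr P c.2).card := by
      apply Finset.card_image_of_injOn
      intro c hc c' hc' h
      obtain ⟨o1, o2, r, -⟩ := key c hc
      obtain ⟨o1', o2', r', -⟩ := key c' hc'
      have h : (c.1 - 3 * P, (c.2 - 3 * P) / 3) = (c'.1 - 3 * P, (c'.2 - 3 * P) / 3) := h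
      rw [Prod.mk.injEq] at h
      unfold PAD_old at o1 o2 o1' o2'
      apply Prod.ext
      · omega
      · omega
    rw [← h1]
    apply Fr.cells
    intro x hx
    obtain ⟨c, hc, rfl⟩ := Finset.mem_image.1 hx
    exact (key c hc).2.2.2
  -- a pad and an old vertex
  have b2 : (T.filter fun c => ¬ PAD_old Fr P c.1).card ≤ 6 * P * Fr.Γ := by
    apply PAD_pad_card Fr P hP
    intro c hc
    obtain ⟨h1, h2⟩ := Finset.mem_filter.1 hc
    rcases PAD_has_cases Fr P hP (hmem c h1) with h | h | h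
    · exact h
    · exact absurd h.1 h2
    · exact absurd h.1 h2
  -- an old vertex and a pad
  have b3 : (T.filter fun c => PAD_old Fr P c.1 ∧ ¬ PAD_old Fr P c.2).card ≤ 6 * P * Fr.Γ := by
    have h1 : ((T.filter fun c => PAD_old Fr P c.1 ∧ ¬ PAD_old Fr P c.2).image Prod.swap).card =
        (T.filter fun c => PAD_old Fr P c.1 ∧ ¬ PAD_old Fr P c.2).card :=
      Finset.card_image_of_injective _ Prod.swap_injective
    rw [← h1]
    apply PAD_pad_card Fr P hP
    intro x hx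
    obtain ⟨c, hc, rfl⟩ := Finset.mem_image.1 hx
    obtain ⟨h1, h2, h3⟩ := Finset.mem_filter.1 hc
    rcases PAD_has_cases Fr P hP (hmem c h1) with h | h | h
    · exact absurd h2 h.1
    · exact ⟨h3, h2, h.2.2.1, h.2.2.2⟩
    · exact absurd h.2.1 h3
  have h : T ⊆ (T.filter fun c => PAD_old Fr P c.1 ∧ PAD_old Fr P c.2) ∪
      ((T.filter fun c => ¬ PAD_old Fr P c.1) ∪
        (T.filter fun c => PAD_old Fr P c.1 ∧ ¬ PAD_old Fr P c.2)) := by
    intro c hc
    rw [Finset.mem_union, Finset.mem_union, Finset.mem_filter, Finset.mem_filter,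
      Finset.mem_filter]
    tauto
  have h2 := Finset.card_le_card h
  have h3 := Finset.card_union_le (T.filter fun c => PAD_old Fr P c.1 ∧ PAD_old Fr P c.2)
    ((T.filter fun c => ¬ PAD_old Fr P c.1) ∪
        (T.filter fun c => PAD_old Fr P c.1 ∧ ¬ PAD_old Fr P c.2))
  have h4 := Finset.card_union_le (T.filter fun c => ¬ PAD_old Fr P c.1)
    (T.filter fun c => PAD_old Fr P c.1 ∧ ¬ PAD_old Fr P c.2)
  have h5 : 12 * P * Fr.Γ = 6 * P * Fr.Γ + 6 * P * Fr.Γ := by ring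
  omega

/-! ### The starts of the lists -/

lemma PAD_start {n : ℕ} (w : Fin n) :
    ∑ u ∈ Finset.univ.filter (fun u => u < w), PAD_d Fr P n u = (PAD_L0 Fr P (w : ℕ)).length := by
  rw [PAD_L0_length]
  apply Finset.sum_bij (fun (u : Fin n) _ => (u : ℕ))
  · intro u hu
    exact Finset.mem_range.2 (Finset.mem_filter.1 hu).2
  · intro u _ u' _ h
    exact Fin.ext h
  · intro i hi
    rw [Finset.mem_range] at hi
    exact ⟨⟨i, hi.trans w.2⟩, Finset.mem_filter.2 ⟨Finset.mem_univ _, hi⟩, rfl⟩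
  · intro u _
    rfl

/-- the cells before the cell number `p` -/
lemma PAD_take {n : ℕ} (p : Fin (∑ v : Fin n, PAD_d Fr P n v)) :
    ∃ T : Finset (ℕ × ℕ), T.card = (p : ℕ) ∧
      ∀ c, c ∈ T ↔ c ∈ PAD_L0 Fr P n ∧ GAD_lex c (PAD_cl Fr P p) := by
  classical
  have hp : (p : ℕ) < (PAD_L0 Fr P n).length := by
    rw [PAD_L0_length_fin]
    exact p.2
  refine ⟨((PAD_L0 Fr P n).take p).toFinset, ?_, ?_⟩
  · rw [List.toFinset_card_of_nodup ((PAD_nodup Fr P n).sublist (List.take_sublist _ _)),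
      List.length_take]
    omega
  · intro c
    rw [List.mem_toFinset]
    constructor
    · intro h
      obtain ⟨i, hi, rfl⟩ := List.getElem_of_mem h
      rw [List.length_take] at hi
      refine ⟨List.mem_of_mem_take h, ?_⟩
      rw [List.getElem_take]
      exact List.pairwise_iff_getElem.1 (PAD_L0_lex Fr P n) i p _ _ (by omega)
    · rintro ⟨h1, h2⟩
      obtain ⟨i, hi, rfl⟩ := List.getElem_of_mem h1
      have h3 : i < p := by
        by_contra hc
        push Not at hc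
        rcases hc.eq_or_lt with h | h
        · subst h
          unfold GAD_lex PAD_cl at h2
          omega
        · have h4 := List.pairwise_iff_getElem.1 (PAD_L0_lex Fr P n) p i hp hi h
          unfold GAD_lex PAD_cl at h2
          unfold GAD_lex at h4
          omega
      rw [List.mem_take_iff_getElem]
      exact ⟨i, by omega, rfl⟩

lemma PAD_far (hP : 0 < P) {n : ℕ} (_hn : 6 * P + 3 * Fr.Γ ≤ n)
    (p : Fin (∑ v : Fin n, PAD_d Fr P n v))
    (o1 : PAD_old Fr P (PAD_cl Fr P p).1) (o2 : PAD_old Fr P (PAD_cl Fr P p).2) :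
    (PAD_L0 Fr P (PAD_cl Fr P p).1).length + P ≤ p ∧
      p + P + 1 ≤ (PAD_L0 Fr P ((PAD_cl Fr P p).1 + 1)).length := by
  classical
  obtain ⟨T, hT, hT'⟩ := PAD_take Fr P p
  have hm := PAD_cl_mem Fr P p
  generalize PAD_cl Fr P p = c at o1 o2 hT' hm ⊢
  obtain ⟨v, w⟩ := c
  simp only at o1 o2 hm ⊢
  have hmw := (PAD_mem_L0 Fr P).1 hm
  simp only at hmw
  have cv := PAD_col_cases Fr P hP v
  obtain ⟨c, hc, hcv⟩ : ∃ c < 3, c + 3 = PAD_col Fr P v := by
    unfold PAD_old at o1 cv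
    exact ⟨PAD_col Fr P v - 3, by omega, by omega⟩
  unfold PAD_old at o1 o2
  have i1 : ((Finset.range P).image fun j => (v, c * P + j)).card = P := by
    rw [Finset.card_image_of_injective, Finset.card_range]
    intro j j' h
    have := (Prod.mk.inj h).2
    omega
  have i2 : ((Finset.range P).image fun j => (v, 3 * P + 3 * Fr.Γ + (c * P + j))).card = P := by
    rw [Finset.card_image_of_injective, Finset.card_range]
    intro j j' h
    have := (Prod.mk.inj h).2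
    omega
  constructor
  · -- the cells of the rows before `v` and the front pads
    have h1 : (PAD_L0 Fr P v).toFinset ∪ ((Finset.range P).image fun j => (v, c * P + j)) ⊆ T := by
      intro x hx
      rw [Finset.mem_union, List.mem_toFinset, PAD_mem_L0, Finset.mem_image] at hx
      rw [hT', PAD_mem_L0]
      rcases hx with hx | ⟨j, hj, rfl⟩
      · exact ⟨⟨by omega, hx.2⟩, Or.inl hx.1⟩
      · obtain ⟨g1, g2⟩ := PAD2_col_front Fr P hP hc (Finset.mem_range.1 hj)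
        refine ⟨⟨by show v < n; omega, by show c * P + j < _; omega, Or.inr (Or.inl ?_)⟩,
          Or.inr ⟨rfl, by show c * P + j < w; omega⟩⟩
        show PAD_col Fr P (c * P + j) + 3 = PAD_col Fr P v
        omega
    have h2 : Disjoint (PAD_L0 Fr P v).toFinset
        ((Finset.range P).image fun j => (v, c * P + j)) := by
      rw [Finset.disjoint_left]
      intro x hx hx'
      rw [List.mem_toFinset, PAD_mem_L0] at hx
      obtain ⟨j, hj, rfl⟩ := Finset.mem_image.1 hx'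
      exact absurd hx.1 (lt_irrefl _)
    have h3 := Finset.card_le_card h1
    rw [Finset.card_union_of_disjoint h2, i1, List.toFinset_card_of_nodup (PAD_nodup Fr P _),
      hT] at h3
    exact h3
  · -- the cells before `(v, w)`, the cell `(v, w)`, the back pads
    have h1 : insert (v, w) T ∪
        ((Finset.range P).image fun j => (v, 3 * P + 3 * Fr.Γ + (c * P + j))) ⊆
        (PAD_L0 Fr P (v + 1)).toFinset := by
      intro x hx
      rw [Finset.mem_union, Finset.mem_insert, hT', PAD_mem_L0, Finset.mem_image] at hx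
      rw [List.mem_toFinset, PAD_mem_L0]
      rcases hx with (rfl | ⟨hx, hx'⟩) | ⟨j, hj, rfl⟩
      · exact ⟨by show v < v + 1; omega, hmw.2⟩
      · unfold GAD_lex at hx'
        simp only at hx'
        exact ⟨by omega, hx.2⟩
      · obtain ⟨g1, g2⟩ := PAD2_col_back Fr P hP hc (Finset.mem_range.1 hj)
        refine ⟨by show v < v + 1; omega,
          by show 3 * P + 3 * Fr.Γ + (c * P + j) < _; omega, Or.inr (Or.inl ?_)⟩
        show PAD_col Fr P (3 * P + 3 * Fr.Γ + (c * P + j)) + 3 = PAD_col Fr P v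
        omega
    have h2 : Disjoint (insert (v, w) T)
        ((Finset.range P).image fun j => (v, 3 * P + 3 * Fr.Γ + (c * P + j))) := by
      rw [Finset.disjoint_left]
      intro x hx hx'
      obtain ⟨j, hj, rfl⟩ := Finset.mem_image.1 hx'
      rw [Finset.mem_insert, hT'] at hx
      rcases hx with hx | ⟨-, hx⟩
      · have := (Prod.mk.inj hx).2
        omega
      · unfold GAD_lex at hx
        simp only at hx
        omega
    have h4 : (v, w) ∉ T := by
      rw [hT']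
      rintro ⟨-, h⟩
      unfold GAD_lex at h
      omega
    have h3 := Finset.card_le_card h1
    rw [Finset.card_union_of_disjoint h2, i2, Finset.card_insert_of_notMem h4,
      List.toFinset_card_of_nodup (PAD_nodup Fr P _), hT] at h3
    omega

end Pad2

theorem m_PAD2 : S_PAD2 := by
  intro hS K E Fr P hlen
  have hP : 0 < P := by omega
  refine ⟨(PAD_L0 Fr P (6 * P + 3 * Fr.Γ)).length, PAD_sum_le Fr P hP, ?_⟩
  intro n hn
  have hS' := hS K E Fr P hP n hn
  refine ⟨PAD_d Fr P n, PAD_Lay Fr P hP hn fun F => (hS' F).2.1, PAD_G Fr P n, rfl, rfl, ?_,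
    fun F => (hS' F).1, fun F => rfl, fun F => (hS' F).2.2, ?_⟩
  · rw [← PAD_L0_length_fin, PAD_L0_length, PAD_L0_length]
    symm
    apply Finset.sum_subset
    · exact Finset.range_subset_range.2 hn
    · intro u _ hu
      rw [Finset.mem_range, not_lt] at hu
      rw [PAD_gl_nil Fr P hP hu]
      rfl
  · rintro a ⟨x, rfl⟩ p h1 h2
    rw [PAD_start] at h1 h2
    have h1 : (p : ℕ) ≤ (PAD_L0 Fr P (x : ℕ)).length + Fr.len := h1
    have h2 : (PAD_L0 Fr P (x : ℕ)).length ≤ p + Fr.len := h2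
    show PAD_adr Fr P (PAD_cl Fr P p) = none
    by_contra hne
    obtain ⟨o1, o2⟩ := PAD_adr_old Fr P hne
    obtain ⟨f1, f2⟩ := PAD_far Fr P hP hn p o1 o2
    rcases le_or_gt (x : ℕ) (PAD_cl Fr P p).1 with h | h
    · have := PAD_L0_mono Fr P h
      omega
    · have := PAD_L0_mono Fr P (show (PAD_cl Fr P p).1 + 1 ≤ (x : ℕ) from h)
      omega

end Pool.Agent.HLL
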