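import Mathlib
import Pool.Agent.HDL.Defs

/-!
# Randomised machines with several heads on linked adjacency lists

The machines of `Pool.Agent.HDL.Defs`, with a smaller cost of the steps: going to the old place of
another head is free, and with random access to the lists (`ra = true`) also going to the start of any
list (and so to its end, the cell before the start of the next list). Moving by `D` cells from such a
place costs `f D`.
-/

open MeasureTheory Pool.Agent.HDL

namespace Pool.Agent.HLL

/-- The places to which the heads may always go for free: none if `ra = false`; the starts of the lists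
if `ra = true` (random access to the lists). The list of `w` begins with cell number `∑ u < w, d u`. -/
def places {n : ℕ} (ra : Bool) (d : Fin n → ℕ) : Set ℕ :=
  {a | ra = true ∧ ∃ w : Fin n, a = ∑ u ∈ Finset.univ.filter (fun u => u < w), d u}

/-- Every head is in the configuration `c'` at most `D` cells away from the place of some head in the
configuration `c` or from a place in `A`. -/
def Within {L k : ℕ} {Q : Type} (A : Set ℕ) (D : ℕ) (c c' : Conf L k Q) : Prop :=
  ∀ h, (∃ h', (c'.2 h : ℕ) ≤ c.2 h' + D ∧ (c.2 h' : ℕ) ≤ c'.2 h + D) ∨
    ∃ a ∈ A, (c'.2 h : ℕ) ≤ a + D ∧ a ≤ c'.2 h + D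

/-- The distance travelled from `c` to `c'`: the least `D ≥ 1` such that every head comes at most `D`
cells away from the old place of some head or from a place in `A`. -/
noncomputable def travel {L k : ℕ} {Q : Type} (A : Set ℕ) (c c' : Conf L k Q) : ℕ :=
  sInf {D | 1 ≤ D ∧ Within A D c c'}

/-- The cost of step `t` when travelling the distance `D` costs `f D`: nothing if the machine has
answered before. -/
noncomputable def cost {L k : ℕ} {W Q Ω : Type} (M : Machine L k W Q Ω) (A : Set ℕ) (f : ℕ → ℝ)
    (ω : Ω) (tape : Fin L → W) (t : ℕ) : ℝ :=
  if (M.answer (M.run ω tape t)).isSome then 0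
  else f (travel A (M.run ω tape t) (M.run ω tape (t + 1)))

/-- The expected cost of `M` is at most `T` on every graph with degrees `d`: the expected cost of the
steps before time `m` is at most `T` for every `m`. -/
def ExpectedCostLE {n : ℕ} {d : Fin n → ℕ} {k : ℕ} {Q Ω : Type} [MeasurableSpace Ω]
    (M : LMachine d k Q Ω) (μ : Measure Ω) (ra : Bool) (f : ℕ → ℝ) (T : ℝ) : Prop :=
  ∀ G : SimpleGraph (Fin n), HasDegrees G d → ∀ m : ℕ,
    ∑ t ∈ Finset.range m, ∫ ω, cost M (places ra d) f ω (tape d G) t ∂μ ≤ T

end Pool.Agent.HLL
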