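import Mathlib
import Pool.Agent.HLL.Defs

/-!
# First lemmas
-/

open MeasureTheory Pool.Agent.HDL

namespace Pool.Agent.HLL

/-- The starts of the lists: the list of `w` begins with cell number `∑ u < w, d u`. -/
def starts {n : ℕ} (d : Fin n → ℕ) : Set ℕ :=
  {a | ∃ w : Fin n, a = ∑ u ∈ Finset.univ.filter (fun u => u < w), d u}

lemma places_true {n : ℕ} (d : Fin n → ℕ) : places true d = starts d := by
  ext a
  unfold places starts
  simp

lemma places_false {n : ℕ} (d : Fin n → ℕ) : places false d = ∅ := by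
  ext a
  unfold places
  simp

/-- The expected cost of `M` is at most `T` on every graph with degrees `d`, going to the places in `A`
being free. -/
def CostLE {n : ℕ} {d : Fin n → ℕ} {k : ℕ} {Q Ω : Type} [MeasurableSpace Ω]
    (M : LMachine d k Q Ω) (μ : Measure Ω) (A : Set ℕ) (f : ℕ → ℝ) (T : ℝ) : Prop :=
  ∀ G : SimpleGraph (Fin n), HasDegrees G d → ∀ m : ℕ,
    ∑ t ∈ Finset.range m, ∫ ω, cost M A f ω (tape d G) t ∂μ ≤ T

lemma travel_spec {L k : ℕ} {Q : Type} (A : Set ℕ) (c c' : Conf L k Q) :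
    1 ≤ travel A c c' ∧ Within A (travel A c c') c c' := by
  have hne : {D | 1 ≤ D ∧ Within A D c c'}.Nonempty := by
    refine ⟨L + 1, by omega, fun h => Or.inl ⟨h, ?_, ?_⟩⟩
    · have := (c'.2 h).2
      omega
    · have := (c.2 h).2
      omega
  exact Nat.sInf_mem hne

end Pool.Agent.HLL
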