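import Mathlib
import Pool.Agent.HDL.Lay
import Pool.Agent.HLL.Base
import Pool.Agent.Lib_helper21.UT.TwoParty

/-!
# Simulation of a machine by two players
-/

set_option linter.unusedSectionVars false

namespace Pool.Agent.HLL

open Finset
open Pool.Agent.UT (stp rn)
open Pool.Agent.HDL (Machine Conf Lay Dat)

section Runs

variable {Lt k : ℕ} {W Q Ω : Type} (M : Machine Lt k W Q Ω) (ω : Ω) (G : Fin Lt → W)

lemma run_stable {t t' : ℕ} (h : t ≤ t') (hs : (M.answer (M.run ω G t)).isSome) :
    M.run ω G t' = M.run ω G t := by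
  induction t', h using Nat.le_induction with
  | base => rfl
  | succ t' _ ih =>
    show (if (M.answer (M.run ω G t')).isSome then M.run ω G t' else _) = _
    rw [ih, if_pos hs]

lemma ans_none {t t' : ℕ} (h : t ≤ t') (hs : M.answer (M.run ω G t') = none) :
    M.answer (M.run ω G t) = none := by
  by_contra hcon
  have h1 : (M.answer (M.run ω G t)).isSome := Option.ne_none_iff_isSome.1 hcon
  rw [run_stable M ω G h h1] at hs
  exact hcon hs

lemma ans_some {t t' : ℕ} {b b' : Bool} (hs : M.answer (M.run ω G t) = some b)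
    (hs' : M.answer (M.run ω G t') = some b') : b = b' := by
  rcases le_total t t' with h | h
  · have := run_stable M ω G h (by rw [hs]; rfl)
    rw [this, hs] at hs'
    exact Option.some.inj hs'
  · have := run_stable M ω G h (by rw [hs']; rfl)
    rw [this, hs'] at hs
    exact (Option.some.inj hs).symm

lemma run_succ {t : ℕ} (h : M.answer (M.run ω G t) = none) :
    M.run ω G (t + 1) = M.step ω t (M.run ω G t) (fun i => G ((M.run ω G t).2 i)) := by
  show (if (M.answer (M.run ω G t)).isSome then M.run ω G t else _) = _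
  rw [h]
  rfl

/-- distance travelled in step `t` -/
noncomputable def mv (A : Set ℕ) (t : ℕ) : ℕ := travel A (M.run ω G t) (M.run ω G (t + 1))

lemma one_le_mv (A : Set ℕ) (t : ℕ) : 1 ≤ mv M ω G A t := (travel_spec A _ _).1

/-- distance travelled since the last cut: a cut is made when the distance `Lw` is reached -/
noncomputable def ageT (A : Set ℕ) (Lw : ℕ) : ℕ → ℕ
  | 0 => 0
  | t + 1 => if Lw ≤ ageT A Lw t + mv M ω G A t then 0 else ageT A Lw t + mv M ω G A t

/-- time of the last cut -/
noncomputable def cutT (A : Set ℕ) (Lw : ℕ) : ℕ → ℕ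
  | 0 => 0
  | t + 1 => if Lw ≤ ageT M ω G A Lw t + mv M ω G A t then t + 1 else cutT A Lw t

lemma ageT_lt (A : Set ℕ) {Lw : ℕ} (h : 0 < Lw) (t : ℕ) : ageT M ω G A Lw t < Lw := by
  cases t with
  | zero => exact h
  | succ t =>
    unfold ageT
    split_ifs <;> omega

/-- the heads have not moved far since the last cut -/
lemma path_age (A : Set ℕ) (Lw : ℕ) (t : ℕ) :
    Within A (ageT M ω G A Lw t) (M.run ω G (cutT M ω G A Lw t)) (M.run ω G t) := by
  induction t with
  | zero => exact fun i => Or.inl ⟨i, le_rfl, le_rfl⟩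
  | succ t ih =>
    have hc : cutT M ω G A Lw (t + 1) =
      if Lw ≤ ageT M ω G A Lw t + mv M ω G A t then t + 1 else cutT M ω G A Lw t := rfl
    have ha : ageT M ω G A Lw (t + 1) =
      if Lw ≤ ageT M ω G A Lw t + mv M ω G A t then 0 else ageT M ω G A Lw t + mv M ω G A t := rfl
    rw [hc, ha]
    split_ifs with h
    · exact fun i => Or.inl ⟨i, le_rfl, le_rfl⟩
    · intro i
      rcases (travel_spec A (M.run ω G t) (M.run ω G (t + 1))).2 i with ⟨i', h1, h2⟩ | ⟨a, ha, h1, h2⟩
      · have e : travel A (M.run ω G t) (M.run ω G (t + 1)) = mv M ω G A t := rfl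
        rw [e] at h1 h2
        rcases ih i' with ⟨i'', h3, h4⟩ | ⟨a, ha, h3, h4⟩
        · exact Or.inl ⟨i'', by omega, by omega⟩
        · exact Or.inr ⟨a, ha, by omega, by omega⟩
      · have e : travel A (M.run ω G t) (M.run ω G (t + 1)) = mv M ω G A t := rfl
        rw [e] at h1 h2
        exact Or.inr ⟨a, ha, by omega, by omega⟩

/-- the heads have not moved far since the last cut -/
lemma path (A : Set ℕ) {Lw : ℕ} (hLw : 0 < Lw) (t : ℕ) :
    Within A Lw (M.run ω G (cutT M ω G A Lw t)) (M.run ω G t) := by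
  have h2 := ageT_lt M ω G A hLw t
  intro i
  rcases path_age M ω G A Lw t i with ⟨i', h3, h4⟩ | ⟨a, ha, h3, h4⟩
  · exact Or.inl ⟨i', by omega, by omega⟩
  · exact Or.inr ⟨a, ha, by omega, by omega⟩

end Runs

section Sim

variable {Lt k : ℕ} {W K E C Q Ω : Type} [DecidableEq K] (M : Machine Lt k W Q Ω) (ω : Ω)
  (A : Set ℕ) (L : Lay Lt W K E C) (H : ℕ)

/-- no data near the places in `A` -/
def Padded : Prop :=
  ∀ a ∈ A, ∀ p : Fin Lt, (p : ℕ) ≤ a + L.len → a ≤ p + L.len → L.adr p = none

/-- some head is near a cell that shows a bit of the second player for the core `κ` -/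
def near (κ : K) (c : Conf Lt k Q) : Prop :=
  ∃ h p e, L.adr p = some (κ, e, true) ∧ (p : ℕ) ≤ c.2 h + L.len ∧ (c.2 h : ℕ) ≤ p + L.len

/-- bits of the first player stored for the second player: the positions of the heads and the bits
shown near them -/
abbrev Bits (k : ℕ) : Type := (Fin k → Fin Lt) × (Fin k → Fin (3 * L.b0) → Bool)

/-- states of the simulation: time, configuration, distance since the last cut, and mode (`none`: cut,
`some none`: first player, `some (some b)`: second player, who knows the bits `b`) -/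
abbrev St (k : ℕ) (Q : Type) : Type :=
  Fin (H + 1) × Conf Lt k Q × Fin (L.len + 1) × Option (Option (Bits L k))

variable {L H}

open Classical in
/-- a head of the last cut near the cell `p` -/
noncomputable def wh (L : Lay Lt W K E C) (b : Bits L k) (h : Fin k) (p : Fin Lt) : Fin k :=
  if hh : ∃ h', (p : ℕ) ≤ b.1 h' + L.len ∧ (b.1 h' : ℕ) ≤ p + L.len then hh.choose else h

lemma wh_spec (L : Lay Lt W K E C) (b : Bits L k) (h : Fin k) (p : Fin Lt)
    (hh : ∃ h', (p : ℕ) ≤ b.1 h' + L.len ∧ (b.1 h' : ℕ) ≤ p + L.len) :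
    (p : ℕ) ≤ b.1 (wh L b h p) + L.len ∧ (b.1 (wh L b h p) : ℕ) ≤ p + L.len := by
  unfold wh
  rw [dif_pos hh]
  exact hh.choose_spec

/-- one machine step -/
noncomputable def adv (s : St L H k Q) (c' : Conf Lt k Q) (md : Option (Option (Bits L k))) :
    St L H k Q :=
  if L.len ≤ (s.2.2.1 : ℕ) + travel A s.2.1 c' then
    (⟨min (s.1 + 1) H, by omega⟩, c', 0, none)
  else (⟨min (s.1 + 1) H, by omega⟩, c', ⟨min (s.2.2.1 + travel A s.2.1 c') L.len, by omega⟩, md)

/-- the simulation is finished -/
def fin (s : St L H k Q) : Prop := (M.answer s.2.1).isSome ∨ H ≤ (s.1 : ℕ)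

/-- the zero data -/
def zz : E → Bool := fun _ => false

/-- data with the core `κ` replaced -/
def dat (F : Dat K E) (κ : K) (x y : E → Bool) : Dat K E := Function.update F κ (x, y)

/-- what the first player sees -/
def viewA (L : Lay Lt W K E C) (F : Dat K E) (κ : K) (x : E → Bool) (c : Conf Lt k Q) :
    Fin k → W :=
  fun h => L.cont (dat F κ x zz) (c.2 h)

/-- what the second player sees -/
noncomputable def viewB (L : Lay Lt W K E C) (F : Dat K E) (κ : K) (y : E → Bool) (b : Bits L k)
    (c : Conf Lt k Q) : Fin k → W :=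
  fun h => L.cont (dat F κ (fun _ => b.2 (wh L b h (c.2 h))
    (L.en κ (b.1 (wh L b h (c.2 h))) (c.2 h))) y) (c.2 h)

open Classical in
/-- the bits the first player tells the second one -/
noncomputable def bits (L : Lay Lt W K E C) (κ : K) (x : E → Bool) (c : Conf Lt k Q) : Bits L k :=
  (c.2, fun h i => decide (∃ p e, p ∈ L.bset κ (c.2 h) ∧ L.adr p = some (κ, e, false) ∧
    L.en κ (c.2 h) p = i ∧ x e = true))

lemma bits_spec (κ : K) (x : E → Bool) (c : Conf Lt k Q) (h : Fin k) (p : Fin Lt) (e : E)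
    (h1 : (p : ℕ) ≤ c.2 h + L.len) (h2 : (c.2 h : ℕ) ≤ p + L.len)
    (h3 : L.adr p = some (κ, e, false)) :
    (bits L κ x c).2 h (L.en κ ((bits L κ x c).1 h) p) = x e := by
  have hp : p ∈ L.bset κ (c.2 h) := by
    classical
    unfold Lay.bset
    exact Finset.mem_filter.2 ⟨Finset.mem_univ _, ⟨h1, h2⟩, e, h3⟩
  have key : (bits L κ x c).2 h (L.en κ ((bits L κ x c).1 h) p) = true ↔ x e = true := by
    unfold bits
    simp only [decide_eq_true_eq]
    constructor
    · rintro ⟨p', e', hp', ha', hen, hx⟩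
      have h4 : p' = p := L.en_inj κ (c.2 h) hp' hp hen
      rw [h4, h3] at ha'
      simp only [Option.some.injEq, Prod.mk.injEq, true_and, and_true] at ha'
      rw [ha']
      exact hx
    · intro hx
      exact ⟨p, e, hp, h3, rfl, hx⟩
  cases hx : x e
  · cases hb : (bits L κ x c).2 h (L.en κ ((bits L κ x c).1 h) p)
    · rfl
    · rw [hb, hx] at key
      exact absurd (key.1 rfl) (by decide)
  · rw [hx] at key
    exact key.2 rfl

open Classical in
/-- a step of the first player -/
noncomputable def sA (F : Dat K E) (κ : K) (x : E → Bool) (s : St L H k Q) : St L H k Q :=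
  if fin M s then s
  else if s.2.2.2 = none then
    (if near L κ s.2.1 then (s.1, s.2.1, s.2.2.1, some (some (bits L κ x s.2.1)))
      else (s.1, s.2.1, s.2.2.1, some none))
  else adv A s (M.step ω s.1 s.2.1 (viewA L F κ x s.2.1)) (some none)

/-- a step of the second player -/
noncomputable def sB (F : Dat K E) (κ : K) (y : E → Bool) (s : St L H k Q) : St L H k Q :=
  match s.2.2.2 with
  | some (some b) => adv A s (M.step ω s.1 s.2.1 (viewB L F κ y b s.2.1)) (some (some b))
  | _ => s

/-- the states in which the second player acts -/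
def inB (s : St L H k Q) : Prop := ¬ fin M s ∧ ∃ b, s.2.2.2 = some (some b)

/-- the initial state -/
def s0 : St L H k Q := (0, M.start ω, 0, none)

/-- invariant of the simulation -/
structure Inv (F : Dat K E) (κ : K) (x y : E → Bool) (s : St L H k Q) : Prop where
  conf : s.2.1 = M.run ω (L.cont (dat F κ x y)) s.1
  age : (s.2.2.1 : ℕ) = ageT M ω (L.cont (dat F κ x y)) A L.len s.1
  cut : s.2.2.2 = none → (s.2.2.1 : ℕ) = 0 ∧ cutT M ω (L.cont (dat F κ x y)) A L.len s.1 = s.1
  alice : s.2.2.2 = some none → ¬ near L κ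
    (M.run ω (L.cont (dat F κ x y)) (cutT M ω (L.cont (dat F κ x y)) A L.len s.1))
  bob : ∀ b, s.2.2.2 = some (some b) → b = bits L κ x
    (M.run ω (L.cont (dat F κ x y)) (cutT M ω (L.cont (dat F κ x y)) A L.len s.1))

lemma inv_s0 (F : Dat K E) (κ : K) (x y : E → Bool) :
    Inv M ω A F κ x y (s0 M ω : St L H k Q) where
  conf := rfl
  age := rfl
  cut := fun _ => ⟨rfl, rfl⟩
  alice := fun h => by simp [s0] at h
  bob := fun b h => by simp [s0] at h

lemma dat_ne (F : Dat K E) {κ κ' : K} (x y : E → Bool) (h : κ' ≠ κ) :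
    dat F κ x y κ' = F κ' := Function.update_of_ne h _ _

lemma dat_eq (F : Dat K E) (κ : K) (x y : E → Bool) : dat F κ x y κ = (x, y) :=
  Function.update_self _ _ _

variable {M ω A}

lemma viewA_eq (hP : Padded A L) {F : Dat K E} {κ : K} {x y : E → Bool} {s : St L H k Q}
    (hI : Inv M ω A F κ x y s) (hm : s.2.2.2 = some none) :
    viewA L F κ x s.2.1 = fun h => L.cont (dat F κ x y) (s.2.1.2 h) := by
  funext h
  unfold viewA
  apply L.congr
  · intro κ' e _
    by_cases hne : κ' = κ
    · subst hne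
      rw [dat_eq, dat_eq]
    · rw [dat_ne F x _ hne, dat_ne F x _ hne]
  · intro κ' e he
    by_cases hne : κ' = κ
    · exfalso
      subst hne
      apply hI.alice hm
      have h1 := path M ω (L.cont (dat F κ' x y)) A L.hlen s.1 h
      rw [← hI.conf] at h1
      rcases h1 with ⟨h', h1, h2⟩ | ⟨a, ha, h1, h2⟩
      · exact ⟨h', s.2.1.2 h, e, he, h1, h2⟩
      · rw [hP a ha _ h1 h2] at he
        exact absurd he (by simp)
    · rw [dat_ne F x _ hne, dat_ne F x _ hne]

lemma viewB_eq (hP : Padded A L) {F : Dat K E} {κ : K} {x y : E → Bool} {s : St L H k Q}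
    (hI : Inv M ω A F κ x y s) {b : Bits L k} (hm : s.2.2.2 = some (some b)) :
    viewB L F κ y b s.2.1 = fun h => L.cont (dat F κ x y) (s.2.1.2 h) := by
  funext h
  unfold viewB
  apply L.congr
  · intro κ' e he
    by_cases hne : κ' = κ
    · subst hne
      rw [dat_eq, dat_eq]
      simp only
      have h1 := path M ω (L.cont (dat F κ' x y)) A L.hlen s.1 h
      rw [← hI.conf] at h1
      rcases h1 with ⟨h', h1, h2⟩ | ⟨a, ha, h1, h2⟩
      · have h3 := wh_spec L b h (s.2.1.2 h) ⟨h', by rw [hI.bob b hm]; exact ⟨h1, h2⟩⟩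
        generalize wh L b h (s.2.1.2 h) = i at h3
        rw [hI.bob b hm] at h3 ⊢
        exact bits_spec κ' x _ i _ e h3.1 h3.2 he
      · rw [hP a ha _ h1 h2] at he
        exact absurd he (by simp)
    · rw [dat_ne F _ _ hne, dat_ne F _ _ hne]
  · intro κ' e _
    by_cases hne : κ' = κ
    · subst hne
      rw [dat_eq, dat_eq]
    · rw [dat_ne F _ _ hne, dat_ne F _ _ hne]

lemma adv_inv {F : Dat K E} {κ : K} {x y : E → Bool} {s : St L H k Q}
    (hI : Inv M ω A F κ x y s) (hH : (s.1 : ℕ) < H) {md : Option (Bits L k)}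
    (hm : s.2.2.2 = some md) {c' : Conf Lt k Q}
    (hc' : c' = M.run ω (L.cont (dat F κ x y)) (s.1 + 1)) :
    Inv M ω A F κ x y (adv A s c' (some md)) := by
  have ht : min ((s.1 : ℕ) + 1) H = s.1 + 1 := by omega
  have hmv : mv M ω (L.cont (dat F κ x y)) A s.1 = travel A s.2.1 c' := by
    unfold mv
    rw [hI.conf, hc']
  have hstep : ageT M ω (L.cont (dat F κ x y)) A L.len (s.1 + 1) =
      if L.len ≤ (s.2.2.1 : ℕ) + travel A s.2.1 c' then 0
      else (s.2.2.1 : ℕ) + travel A s.2.1 c' := by
    rw [hI.age, ← hmv]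
    rfl
  have hcut : cutT M ω (L.cont (dat F κ x y)) A L.len (s.1 + 1) =
      if L.len ≤ (s.2.2.1 : ℕ) + travel A s.2.1 c' then (s.1 : ℕ) + 1
      else cutT M ω (L.cont (dat F κ x y)) A L.len s.1 := by
    rw [hI.age, ← hmv]
    rfl
  unfold adv
  split_ifs with h
  · rw [if_pos h] at hstep hcut
    refine ⟨?_, ?_, fun _ => ⟨rfl, ?_⟩, fun h => by simp at h, fun b h => by simp at h⟩
    · simp only [ht]
      exact hc'
    · simp only [ht]
      rw [hstep]
      rfl
    · simp only [ht]
      exact hcut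
  · rw [if_neg h] at hstep hcut
    push Not at h
    have h2 : min ((s.2.2.1 : ℕ) + travel A s.2.1 c') L.len = s.2.2.1 + travel A s.2.1 c' := by omega
    refine ⟨?_, ?_, fun h => by simp at h, ?_, ?_⟩
    · simp only [ht]
      exact hc'
    · simp only [ht, h2]
      rw [hstep]
    · intro h4
      simp only [ht] at h4 ⊢
      rw [hcut]
      apply hI.alice
      rw [hm]
      exact h4
    · intro b h4
      simp only [ht] at h4 ⊢
      rw [hcut]
      apply hI.bob
      rw [hm]
      exact h4

lemma not_fin {s : St L H k Q} (h : ¬ fin M s) : M.answer s.2.1 = none ∧ (s.1 : ℕ) < H := by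
  unfold fin at h
  push Not at h
  refine ⟨?_, h.2⟩
  have := h.1
  rcases ha : M.answer s.2.1 with _ | b
  · rfl
  · rw [ha] at this
    exact absurd rfl this

open Classical in
lemma stp_fin {F : Dat K E} {κ : K} {x y : E → Bool} {s : St L H k Q} (h : fin M s) :
    stp (inB M) (sA M ω A F κ) (sB M ω A F κ) x y s = s := by
  unfold stp
  rw [if_neg (fun h' => h'.1 h)]
  unfold sA
  rw [if_pos h]

open Classical in
lemma stp_cut {F : Dat K E} {κ : K} {x y : E → Bool} {s : St L H k Q} (h : ¬ fin M s)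
    (hm : s.2.2.2 = none) :
    stp (inB M) (sA M ω A F κ) (sB M ω A F κ) x y s =
      (if near L κ s.2.1 then (s.1, s.2.1, s.2.2.1, some (some (bits L κ x s.2.1)))
      else (s.1, s.2.1, s.2.2.1, some none)) := by
  unfold stp
  rw [if_neg (fun h' => by obtain ⟨_, b, hb⟩ := h'; rw [hm] at hb; exact absurd hb (by simp))]
  unfold sA
  rw [if_neg h, if_pos hm]

open Classical in
lemma stp_alice {F : Dat K E} {κ : K} {x y : E → Bool} {s : St L H k Q}
    (h : ¬ fin M s) (hm : s.2.2.2 = some none) :
    stp (inB M) (sA M ω A F κ) (sB M ω A F κ) x y s =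
      adv A s (M.step ω s.1 s.2.1 (viewA L F κ x s.2.1)) (some none) := by
  unfold stp
  rw [if_neg (fun h' => by obtain ⟨_, b, hb⟩ := h'; rw [hm] at hb; exact absurd hb (by simp))]
  unfold sA
  rw [if_neg h, if_neg (by rw [hm]; simp)]

open Classical in
lemma stp_bob {F : Dat K E} {κ : K} {x y : E → Bool} {s : St L H k Q}
    (h : ¬ fin M s) {b : Bits L k} (hm : s.2.2.2 = some (some b)) :
    stp (inB M) (sA M ω A F κ) (sB M ω A F κ) x y s =
      adv A s (M.step ω s.1 s.2.1 (viewB L F κ y b s.2.1)) (some (some b)) := by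
  unfold stp
  rw [if_pos ⟨h, b, hm⟩]
  unfold sB
  rw [hm]

open Classical in
lemma inv_step (hP : Padded A L) {F : Dat K E} {κ : K} {x y : E → Bool} {s : St L H k Q}
    (hI : Inv M ω A F κ x y s) :
    Inv M ω A F κ x y (stp (inB M) (sA M ω A F κ) (sB M ω A F κ) x y s) := by
  by_cases hf : fin M s
  · rw [stp_fin hf]
    exact hI
  obtain ⟨hans, hH⟩ := not_fin hf
  rcases hm : s.2.2.2 with _ | _ | b
  · rw [stp_cut hf hm]
    have h0 := (hI.cut hm).2
    split_ifs with hnear
    · refine ⟨hI.conf, hI.age, fun h => by simp at h, fun h => by simp at h, ?_⟩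
      intro b hb
      simp only [Option.some.injEq] at hb
      rw [← hb]
      simp only
      rw [h0, ← hI.conf]
    · refine ⟨hI.conf, hI.age, fun h => by simp at h, ?_, fun b h => by simp at h⟩
      intro _
      simp only
      rw [h0, ← hI.conf]
      exact hnear
  · rw [stp_alice hf hm]
    apply adv_inv hI hH hm
    rw [viewA_eq hP hI hm, hI.conf, run_succ]
    rw [← hI.conf]
    exact hans
  · rw [stp_bob hf hm]
    apply adv_inv hI hH hm
    rw [viewB_eq hP hI hm, hI.conf, run_succ]
    rw [← hI.conf]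
    exact hans

open Classical in
lemma inv_rn (hP : Padded A L) (F : Dat K E) (κ : K) (x y : E → Bool) (m : ℕ) :
    Inv M ω A F κ x y (rn (inB M) (sA M ω A F κ) (sB M ω A F κ) (s0 M ω : St L H k Q) x y m) := by
  induction m with
  | zero => exact inv_s0 M ω A F κ x y
  | succ m ih =>
    rw [rn, Function.iterate_succ_apply']
    exact inv_step hP ih

end Sim

end Pool.Agent.HLL
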