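import Mathlib
import Pool.Agent.HLL.Sim

/-!
# The length of the simulation and the number of phases of the second player
-/

set_option linter.unusedSectionVars false

namespace Pool.Agent.HLL

open Finset

open Pool.Agent.UT (stp rn ent Tr Tr_iff endS endS_sound endS_complete)
open Pool.Agent.HDL (Machine Conf Lay Dat tp)

variable {Lt k : ℕ} {W K E C Q Ω : Type} [DecidableEq K] {M : Machine Lt k W Q Ω} {ω : Ω}
  {A : Set ℕ} {L : Lay Lt W K E C} {H : ℕ}

/-- progress measure -/
def phi (s : St L H k Q) : ℕ := 2 * s.1 + (if s.2.2.2 = none then 0 else 1)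

lemma phi_adv {s : St L H k Q} (hH : (s.1 : ℕ) < H) (c' : Conf Lt k Q)
    (md : Option (Option (Bits L k))) : 2 * (s.1 : ℕ) + 2 ≤ phi (adv A s c' md) := by
  have ht : min ((s.1 : ℕ) + 1) H = s.1 + 1 := by omega
  unfold adv phi
  split_ifs <;> simp only [ht] <;> omega

lemma phi_le (s : St L H k Q) : phi s ≤ 2 * s.1 + 1 := by
  unfold phi
  split_ifs <;> omega

open Classical in
lemma phi_step {F : Dat K E} {κ : K} {x y : E → Bool} {s : St L H k Q} (hf : ¬ fin M s) :
    phi s + 1 ≤ phi (stp (inB M) (sA M ω A F κ) (sB M ω A F κ) x y s) := by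
  obtain ⟨hans, hH⟩ := not_fin hf
  rcases hm : s.2.2.2 with _ | _ | b
  · rw [stp_cut hf hm]
    unfold phi
    rw [hm]
    split_ifs <;> simp_all
  · rw [stp_alice hf hm]
    have h1 := phi_adv (A := A) hH (M.step ω s.1 s.2.1 (viewA L F κ x s.2.1)) (some none)
    have h2 := phi_le s
    omega
  · rw [stp_bob hf hm]
    have h1 := phi_adv (A := A) hH (M.step ω s.1 s.2.1 (viewB L F κ y b s.2.1)) (some (some b))
    have h2 := phi_le s
    omega

section

variable (M ω A H L)

open Classical in
/-- the simulation -/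
noncomputable def sim (F : Dat K E) (κ : K) (x y : E → Bool) (m : ℕ) : St L H k Q :=
  rn (inB M) (sA M ω A F κ) (sB M ω A F κ) (s0 M ω : St L H k Q) x y m

end

open Classical in
lemma sim_succ (F : Dat K E) (κ : K) (x y : E → Bool) (m : ℕ) :
    sim M ω A L H F κ x y (m + 1) =
      stp (inB M) (sA M ω A F κ) (sB M ω A F κ) x y (sim M ω A L H F κ x y m) := by
  unfold sim rn
  rw [Function.iterate_succ_apply']

lemma inv_sim (hP : Padded A L) (F : Dat K E) (κ : K) (x y : E → Bool) (m : ℕ) :
    Inv M ω A F κ x y (sim M ω A L H F κ x y m) := inv_rn hP F κ x y m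

lemma fin_succ {F : Dat K E} {κ : K} {x y : E → Bool} {m : ℕ}
    (h : fin M (sim M ω A L H F κ x y m)) : sim M ω A L H F κ x y (m + 1) = sim M ω A L H F κ x y m := by
  rw [sim_succ, stp_fin h]

lemma fin_later {F : Dat K E} {κ : K} {x y : E → Bool} {m m' : ℕ} (hm : m ≤ m')
    (h : fin M (sim M ω A L H F κ x y m)) : fin M (sim M ω A L H F κ x y m') := by
  induction m', hm using Nat.le_induction with
  | base => exact h
  | succ m' _ ih =>
    rw [fin_succ ih]
    exact ih

lemma phi_sim {F : Dat K E} {κ : K} {x y : E → Bool} {m d : ℕ}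
    (h : ¬ fin M (sim M ω A L H F κ x y (m + d))) :
    phi (sim M ω A L H F κ x y m) + d ≤ phi (sim M ω A L H F κ x y (m + d)) := by
  induction d with
  | zero => exact le_rfl
  | succ d ih =>
    have h1 : ¬ fin M (sim M ω A L H F κ x y (m + d)) := fun h' => h (fin_later (by omega) h')
    have h2 := ih h1
    have h3 := phi_step (A := A) (L := L) (ω := ω) (F := F) (κ := κ) (x := x) (y := y) h1
    have h4 : m + (d + 1) = m + d + 1 := by omega
    rw [h4, sim_succ]
    omega

/-- the simulation is finished at time `2 * H` -/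
lemma fin_end (F : Dat K E) (κ : K) (x y : E → Bool) :
    fin M (sim M ω A L H F κ x y (2 * H)) := by
  by_contra hcon
  have h1 := phi_sim (m := 0) (d := 2 * H) (by rw [zero_add]; exact hcon)
  rw [zero_add] at h1
  have h2 := phi_le (sim M ω A L H F κ x y (2 * H))
  have h3 := (not_fin hcon).2
  omega

open Classical in
/-- the cuts near the core `κ` -/
noncomputable def cutsN (M : Machine Lt k W Q Ω) (ω : Ω) (A : Set ℕ) (L : Lay Lt W K E C) (H : ℕ) (F : Dat K E)
    (κ : K) : ℕ :=
  ((Finset.range H).filter fun t => M.answer (M.run ω (L.cont F) t) = none ∧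
    ageT M ω (L.cont F) A L.len t = 0 ∧ near L κ (M.run ω (L.cont F) t)).card

open Classical in
lemma entry_spec {F : Dat K E} {κ : K} {x y : E → Bool} {i : ℕ}
    (h1 : ¬ inB M (sim M ω A L H F κ x y i)) (h2 : inB M (sim M ω A L H F κ x y (i + 1))) :
    ¬ fin M (sim M ω A L H F κ x y i) ∧ (sim M ω A L H F κ x y i).2.2.2 = none ∧
      near L κ (sim M ω A L H F κ x y i).2.1 := by
  set s := sim M ω A L H F κ x y i with hs
  have hf : ¬ fin M s := by
    intro hf
    rw [fin_succ hf] at h2
    exact h1 h2
  refine ⟨hf, ?_⟩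
  rw [sim_succ, ← hs] at h2
  obtain ⟨_, b, hb⟩ := h2
  rcases hm : s.2.2.2 with _ | _ | b'
  · refine ⟨rfl, ?_⟩
    rw [stp_cut hf hm] at hb
    by_contra hnear
    rw [if_neg hnear] at hb
    simp at hb
  · exfalso
    rw [stp_alice hf hm] at hb
    unfold adv at hb
    split_ifs at hb <;> simp at hb
  · exact absurd ⟨hf, b', hm⟩ h1

open Classical in
lemma ent_le (hP : Padded A L) (F : Dat K E) (κ : K) (x y : E → Bool) (m : ℕ) :
    ent (inB M) (sA M ω A F κ) (sB M ω A F κ) (s0 M ω : St L H k Q) x y m ≤
      cutsN M ω A L H (dat F κ x y) κ := by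
  unfold ent cutsN
  refine Finset.card_le_card_of_injOn (fun i => ((sim M ω A L H F κ x y i).1 : ℕ)) ?_ ?_
  · intro i hi
    rw [Finset.coe_filter, Set.mem_ofPred_eq] at hi
    obtain ⟨h1, h2, h3⟩ := entry_spec hi.2.1 hi.2.2
    obtain ⟨h4, h5⟩ := not_fin h1
    have hI := inv_sim (M := M) (ω := ω) (H := H) hP F κ x y i
    rw [Finset.coe_filter, Set.mem_ofPred_eq, Finset.mem_range]
    refine ⟨h5, ?_, ?_, ?_⟩
    · rw [← hI.conf]
      exact h4
    · rw [← hI.age]
      exact (hI.cut h2).1
    · rw [← hI.conf]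
      exact h3
  · have key : ∀ i j, i < j → (¬ inB M (sim M ω A L H F κ x y i) ∧ inB M (sim M ω A L H F κ x y (i + 1))) →
        (¬ inB M (sim M ω A L H F κ x y j) ∧ inB M (sim M ω A L H F κ x y (j + 1))) →
        ((sim M ω A L H F κ x y i).1 : ℕ) ≠ ((sim M ω A L H F κ x y j).1 : ℕ) := by
      intro i j hij hi hj heq
      obtain ⟨_, h2, _⟩ := entry_spec hi.1 hi.2
      obtain ⟨h4, h5, _⟩ := entry_spec hj.1 hj.2
      have h6 : i + (j - i) = j := by omega
      have h7 := phi_sim (M := M) (ω := ω) (A := A) (L := L) (H := H) (F := F) (κ := κ) (x := x) (y := y) (m := i)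
        (d := j - i) (by rw [h6]; exact h4)
      rw [h6] at h7
      unfold phi at h7
      rw [if_pos h2, if_pos h5] at h7
      omega
    intro i hi j hj hij
    rw [Finset.coe_filter, Set.mem_ofPred_eq] at hi hj
    rcases lt_trichotomy i j with h | h | h
    · exact absurd hij (key i j h hi.2 hj.2)
    · exact h
    · exact absurd hij.symm (key j i h hj.2 hi.2)

/-- the transcript of the simulation -/
noncomputable def trM (M : Machine Lt k W Q Ω) (ω : Ω) (A : Set ℕ) (L : Lay Lt W K E C) (H R : ℕ) (F : Dat K E)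
    (κ : K) (x y : E → Bool) : Fin R → St L H k Q × St L H k Q := by
  classical exact Tr (inB M) (sA M ω A F κ) (sB M ω A F κ) (s0 M ω) (2 * H) R x y

/-- the answer according to a transcript is: no triangle -/
def noT (M : Machine Lt k W Q Ω) (ω : Ω) (L : Lay Lt W K E C) (H R : ℕ)
    (t : Fin R → St L H k Q × St L H k Q) : Prop :=
  M.answer (endS (s0 M ω) t).2.1 = some false

lemma trM_rect (R : ℕ) (F : Dat K E) (κ : K) :
    ∃ A' B' : (Fin R → St L H k Q × St L H k Q) → (E → Bool) → Prop,
      ∀ x y t, trM M ω A L H R F κ x y = t ↔ A' t x ∧ B' t y := by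
  classical
  exact ⟨_, _, fun x y t => Tr_iff x y t⟩

lemma not_inB_s0 : ¬ inB M (s0 M ω : St L H k Q) := by
  rintro ⟨_, b, hb⟩
  simp [s0] at hb

lemma no_sound (hP : Padded A L) {R : ℕ} {F : Dat K E} {κ : K} {x y : E → Bool}
    (h : noT M ω L H R (trM M ω A L H R F κ x y)) :
    M.answer (M.run ω (L.cont (dat F κ x y)) H) = some false := by
  classical
  obtain ⟨m, hm⟩ := endS_sound (inB := inB M) (sA := sA M ω A F κ) (sB := sB M ω A F κ)
    (s0 := (s0 M ω : St L H k Q)) (F := 2 * H) not_inB_s0 R x y
  have hI := inv_rn (M := M) (ω := ω) (H := H) hP F κ x y m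
  unfold noT trM at h
  rw [hm, hI.conf] at h
  rw [run_stable M ω _ (t' := H) _ (by rw [h]; rfl)]
  · exact h
  · have := (rn (inB M) (sA M ω A F κ) (sB M ω A F κ) (s0 M ω : St L H k Q) x y m).1.2
    omega

lemma no_complete (hP : Padded A L) {R : ℕ} {F : Dat K E} {κ : K} {x y : E → Bool}
    (h : M.answer (M.run ω (L.cont (dat F κ x y)) H) = some false)
    (hR : cutsN M ω A L H (dat F κ x y) κ < R) : noT M ω L H R (trM M ω A L H R F κ x y) := by
  classical
  have hf := fin_end (M := M) (ω := ω) (A := A) (L := L) (H := H) F κ x y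
  have h1 := endS_complete (inB := inB M) (sA := sA M ω A F κ) (sB := sB M ω A F κ)
    (s0 := (s0 M ω : St L H k Q)) (F := 2 * H) not_inB_s0 R x y (stp_fin hf)
    ((ent_le hP F κ x y (2 * H)).trans_lt hR)
  have hI := inv_sim (M := M) (ω := ω) (H := H) hP F κ x y (2 * H)
  unfold noT trM
  rw [h1]
  change M.answer (sim M ω A L H F κ x y (2 * H)).2.1 = some false
  rw [hI.conf]
  have hle : ((sim M ω A L H F κ x y (2 * H)).1 : ℕ) ≤ H := by
    have := (sim M ω A L H F κ x y (2 * H)).1.2
    omega
  rcases hf with hf | hf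
  · rw [hI.conf] at hf
    rw [← run_stable M ω _ hle hf]
    exact h
  · have : ((sim M ω A L H F κ x y (2 * H)).1 : ℕ) = H := le_antisymm hle hf
    rw [this]
    exact h

section Cuts

open Classical in
/-- the cuts -/
noncomputable def cuts (M : Machine Lt k W Q Ω) (ω : Ω) (A : Set ℕ) (L : Lay Lt W K E C) (H : ℕ) (F : Dat K E) : ℕ :=
  ((Finset.range H).filter fun t => M.answer (M.run ω (L.cont F) t) = none ∧
    ageT M ω (L.cont F) A L.len t = 0).card

lemma near_card [Fintype K] (c : Conf Lt k Q) : open Classical in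
    ((Finset.univ : Finset K).filter fun κ => near L κ c).card ≤ 3 * k := by
  classical
  have h1 : ((Finset.univ : Finset K).filter fun κ => near L κ c) ⊆
      (Finset.univ : Finset (Fin k × Fin 3)).biUnion fun a =>
        (Finset.univ : Finset K).filter fun κ => ∃ t p e, tp L.len (c.2 a.1) a.2 = some t ∧
          L.adr p = some (κ, e, true) ∧ L.sc t = L.sc p := by
    intro κ hκ
    obtain ⟨h, p, e, ha, hp1, hp2⟩ := (Finset.mem_filter.1 hκ).2
    obtain ⟨i, t, ht, hsc⟩ := L.test p (c.2 h) (by rw [ha]; simp) hp1 hp2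
    exact Finset.mem_biUnion.2 ⟨(h, i), Finset.mem_univ _,
      Finset.mem_filter.2 ⟨Finset.mem_univ _, t, p, e, ht, ha, hsc⟩⟩
  refine (Finset.card_le_card h1).trans ?_
  refine Finset.card_biUnion_le.trans ?_
  have h2 : ∀ a ∈ (Finset.univ : Finset (Fin k × Fin 3)),
      ((Finset.univ : Finset K).filter fun κ => ∃ t p e, tp L.len (c.2 a.1) a.2 = some t ∧
          L.adr p = some (κ, e, true) ∧ L.sc t = L.sc p).card ≤ 1 := by
    intro a _
    rw [Finset.card_le_one]
    intro κ hκ κ' hκ'
    obtain ⟨t, p, e, ht, hp, hsc⟩ := (Finset.mem_filter.1 hκ).2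
    obtain ⟨t', p', e', ht', hp', hsc'⟩ := (Finset.mem_filter.1 hκ').2
    have : t = t' := by rw [ht] at ht'; simpa using ht'
    subst this
    exact L.one p p' κ κ' e e' hp hp' (hsc.symm.trans hsc')
  refine (Finset.sum_le_sum h2).trans ?_
  simp
  omega

lemma sum_cutsN [Fintype K] (F : Dat K E) : ∑ κ, cutsN M ω A L H F κ ≤ 3 * k * cuts M ω A L H F := by
  classical
  have h1 : ∀ κ, cutsN M ω A L H F κ = ∑ t ∈ (Finset.range H).filter fun t =>
      M.answer (M.run ω (L.cont F) t) = none ∧ ageT M ω (L.cont F) A L.len t = 0,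
        (if near L κ (M.run ω (L.cont F) t) then 1 else 0) := by
    intro κ
    unfold cutsN
    rw [← Finset.card_filter, Finset.filter_filter]
    congr 1
    ext t
    simp only [Finset.mem_filter]
    tauto
  rw [Finset.sum_congr rfl fun κ _ => h1 κ, Finset.sum_comm]
  have h2 : ∀ t ∈ (Finset.range H).filter fun t =>
      M.answer (M.run ω (L.cont F) t) = none ∧ ageT M ω (L.cont F) A L.len t = 0,
      ∑ κ : K, (if near L κ (M.run ω (L.cont F) t) then 1 else 0) ≤ 3 * k := by
    intro t _
    rw [← Finset.card_filter]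
    exact near_card _
  refine (Finset.sum_le_sum h2).trans ?_
  rw [Finset.sum_const, smul_eq_mul]
  unfold cuts
  rw [mul_comm]

lemma count_cuts (Len : ℕ) (hLen : 0 < Len) (un : ℕ → Prop) [DecidablePred un] (mv age : ℕ → ℕ)
    (hmv : ∀ t, 1 ≤ mv t) (h0 : age 0 = 0)
    (hs : ∀ t, age (t + 1) = if Len ≤ age t + mv t then 0 else age t + mv t)
    (hun : ∀ t, un (t + 1) → un t) (m : ℕ) :
    Len * ∑ t ∈ Finset.range m, (if un t ∧ age t = 0 then 1 else 0) ≤
      ∑ t ∈ Finset.range m, (if un t then min (mv t) Len else 0) + Len := by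
  have hlt : ∀ t, age t < Len := by
    intro t
    cases t with
    | zero => omega
    | succ t =>
      rw [hs]
      split_ifs <;> omega
  have key : ∀ m, (Len * ∑ t ∈ Finset.range m, (if un t ∧ age t = 0 then 1 else 0) ≤
      ∑ t ∈ Finset.range m, (if un t then min (mv t) Len else 0) + Len) ∧ (un m →
      Len * ∑ t ∈ Finset.range m, (if un t ∧ age t = 0 then 1 else 0) ≤
      ∑ t ∈ Finset.range m, (if un t then min (mv t) Len else 0) +
          (if age m = 0 then 0 else Len - age m)) := by
    intro m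
    induction m with
    | zero => simp [h0]
    | succ m ih =>
      obtain ⟨ih1, ih2⟩ := ih
      rw [Finset.sum_range_succ, Finset.sum_range_succ, mul_add]
      have ha := hlt m
      have hage := hs m
      have hm1 := hmv m
      set c := Len * ∑ t ∈ Finset.range m, (if un t ∧ age t = 0 then 1 else 0) with hc
      set u := ∑ t ∈ Finset.range m, (if un t then min (mv t) Len else 0) with hu
      by_cases h1 : un m
      · have ih3 := ih2 h1
        by_cases h4 : Len ≤ age m + mv m
        · rw [if_pos h4] at hage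
          by_cases h3 : age m = 0
          · rw [if_pos h3] at ih3
            simp only [h1, h3, hage, and_self, if_true, mul_one]
            omega
          · rw [if_neg h3] at ih3
            simp only [h1, h3, hage, and_false, if_true, if_false, mul_zero]
            omega
        · rw [if_neg h4] at hage
          have h5 : age (m + 1) ≠ 0 := by omega
          by_cases h3 : age m = 0
          · rw [if_pos h3] at ih3
            rw [if_neg h5, hage]
            simp only [h1, h3, and_self, if_true, mul_one]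
            omega
          · rw [if_neg h3] at ih3
            rw [if_neg h5, hage]
            simp only [h1, h3, and_false, if_true, if_false, mul_zero]
            omega
      · have h5 : ¬ un (m + 1) := fun h => h1 (hun m h)
        refine ⟨?_, fun h => absurd h h5⟩
        simp only [h1, false_and, if_false, mul_zero]
        omega
  exact (key m).1

lemma min_eq_sum (a l : ℕ) : min a l = ∑ j ∈ Finset.range l, (if j < a then 1 else 0) := by
  rw [← Finset.card_filter]
  have : (Finset.range l).filter (fun j => j < a) = Finset.range (min a l) := by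
    ext j
    simp only [Finset.mem_filter, Finset.mem_range]
    omega
  rw [this, Finset.card_range]

open Classical in
/-- there are few cuts -/
lemma cuts_le (F : Dat K E) : L.len * cuts M ω A L H F ≤
    ∑ t ∈ Finset.range H, ∑ j ∈ Finset.range L.len,
      (if M.answer (M.run ω (L.cont F) t) = none ∧
        j < travel A (M.run ω (L.cont F) t) (M.run ω (L.cont F) (t + 1)) then 1 else 0) + L.len := by
  have h := count_cuts L.len L.hlen (fun t => M.answer (M.run ω (L.cont F) t) = none)
    (mv M ω (L.cont F) A) (ageT M ω (L.cont F) A L.len) (one_le_mv M ω _ A) rfl (fun t => rfl)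
    (fun t h => ans_none M ω _ (Nat.le_succ t) h) H
  unfold cuts
  rw [Finset.card_filter]
  refine h.trans (le_of_eq ?_)
  congr 1
  refine Finset.sum_congr rfl fun t _ => ?_
  split_ifs with h1
  · rw [min_eq_sum]
    refine Finset.sum_congr rfl fun j _ => ?_
    simp only [h1, true_and]
    rfl
  · symm
    apply Finset.sum_eq_zero
    intro j _
    rw [if_neg]
    rintro ⟨h2, _⟩
    exact h1 h2

end Cuts

end Pool.Agent.HLL
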