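import Mathlib
import Pool.Agent.Lib_helper21.UT.Corrupt
import Pool.Agent.HLL.Sim2

/-!
# The inequality for a fixed random seed
-/

set_option linter.unusedSectionVars false

namespace Pool.Agent.HLL

open Finset
open Pool.Agent.HDL (Machine Conf Lay Dat)
open Pool.Agent.UT (msk ng al alb alb_false_of al_nonneg alb_eq_false corrupt_sum)

/-- resampling one coordinate -/
lemma sum_resample {K V : Type} [Fintype K] [DecidableEq K] [Fintype V] (κ : K)
    (Φ : (K → V) → ℝ) :
    ∑ z : K → V, ∑ q : V, Φ (Function.update z κ q) = Fintype.card V * ∑ z, Φ z := by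
  classical
  let f : (K → V) × V → (K → V) × V := fun p => (Function.update p.1 κ p.2, p.1 κ)
  have hf : ∀ p, f (f p) = p := by
    rintro ⟨z, q⟩
    simp [f]
  let e : (K → V) × V ≃ (K → V) × V := ⟨f, f, hf, hf⟩
  have h1 : ∑ z : K → V, ∑ q : V, Φ (Function.update z κ q) =
      ∑ p : (K → V) × V, Φ (f p).1 := by
    rw [Fintype.sum_prod_type]
  have h2 : ∑ p : (K → V) × V, Φ (f p).1 = ∑ p : (K → V) × V, Φ p.1 :=
    Equiv.sum_comp e (fun p => Φ p.1)
  rw [h1, h2, Fintype.sum_prod_type, Finset.mul_sum]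
  refine Finset.sum_congr rfl fun z _ => ?_
  simp only
  rw [Finset.sum_const, Finset.card_univ, nsmul_eq_mul]

section Zero

variable {E : Type} [Fintype E] [DecidableEq E]

/-- setting a position to zero at most doubles an average -/
lemma sum_zero_le (e : E) (f : (E → Bool) → (E → Bool) → ℝ) (hf : ∀ x y, 0 ≤ f x y) :
    ∑ D, ∑ u, ∑ v, f (Function.update (msk D u) e false) (Function.update (msk (ng D) v) e false) ≤
      2 * ∑ D, ∑ u, ∑ v, f (msk D u) (msk (ng D) v) := by
  have key : ∀ (D : E → Bool) (h : (E → Bool) → ℝ), (∀ x, 0 ≤ h x) →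
      ∑ u, h (Function.update (msk D u) e false) ≤ 2 * ∑ u, h (msk D u) := by
    intro D h hh
    cases hD : D e
    · have := alb_false_of (f := h) hD
      unfold alb al at this
      rw [this]
      have := al_nonneg hh D
      unfold al at this
      linarith
    · have := alb_eq_false (f := h) hD
      unfold alb at this
      rw [this]
      refine mul_le_mul_of_nonneg_left ?_ (by norm_num)
      refine Finset.sum_le_sum fun u _ => ?_
      have := hh (msk D u)
      split_ifs <;> linarith
  have key0 : ∀ (D : E → Bool) (h : (E → Bool) → ℝ), (∀ x, 0 ≤ h x) → D e = false →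
      ∑ u, h (Function.update (msk D u) e false) = ∑ u, h (msk D u) := by
    intro D h hh hD
    have := alb_false_of (f := h) hD
    unfold alb al at this
    exact this
  rw [Finset.mul_sum]
  refine Finset.sum_le_sum fun D _ => ?_
  cases hD : D e
  · -- the first input is not changed
    rw [key0 D (fun x => ∑ v, f x (Function.update (msk (ng D) v) e false))
      (fun x => Finset.sum_nonneg fun v _ => hf _ _) hD, Finset.mul_sum]
    refine Finset.sum_le_sum fun u _ => ?_
    exact key (ng D) (fun y => f (msk D u) y) (fun y => hf _ _)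
  · have hD' : ng D e = false := by simp [ng, hD]
    have h1 : ∀ u, ∑ v, f (Function.update (msk D u) e false)
        (Function.update (msk (ng D) v) e false) =
        ∑ v, f (Function.update (msk D u) e false) (msk (ng D) v) := by
      intro u
      exact key0 (ng D) (fun y => f (Function.update (msk D u) e false) y) (fun y => hf _ _) hD'
    rw [Finset.sum_congr rfl fun u _ => h1 u]
    exact key D (fun x => ∑ v, f x (msk (ng D) v)) (fun x => Finset.sum_nonneg fun v _ => hf _ _)

end Zero

variable {Lt k : ℕ} {W K E C Q Ω : Type} [Fintype K] [DecidableEq K] [Fintype E] [DecidableEq E]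
  [Fintype Q] {M : Machine Lt k W Q Ω} {ω : Ω} {A : Set ℕ} {L : Lay Lt W K E C} {H : ℕ}

instance fintypeSt : Fintype (St L H k Q) := inferInstance

instance fintypeSt2 : Fintype (St L H k Q × St L H k Q) :=
  @instFintypeProd _ _ fintypeSt fintypeSt

/-- random data of one core -/
abbrev Q3 (E : Type) : Type := (E → Bool) × (E → Bool) × (E → Bool)

/-- the data of a random graph -/
def base (z : K → Q3 E) : Dat K E :=
  fun κ => (msk (z κ).1 (z κ).2.1, msk (ng (z κ).1) (z κ).2.2)

/-- the data of a random graph with the core `κ` resampled and its coordinate `e` set to `b` -/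
def inst (z : K → Q3 E) (κ : K) (q : Q3 E) (e : E) (b : Bool) : Dat K E :=
  dat (base z) κ (Function.update (msk q.1 q.2.1) e b)
    (Function.update (msk (ng q.1) q.2.2) e b)

lemma base_update (z : K → Q3 E) (κ : K) (q : Q3 E) :
    base (Function.update z κ q) = dat (base z) κ (msk q.1 q.2.1) (msk (ng q.1) q.2.2) := by
  funext κ'
  unfold base dat
  by_cases h : κ' = κ
  · subst h
    simp
  · simp [h]

lemma card_Q3 : Fintype.card (Q3 E) = 8 ^ Fintype.card E := by
  have h1 : Fintype.card (Q3 E) = Fintype.card (E → Bool) *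
      (Fintype.card (E → Bool) * Fintype.card (E → Bool)) := by
    rw [Fintype.card_prod, Fintype.card_prod]
  rw [h1, Fintype.card_fun, Fintype.card_bool, ← mul_pow, ← mul_pow]
  exact congrArg (· ^ Fintype.card E) (by norm_num : 2 * (2 * 2) = 8)

open Classical in
/-- the machine answers by time `H` that there is no triangle -/
noncomputable def pNo (M : Machine Lt k W Q Ω) (ω : Ω) (L : Lay Lt W K E C) (H : ℕ) (F : Dat K E) : ℝ :=
  if M.answer (M.run ω (L.cont F) H) = some false then 1 else 0

/-- the inequality for one core -/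
lemma core_ineq (hP : Padded A L) (R : ℕ) (hR : 0 < R) (r0 : ℝ) (hr0 : 0 ≤ r0) (F : Dat K E) (κ : K) :
    9 / 16 * ((∑ e : E, ∑ q : Q3 E, pNo M ω L H (dat F κ (Function.update (msk q.1 q.2.1) e false)
        (Function.update (msk (ng q.1) q.2.2) e false))) -
      (∑ e : E, ∑ q : Q3 E, (cutsN M ω A L H (dat F κ (Function.update (msk q.1 q.2.1) e false)
        (Function.update (msk (ng q.1) q.2.2) e false)) κ : ℝ)) / R -
      8 * r0 * 8 ^ Fintype.card E -
        (Fintype.card (St L H k Q × St L H k Q) : ℝ) ^ R *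
          (8 * (Fintype.card E * 8 ^ Fintype.card E * Real.exp (-r0 / 98)))) ≤
      ∑ e : E, ∑ q : Q3 E, pNo M ω L H (dat F κ (Function.update (msk q.1 q.2.1) e true)
        (Function.update (msk (ng q.1) q.2.2) e true)) := by
  classical
  obtain ⟨A', B', hAB⟩ := trM_rect (M := M) (ω := ω) (A := A) (L := L) (H := H) R F κ
  have h := corrupt_sum (T := Fin R → St L H k Q × St L H k Q) (trM M ω A L H R F κ) A' B' hAB
    (noT M ω L H R) r0 hr0
  have hcard : (Fintype.card (Fin R → St L H k Q × St L H k Q) : ℝ) =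
      (Fintype.card (St L H k Q × St L H k Q) : ℝ) ^ R := by
    rw [Fintype.card_fun, Fintype.card_fin]
    push_cast
    rfl
  rw [hcard] at h
  have hR' : (0 : ℝ) < R := by exact_mod_cast hR
  -- lower bound
  have h1 : ∀ x y, pNo M ω L H (dat F κ x y) - (cutsN M ω A L H (dat F κ x y) κ : ℝ) / R ≤
      (if noT M ω L H R (trM M ω A L H R F κ x y) then (1 : ℝ) else 0) := by
    intro x y
    unfold pNo
    have hc : (0 : ℝ) ≤ (cutsN M ω A L H (dat F κ x y) κ : ℝ) / R := by positivity
    split_ifs with h2 h3 h3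
    · linarith
    · have h4 : ¬ cutsN M ω A L H (dat F κ x y) κ < R := fun h' => h3 (no_complete hP h2 h')
      have h5 : (R : ℝ) ≤ cutsN M ω A L H (dat F κ x y) κ := by exact_mod_cast not_lt.1 h4
      have h6 : (1 : ℝ) ≤ (cutsN M ω A L H (dat F κ x y) κ : ℝ) / R := by
        rw [le_div_iff₀ hR']
        linarith
      linarith
    · linarith
    · linarith
  have h2 : ∀ x y, (if noT M ω L H R (trM M ω A L H R F κ x y) then (1 : ℝ) else 0) ≤
      pNo M ω L H (dat F κ x y) := by
    intro x y
    unfold pNo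
    split_ifs with h3 h4 h4
    · exact le_rfl
    · exact absurd (no_sound hP h3) h4
    · norm_num
    · exact le_rfl
  have e1 : ∀ Φ : (E → Bool) → (E → Bool) → (E → Bool) → ℝ,
      ∑ q : Q3 E, Φ q.1 q.2.1 q.2.2 = ∑ D, ∑ u, ∑ v, Φ D u v := by
    intro Φ
    rw [Fintype.sum_prod_type]
    refine Finset.sum_congr rfl fun D _ => ?_
    rw [Fintype.sum_prod_type]
  have h3 : ∑ e : E, ∑ D, ∑ u, ∑ v, (if noT M ω L H R (trM M ω A L H R F κ
        (Function.update (msk D u) e true) (Function.update (msk (ng D) v) e true)) then (1 : ℝ)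
        else 0) ≤
      ∑ e : E, ∑ q : Q3 E, pNo M ω L H (dat F κ (Function.update (msk q.1 q.2.1) e true)
        (Function.update (msk (ng q.1) q.2.2) e true)) := by
    refine Finset.sum_le_sum fun e _ => ?_
    rw [e1 (fun D u v => pNo M ω L H (dat F κ (Function.update (msk D u) e true)
        (Function.update (msk (ng D) v) e true)))]
    exact Finset.sum_le_sum fun D _ => Finset.sum_le_sum fun u _ => Finset.sum_le_sum fun v _ =>
      h2 _ _
  have h4 : (∑ e : E, ∑ q : Q3 E, pNo M ω L H (dat F κ (Function.update (msk q.1 q.2.1) e false)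
        (Function.update (msk (ng q.1) q.2.2) e false))) -
      (∑ e : E, ∑ q : Q3 E, (cutsN M ω A L H (dat F κ (Function.update (msk q.1 q.2.1) e false)
        (Function.update (msk (ng q.1) q.2.2) e false)) κ : ℝ)) / R ≤
      ∑ e : E, ∑ D, ∑ u, ∑ v, (if noT M ω L H R (trM M ω A L H R F κ
        (Function.update (msk D u) e false) (Function.update (msk (ng D) v) e false)) then (1 : ℝ)
        else 0) := by
    rw [Finset.sum_div, ← Finset.sum_sub_distrib]
    refine Finset.sum_le_sum fun e _ => ?_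
    rw [Finset.sum_div, ← Finset.sum_sub_distrib]
    rw [e1 (fun D u v => pNo M ω L H (dat F κ (Function.update (msk D u) e false)
        (Function.update (msk (ng D) v) e false)) -
        (cutsN M ω A L H (dat F κ (Function.update (msk D u) e false)
        (Function.update (msk (ng D) v) e false)) κ : ℝ) / R)]
    exact Finset.sum_le_sum fun D _ => Finset.sum_le_sum fun u _ => Finset.sum_le_sum fun v _ =>
      h1 _ _
  refine le_trans ?_ (h.trans h3)
  refine mul_le_mul_of_nonneg_left ?_ (by norm_num)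
  linarith

/-- the cuts near a random core -/
lemma cutsN_avg : ∑ z : K → Q3 E, ∑ κ : K, ∑ e : E, ∑ q : Q3 E,
      (cutsN M ω A L H (inst z κ q e false) κ : ℝ) ≤
    6 * k * Fintype.card E * 8 ^ Fintype.card E *
      ∑ z : K → Q3 E, (cuts M ω A L H (base z) : ℝ) := by
  classical
  have e1 : ∀ Φ : (E → Bool) → (E → Bool) → (E → Bool) → ℝ,
      ∑ q : Q3 E, Φ q.1 q.2.1 q.2.2 = ∑ D, ∑ u, ∑ v, Φ D u v := by
    intro Φ
    rw [Fintype.sum_prod_type]
    refine Finset.sum_congr rfl fun D _ => ?_
    rw [Fintype.sum_prod_type]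
  have h1 : ∀ (z : K → Q3 E) (κ : K) (e : E), ∑ q : Q3 E,
      (cutsN M ω A L H (inst z κ q e false) κ : ℝ) ≤
      2 * ∑ q : Q3 E, (cutsN M ω A L H (base (Function.update z κ q)) κ : ℝ) := by
    intro z κ e
    have h2 := sum_zero_le e (fun x y => (cutsN M ω A L H (dat (base z) κ x y) κ : ℝ))
      (fun x y => Nat.cast_nonneg _)
    have h3 : ∑ q : Q3 E, (cutsN M ω A L H (base (Function.update z κ q)) κ : ℝ) =
        ∑ q : Q3 E, (cutsN M ω A L H (dat (base z) κ (msk q.1 q.2.1) (msk (ng q.1) q.2.2)) κ : ℝ) := by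
      refine Finset.sum_congr rfl fun q _ => ?_
      rw [base_update]
    rw [h3, e1 (fun D u v => (cutsN M ω A L H (dat (base z) κ (msk D u) (msk (ng D) v)) κ : ℝ))]
    refine le_trans (le_of_eq ?_) h2
    exact e1 (fun D u v => (cutsN M ω A L H (dat (base z) κ (Function.update (msk D u) e false)
      (Function.update (msk (ng D) v) e false)) κ : ℝ))
  have h2 : ∀ κ : K, ∑ z : K → Q3 E, ∑ e : E, ∑ q : Q3 E,
      (cutsN M ω A L H (inst z κ q e false) κ : ℝ) ≤
      2 * Fintype.card E * 8 ^ Fintype.card E *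
        ∑ z : K → Q3 E, (cutsN M ω A L H (base z) κ : ℝ) := by
    intro κ
    have h3 : ∑ z : K → Q3 E, ∑ e : E, ∑ q : Q3 E,
      (cutsN M ω A L H (inst z κ q e false) κ : ℝ) ≤
        ∑ z : K → Q3 E, ∑ e : E,
          2 * ∑ q : Q3 E, (cutsN M ω A L H (base (Function.update z κ q)) κ : ℝ) :=
      Finset.sum_le_sum fun z _ => Finset.sum_le_sum fun e _ => h1 z κ e
    refine h3.trans (le_of_eq ?_)
    have h4 : ∀ z : K → Q3 E, ∑ e : E,
          2 * ∑ q : Q3 E, (cutsN M ω A L H (base (Function.update z κ q)) κ : ℝ) =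
        (Fintype.card E : ℝ) * 2 *
          ∑ q : Q3 E, (cutsN M ω A L H (base (Function.update z κ q)) κ : ℝ) := by
      intro z
      rw [Finset.sum_const, Finset.card_univ, nsmul_eq_mul]
      ring
    rw [Finset.sum_congr rfl fun z _ => h4 z, ← Finset.mul_sum,
      sum_resample κ (fun z => (cutsN M ω A L H (base z) κ : ℝ)), card_Q3]
    push_cast
    ring
  have h3 : ∑ z : K → Q3 E, ∑ κ : K, ∑ e : E, ∑ q : Q3 E,
      (cutsN M ω A L H (inst z κ q e false) κ : ℝ) ≤ ∑ κ : K,
      2 * Fintype.card E * 8 ^ Fintype.card E *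
        ∑ z : K → Q3 E, (cutsN M ω A L H (base z) κ : ℝ) := by
    rw [Finset.sum_comm]
    exact Finset.sum_le_sum fun κ _ => h2 κ
  refine h3.trans ?_
  rw [← Finset.mul_sum, Finset.sum_comm]
  have h4 : ∑ z : K → Q3 E, ∑ κ : K, (cutsN M ω A L H (base z) κ : ℝ) ≤
      ∑ z : K → Q3 E, 3 * k * (cuts M ω A L H (base z) : ℝ) := by
    refine Finset.sum_le_sum fun z _ => ?_
    have := sum_cutsN (M := M) (ω := ω) (A := A) (L := L) (H := H) (base z)
    exact_mod_cast this
  rw [← Finset.mul_sum] at h4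
  have h5 := mul_le_mul_of_nonneg_left h4
    (by positivity : (0 : ℝ) ≤ 2 * Fintype.card E * 8 ^ Fintype.card E)
  refine h5.trans (le_of_eq ?_)
  ring

/-- The inequality for a fixed random seed. -/
theorem seed_ineq (hP : Padded A L) (R : ℕ) (hR : 0 < R) (r0 : ℝ) (hr0 : 0 ≤ r0) :
    9 / 16 * ((∑ z : K → Q3 E, ∑ κ : K, ∑ e : E, ∑ q : Q3 E,
        pNo M ω L H (inst z κ q e false)) -
      6 * k * Fintype.card E * 8 ^ Fintype.card E / R *
        ∑ z : K → Q3 E, (cuts M ω A L H (base z) : ℝ) -
      Fintype.card (K → Q3 E) * Fintype.card K * (8 * r0 * 8 ^ Fintype.card E +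
        (Fintype.card (St L H k Q × St L H k Q) : ℝ) ^ R *
          (8 * (Fintype.card E * 8 ^ Fintype.card E * Real.exp (-r0 / 98))))) ≤
      ∑ z : K → Q3 E, ∑ κ : K, ∑ e : E, ∑ q : Q3 E,
        pNo M ω L H (inst z κ q e true) := by
  have h1 := Finset.sum_le_sum fun z (_ : z ∈ (Finset.univ : Finset (K → Q3 E))) =>
    Finset.sum_le_sum fun κ (_ : κ ∈ (Finset.univ : Finset (K))) =>
      core_ineq (M := M) (ω := ω) (H := H) hP R hR r0 hr0 (base z) κ
  refine le_trans ?_ h1
  have h2 := cutsN_avg (M := M) (ω := ω) (A := A) (L := L) (H := H)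
  have hR' : (0 : ℝ) < R := by exact_mod_cast hR
  set W : ℝ := 8 * r0 * 8 ^ Fintype.card E +
        (Fintype.card (St L H k Q × St L H k Q) : ℝ) ^ R *
          (8 * (Fintype.card E * 8 ^ Fintype.card E * Real.exp (-r0 / 98))) with hW
  have h3 : ∀ (z : K → Q3 E) (κ : K),
      9 / 16 * ((∑ e : E, ∑ q : Q3 E, pNo M ω L H (dat (base z) κ
        (Function.update (msk q.1 q.2.1) e false) (Function.update (msk (ng q.1) q.2.2) e false))) -
      (∑ e : E, ∑ q : Q3 E, (cutsN M ω A L H (dat (base z) κ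
        (Function.update (msk q.1 q.2.1) e false)
        (Function.update (msk (ng q.1) q.2.2) e false)) κ : ℝ)) / R -
      8 * r0 * 8 ^ Fintype.card E -
        (Fintype.card (St L H k Q × St L H k Q) : ℝ) ^ R *
          (8 * (Fintype.card E * 8 ^ Fintype.card E * Real.exp (-r0 / 98)))) =
      9 / 16 * (∑ e : E, ∑ q : Q3 E, pNo M ω L H (inst z κ q e false)) -
      9 / 16 / R * (∑ e : E, ∑ q : Q3 E, (cutsN M ω A L H (inst z κ q e false) κ : ℝ)) -
        9 / 16 * W := by
    intro z κ
    unfold inst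
    rw [hW]
    ring
  rw [Finset.sum_congr rfl fun z _ => Finset.sum_congr rfl fun κ _ => h3 z κ]
  have h4 : ∑ z : K → Q3 E, ∑ κ : K,
      (9 / 16 * (∑ e : E, ∑ q : Q3 E, pNo M ω L H (inst z κ q e false)) -
      9 / 16 / R * (∑ e : E, ∑ q : Q3 E, (cutsN M ω A L H (inst z κ q e false) κ : ℝ)) -
        9 / 16 * W) =
      9 / 16 * (∑ z : K → Q3 E, ∑ κ : K, ∑ e : E, ∑ q : Q3 E,
        pNo M ω L H (inst z κ q e false)) -
      9 / 16 / R * (∑ z : K → Q3 E, ∑ κ : K, ∑ e : E, ∑ q : Q3 E,
        (cutsN M ω A L H (inst z κ q e false) κ : ℝ)) -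
      Fintype.card (K → Q3 E) * (Fintype.card K * (9 / 16 * W)) := by
    simp only [Finset.sum_sub_distrib, ← Finset.mul_sum, Finset.sum_const, Finset.card_univ,
      nsmul_eq_mul, Fintype.card_fin]
    ring
  rw [h4]
  have h5 := mul_le_mul_of_nonneg_left h2 (by positivity : (0 : ℝ) ≤ 9 / 16 / R)
  have h6 : 9 / 16 / (R : ℝ) * (6 * k * Fintype.card E * 8 ^ Fintype.card E *
      ∑ z : K → Q3 E, (cuts M ω A L H (base z) : ℝ)) =
      9 / 16 * (6 * k * Fintype.card E * 8 ^ Fintype.card E / R *
        ∑ z : K → Q3 E, (cuts M ω A L H (base z) : ℝ)) := by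
    field_simp
  rw [h6] at h5
  linarith

end Pool.Agent.HLL
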