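import Mathlib
import Pool.Agent.HDL.Cost
import Pool.Agent.HLL.Read

/-!
# Seek costs
-/

set_option linter.unusedSectionVars false

open MeasureTheory

namespace Pool.Agent.HLL

open Finset
open Pool.Agent.HDL (Machine Conf Lay Dat SeekCost meas_two int_two)

variable {Lt k : ℕ} {W Q Ω : Type} [Fintype Q] [MeasurableSpace Ω]
  (M : Machine Lt k W Q Ω) (μ : Measure Ω) [IsProbabilityMeasure μ] (G : Fin Lt → W)

theorem cost_bounds (A : Set ℕ) (hm : ∀ (t : ℕ) (c : Conf Lt k Q), MeasurableSet {ω | M.run ω G t = c})
    (f : ℕ → ℝ) (hf : SeekCost f) (T : ℝ) (m : ℕ)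
    (hT : ∑ t ∈ Finset.range m, ∫ ω, cost M A f ω G t ∂μ ≤ T) (l : ℕ) (hl : 0 < l) :
    (∑ t ∈ Finset.range m, μ.real {ω | M.answer (M.run ω G t) = none} ≤ T) ∧
    (∑ t ∈ Finset.range m, ∑ j ∈ Finset.range l,
      μ.real {ω | M.answer (M.run ω G t) = none ∧
        j < travel A (M.run ω G t) (M.run ω G (t + 1))} ≤ l * (T / f l)) := by
  classical
  have hl0 : (0 : ℝ) < l := by exact_mod_cast hl
  have hfl : 0 < f l := lt_of_lt_of_le one_pos (hf.one_le hl)
  have hint : ∀ t, Integrable (fun ω => cost M A f ω G t) μ := by
    intro t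
    exact int_two M μ G hm t (t + 1) (fun c c' => if (M.answer c).isSome then 0 else f (travel A c c'))
  constructor
  · refine (Finset.sum_le_sum fun t _ => ?_).trans hT
    have hms := meas_two M G hm t t (fun c _ => M.answer c = none)
    have h1 : μ.real {ω | M.answer (M.run ω G t) = none} =
        ∫ ω, ({ω | M.answer (M.run ω G t) = none}).indicator (fun _ => (1 : ℝ)) ω ∂μ := by
      rw [integral_indicator_const _ hms]
      simp
    rw [h1]
    refine integral_mono ((integrable_const 1).indicator hms) (hint t) ?_
    intro ω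
    simp only
    unfold cost
    rw [Set.indicator_apply]
    by_cases h2 : M.answer (M.run ω G t) = none
    · have h3 : ω ∈ {ω | M.answer (M.run ω G t) = none} := h2
      rw [if_pos h3, if_neg (by rw [h2]; simp)]
      exact hf.one_le (travel_spec A _ _).1
    · have h3 : ω ∉ {ω | M.answer (M.run ω G t) = none} := h2
      rw [if_neg h3, if_pos (Option.ne_none_iff_isSome.1 h2)]
  · have key : ∀ t, ∑ j ∈ Finset.range l,
      μ.real {ω | M.answer (M.run ω G t) = none ∧
        j < travel A (M.run ω G t) (M.run ω G (t + 1))} ≤ l / f l * ∫ ω, cost M A f ω G t ∂μ := by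
      intro t
      obtain ⟨i1, v1⟩ := int_sum μ (Finset.range l)
        (fun j => {ω | M.answer (M.run ω G t) = none ∧
          j < travel A (M.run ω G t) (M.run ω G (t + 1))})
        (fun j => meas_two M G hm t (t + 1) (fun c c' => M.answer c = none ∧ j < travel A c c'))
      rw [← v1, ← integral_const_mul]
      refine integral_mono i1 ((hint t).const_mul _) ?_
      intro ω
      simp only
      unfold cost
      by_cases h2 : M.answer (M.run ω G t) = none
      · rw [if_neg (by rw [h2]; simp)]
        have h3 : ∑ j ∈ Finset.range l, ({ω | M.answer (M.run ω G t) = none ∧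
          j < travel A (M.run ω G t) (M.run ω G (t + 1))}).indicator (fun _ => (1 : ℝ)) ω =
            (min (travel A (M.run ω G t) (M.run ω G (t + 1))) l : ℕ) := by
          rw [min_eq_sum]
          push_cast
          refine Finset.sum_congr rfl fun j _ => ?_
          rw [Set.indicator_apply]
          refine if_congr ?_ rfl rfl
          exact ⟨fun h => h.2, fun h => ⟨h2, h⟩⟩
        rw [h3]
        have h4 := hf.min_le (D := travel A (M.run ω G t) (M.run ω G (t + 1))) (l := l)
          (travel_spec A _ _).1
        have h5 : (l : ℝ) / f l * f (travel A (M.run ω G t) (M.run ω G (t + 1))) =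
            l * f (travel A (M.run ω G t) (M.run ω G (t + 1))) / f l := by ring
        rw [h5, le_div_iff₀ hfl]
        exact h4
      · rw [if_pos (Option.ne_none_iff_isSome.1 h2), mul_zero]
        apply le_of_eq
        apply Finset.sum_eq_zero
        intro j _
        rw [Set.indicator_of_notMem]
        rintro ⟨h3, _⟩
        exact h2 h3
    refine (Finset.sum_le_sum fun t _ => key t).trans ?_
    rw [← Finset.mul_sum]
    have h1 := mul_le_mul_of_nonneg_left hT (by positivity : (0 : ℝ) ≤ l / f l)
    refine h1.trans (le_of_eq ?_)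
    ring

end Pool.Agent.HLL
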