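import Pool.Agent.HDL.Exact
import Pool.Agent.HLL.Base

/-!
# Graphs with padded adjacency lists: definitions and statements

The graphs of `Pool.Agent.HDL.M_GAD1` get `6 * P` new vertices (pads), `P` before and `P` after the old
vertices for each of the parts `X`, `Y`, `Z`; every pad of a part is adjacent to all old vertices of
this part. So the list of an old vertex begins and ends with `P` pads, and there are no new triangles.
-/

set_option linter.unusedSectionVars false

namespace Pool.Agent.HLL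

open Pool.Agent.HDL

section Pad

variable {K E : Type} (Fr : Frame K E) (P : ℕ)

/-- colour of a vertex: pads `0, 1, 2`, old vertices of `X`, `Y`, `Z`: `3, 4, 5`, isolated vertices `9` -/
def PAD_col (v : ℕ) : ℕ :=
  if v < 3 * P then v / P
  else if v < 3 * P + 3 * Fr.Γ then
    (if (v - 3 * P) / 3 < Fr.OY then 3 else if (v - 3 * P) / 3 < Fr.OZ then 4 else 5)
  else if v < 6 * P + 3 * Fr.Γ then (v - 3 * P - 3 * Fr.Γ) / P
  else 9

/-- row `v` has a cell with the code `w`: a pad `w`, or the group `(w - 3 P) / 3` -/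
def PAD_has (v w : ℕ) : Prop :=
  PAD_col Fr P v + 3 = PAD_col Fr P w ∨ PAD_col Fr P w + 3 = PAD_col Fr P v ∨
    (3 * P ≤ v ∧ 3 * P ≤ w ∧ (w - 3 * P) % 3 = 0 ∧
      GAD_has Fr ((v - 3 * P) / 3) ((v - 3 * P) % 3) ((w - 3 * P) / 3))

open Classical in
/-- the symbol in the cell `c = (v, w)` -/
noncomputable def PAD_nb (F : Dat K E) (c : ℕ × ℕ) : ℕ :=
  if 3 * P ≤ c.1 ∧ 3 * P ≤ c.2 ∧
      GAD_has Fr ((c.1 - 3 * P) / 3) ((c.1 - 3 * P) % 3) ((c.2 - 3 * P) / 3) then
    c.2 + GAD_mb Fr F ((c.1 - 3 * P) / 3) ((c.1 - 3 * P) % 3) ((c.2 - 3 * P) / 3)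
  else c.2

open Classical in
/-- the codes of the cells of row `v` -/
noncomputable def PAD_gl (v : ℕ) : List ℕ :=
  (List.range (6 * P + 3 * Fr.Γ)).filter fun w => decide (PAD_has Fr P v w)

/-- the cells of the tape -/
noncomputable def PAD_L0 (n : ℕ) : List (ℕ × ℕ) :=
  (List.range n).flatMap fun v => (PAD_gl Fr P v).map fun w => (v, w)

/-- the degrees -/
noncomputable def PAD_d (n : ℕ) : Fin n → ℕ := fun v => (PAD_gl Fr P (v : ℕ)).length

/-- the graph with the data `F` -/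
def PAD_G (n : ℕ) (F : Dat K E) : SimpleGraph (Fin n) where
  Adj u v := PAD_col Fr P u + 3 = PAD_col Fr P v ∨ PAD_col Fr P v + 3 = PAD_col Fr P u ∨
    (3 * P ≤ (u : ℕ) ∧ 3 * P ≤ (v : ℕ) ∧
      GAD_has Fr (((u : ℕ) - 3 * P) / 3) (((u : ℕ) - 3 * P) % 3) (((v : ℕ) - 3 * P) / 3) ∧
      GAD_mb Fr F (((u : ℕ) - 3 * P) / 3) (((u : ℕ) - 3 * P) % 3) (((v : ℕ) - 3 * P) / 3) =
        ((v : ℕ) - 3 * P) % 3)
  symm := by
    refine ⟨?_⟩
    rintro u v (h | h | ⟨h1, h2, h3, h4⟩)
    · exact Or.inr (Or.inl h)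
    · exact Or.inl h
    · have h5 := GAD_sym Fr F h3 (Nat.mod_lt _ (by norm_num))
      rw [h4] at h5
      exact Or.inr (Or.inr ⟨h2, h1, h5.1, h5.2⟩)
  loopless := by
    refine ⟨?_⟩
    rintro u (h | h | ⟨_, _, h3, _⟩)
    · omega
    · omega
    · exact (GAD_has_lt Fr h3).2.2 rfl

end Pad

/-- PAD1: degrees, tape and triangles of the padded graphs.

PROOF. As `GAD_deg`, `GAD_tape`, `GAD_tri` in `Pool.Agent.HDL.M_GAD1`, `Pool.Agent.HDL.M_GAD`.
The colours: `PAD_col v ≤ 2` iff `v` is a pad, `3 ≤ PAD_col v ≤ 5` iff `3 P ≤ v < 3 P + 3 Γ` (old vertex).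
Row `v`, sorted: the symbols are `PAD_nb F (v, w)` for the codes `w` of `PAD_gl v` in increasing order
(`PAD_nb F (v, w)` is `w`, or lies in `[w, w + 3)` when `3 ∣ w - 3 P` and `w` is an old vertex, and then
it is the only neighbour of `v` in the group of `w`; for an old vertex `v` all codes `w` that are old
vertices are of this kind since `PAD_col v + 3`, `PAD_col w + 3` are at least `6`; for a pad `v` the
symbol is the code, `PAD_nb F (v, w) = w`: for a front pad `v < 3 P`, and for a back pad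
`(v - 3 P) / 3 ≥ Γ` contradicts `GAD_has_lt`).
Triangles: pads are not adjacent to each other; a pad and two old vertices `u, v` adjacent to it: `u`,
`v` have the same colour, so they are not adjacent by `GAD_has_side`; three old vertices: a triangle
of `GAD_G Fr (3 * Fr.Γ) F` (subtract `3 P`), and conversely, so `GAD_tri` applies. -/
def S_PAD1 : Prop :=
  ∀ (K E : Type) (Fr : Frame K E) (P : ℕ), 0 < P → ∀ n : ℕ, 6 * P + 3 * Fr.Γ ≤ n → ∀ F : Dat K E,
    HasDegrees (PAD_G Fr P n F) (PAD_d Fr P n) ∧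
    (∀ p, (tape (PAD_d Fr P n) (PAD_G Fr P n F) p).map Fin.val =
      ((PAD_L0 Fr P n)[(p : ℕ)]?).map (PAD_nb Fr P F)) ∧
    ((PAD_G Fr P n F).CliqueFree 3 ↔ ∀ κ e, (F κ).1 e = true → (F κ).2 e = false)

/-- GADP: padded graphs whose adjacency lists form a layout without data near the starts of the
lists.

PROOF (from `S_PAD1`). `d = PAD_d Fr P n`, `Gr = PAD_G Fr P n`, `cl p` is the cell number `p` of
`PAD_L0 Fr P n` (`∑ v, PAD_d v` is its length), `cont F = tape d (Gr F)`;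
`adr p = GAD_ad Fr ((v - 3 P) / 3) ((w - 3 P) / 3)` for `cl p = (v, w)` with
`3 P ≤ v < 3 P + 3 Γ` and `3 P ≤ w < 3 P + 3 Γ`, and `none` otherwise;
`sc p = some (Fr.key (mp (cl p)).1 (mp (cl p)).2)` with `mp (v, w) = (0, 0)` if `v < 3 P`,
`(v - 3 P, 0)` if `3 P ≤ v < 3 P + 3 Γ` and `w < 3 P`, `(v - 3 P, (w - 3 P) / 3)` if both are old,
`(v - 3 P, Γ)` if `v` is old and `3 P + 3 Γ ≤ w`, `(3 Γ, Γ)` if `3 P + 3 Γ ≤ v`; `mp` is monotone from the
lexicographic order to the lexicographic order, so `conv` follows from `Fr.conv`. `big`, `one`, `few`: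
as in `GAD_Lay` (the cells of the layout there are the old-old cells here, `(u, γ) ↦
(3 P + u, 3 P + 3 γ)`). `congr` from the formula for the tape in `S_PAD1`.
Number of cells: `D0 = ∑ v < 6 P + 3 Γ, (PAD_gl v).length` (rows `v ≥ 6 P + 3 Γ` are empty); the
old-old cells are at most `Fr.Bd` (`Fr.cells`), the cells `(v, w)` with `v` a pad and `w` old are at
most `2 P * 3 Γ` (for every old `w` only `P` front and `P` back pads have the right colour), and the same
for `v` old and `w` a pad.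
Padded: let `adr p ≠ none`, `cl p = (v, w)`, `v`, `w` old. Row `v` begins with the `P` front pads and
ends with the `P` back pads of the colour of `v`, so `start v + P ≤ p` and `p + P + 1 ≤ start (v + 1)`,
where `start x = ∑ u < x, (PAD_gl u).length`. A place `a` in `starts d` is `start x` for some `x`, and
`start` is monotone: `a ≤ start v ≤ p - P` or `start (v + 1) ≤ a`. -/
def S_GADP : Prop :=
  ∀ (K E : Type) (Fr : Frame K E) (P : ℕ), Fr.len < P →
    ∃ D0 ≤ Fr.Bd + 12 * P * Fr.Γ, ∀ n : ℕ, 6 * P + 3 * Fr.Γ ≤ n →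
    ∃ (d : Fin n → ℕ) (L : Lay (∑ v, d v) (Option (Fin n)) K E (Option (ℕ × ℕ)))
      (Gr : Dat K E → SimpleGraph (Fin n)),
      L.len = Fr.len ∧ L.b0 = Fr.b0 ∧ ∑ v, d v = D0 ∧ (∀ F, HasDegrees (Gr F) d) ∧
      (∀ F, L.cont F = tape d (Gr F)) ∧
      (∀ F, (Gr F).CliqueFree 3 ↔ ∀ κ e, (F κ).1 e = true → (F κ).2 e = false) ∧
      ∀ a ∈ starts d, ∀ p : Fin (∑ v, d v), (p : ℕ) ≤ a + L.len → a ≤ p + L.len → L.adr p = none

/-- PAD2 -/
def S_PAD2 : Prop := S_PAD1 → S_GADP

end Pool.Agent.HLL
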