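import Mathlib
import Pool.Agent.HDL.Final
import Pool.Agent.HLL.Cost
import Pool.Agent.HLL.St

/-!
# The hard graphs and the number of states of the simulation
-/

set_option linter.unusedSectionVars false

open MeasureTheory

namespace Pool.Agent.HLL

open Pool.Agent.HDL (Machine Conf Lay Dat SeekCost LMachine DetectsTriangles HasDegrees tape EE
  S_BETA S_ALPHA Frame frame_exists set_false set_true)

/-- the hard graphs for given parameters -/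
theorem inst_exists (hB : S_BETA) (hA : S_ALPHA) (hD : S_GADP) (n m a b c : ℕ)
    (hc : c ≤ 2 * a + b) (hn : 96 * 2 ^ (2 * a + b) ≤ n) (hm : 72 * 2 ^ (2 * a + b) * 2 ^ c ≤ m)
    (hm2 : 672 * 2 ^ (3 * a + 2 * b) ≤ m) :
    ∃ (v : ℕ) (d : Fin v → ℕ) (K E : Type) (_ : Fintype K) (_ : DecidableEq K) (_ : Fintype E)
      (_ : DecidableEq E) (L : Lay (∑ i, d i) (Option (Fin v)) K E (Option (ℕ × ℕ))),
      v + (∑ i, d i) / 2 = n + m ∧ ∑ i, d i ≤ 2 * m ∧ L.len ≤ 2 ^ a * 2 ^ b ∧ L.b0 = 3 * 2 ^ b ∧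
      Fintype.card K = 2 ^ a ∧
      (2 : ℝ) ^ a * 2 ^ b ≤ L.len * EE (2 ^ c) ^ 2 ∧
      (2 : ℝ) ^ a * 2 ^ b * 2 ^ c ≤ Fintype.card E * EE (2 ^ c) ^ 3 ∧
      ∀ (f : ℕ → ℝ), SeekCost f → ∀ (k : ℕ) (T : ℝ) (Q Ω : Type) [Fintype Q] [MeasurableSpace Ω]
        (μ : Measure Ω) [IsProbabilityMeasure μ] (M : LMachine d k Q Ω),
        DetectsTriangles M μ → CostLE M μ (starts d) f T → Good M μ (starts d) L T (T / f L.len) := by
  obtain ⟨K, E, i1, i2, i3, i4, Fr, g1, g2, g3, g4, g5, g6, g7⟩ :=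
    frame_exists hB hA a b c hc
  obtain ⟨D0, hD0, hall⟩ := hD K E Fr (Fr.len + 1) (by omega)
  have e1 : 2 ^ a * 2 ^ b * 2 ^ (2 * a + b) = 2 ^ (3 * a + 2 * b) := by
    rw [← pow_add, ← pow_add]
    congr 1
    omega
  have hP1 : Fr.len + 1 ≤ 2 * (2 ^ a * 2 ^ b) := by
    have : 0 < 2 ^ a * 2 ^ b := by positivity
    omega
  have hP2 : 2 ^ a * 2 ^ b ≤ 2 ^ (2 * a + b) := by
    rw [← pow_add]
    exact Nat.pow_le_pow_right (by norm_num) (by omega)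
  have hpad : 12 * (Fr.len + 1) * Fr.Γ ≤ m := by
    calc 12 * (Fr.len + 1) * Fr.Γ ≤ 12 * (2 * (2 ^ a * 2 ^ b)) * (28 * 2 ^ (2 * a + b)) := by gcongr
      _ = 672 * (2 ^ a * 2 ^ b * 2 ^ (2 * a + b)) := by ring
      _ ≤ m := by
        rw [e1]
        exact hm2
  have hD0m : D0 ≤ 2 * m := by
    have h1 := g2.trans hm
    omega
  have hv : 6 * (Fr.len + 1) + 3 * Fr.Γ ≤ n + m - D0 / 2 := by omega
  obtain ⟨d, L, Gr, h1, h2, h3, h4, h5, h6, h7⟩ := hall (n + m - D0 / 2) hv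
  refine ⟨n + m - D0 / 2, d, K, E, i1, i2, i3, i4, L, ?_, ?_, ?_, ?_, g5, ?_, g7, ?_⟩
  · rw [h3]
    omega
  · rw [h3]
    exact hD0m
  · rw [h1]
    exact g3
  · rw [h2]
    exact g4
  · rw [h1]
    exact g6
  · intro f hf k T Q Ω _ _ μ _ M hd hT
    have hcb := fun F m => cost_bounds M μ (L.cont F) (starts d) (fun t c => by
      rw [h5 F]
      exact hd.1 (Gr F) (h4 F) t c) f hf T m (by
      rw [h5 F]
      exact hT (Gr F) (h4 F) m) L.len L.hlen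
    refine ⟨h7, ?_, ?_, ?_, fun F m => (hcb F m).1, fun F m => (hcb F m).2⟩
    · intro F t c
      rw [h5 F]
      exact hd.1 (Gr F) (h4 F) t c
    · intro F hF
      rw [h5 F]
      exact (hd.2 (Gr F) (h4 F)).trans (set_false M μ (Gr F) ((h6 F).2 hF))
    · intro F hF
      rw [h5 F]
      refine (hd.2 (Gr F) (h4 F)).trans (set_true M μ (Gr F) ?_)
      intro hfree
      obtain ⟨κ, e, hx, hy⟩ := hF
      have := (h6 F).1 hfree κ e hx
      rw [hy] at this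
      exact absurd this (by decide)

lemma card_St_exp {s Lt k : ℕ} {W K E C Q : Type} [Fintype Q] (L : Lay Lt W K E C) (H S : ℕ)
    (hs : 3 ≤ s) (hk : 1 ≤ k) (hQ : Fintype.card Q ≤ 2 ^ S) (hH : H + 1 ≤ s ^ 3)
    (hlen : L.len + 1 ≤ s ^ 3) (hLt : Lt ≤ s ^ 3)
    (hb : (L.b0 : ℝ) * k ≤ 3 * (S + k * Real.log s)) :
    (Fintype.card (St L H k Q) : ℝ) ≤ Real.exp (25 * ((S : ℝ) + k * Real.log s)) :=
  HDL.card_St_exp (k := k) (Q := Q) L H S hs hk hQ hH hlen hLt hb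

end Pool.Agent.HLL
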