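import Mathlib
import Pool.Agent.HDL.Num

/-!
# Numerical estimates
-/

set_option linter.unusedSectionVars false

namespace Pool.Agent.HLL

open Pool.Agent.HDL (EE EE_pos one_le_EE)

lemma sq_le_aux {a b : ℝ} (hb : 0 ≤ b) (h : a ^ 2 ≤ b ^ 2) : a ≤ b := by
  by_contra hcon
  push Not at hcon
  have := pow_lt_pow_left₀ hcon hb (n := 2) (by norm_num)
  linarith

lemma cube_le_aux {a b : ℝ} (hb : 0 ≤ b) (h : a ^ 3 ≤ b ^ 3) : a ≤ b := by
  by_contra hcon
  push Not at hcon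
  have := pow_lt_pow_left₀ hcon hb (n := 3) (by norm_num)
  linarith

/-- the loss in terms of the number of edges -/
lemma EE_five (r m : ℕ) (hr : 1 ≤ r) (h : r ≤ m) :
    EE r ^ 5 * Real.exp (-20 * √(Real.log m)) ≤ 1 := by
  have hr0 : (0 : ℝ) < r := by exact_mod_cast hr
  have h1 : Real.log r ≤ Real.log m := Real.log_le_log hr0 (by exact_mod_cast h)
  have h2 := Real.sqrt_le_sqrt h1
  have h5 : EE r ^ 5 = Real.exp (20 * √(Real.log r)) := by
    unfold EE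
    rw [← Real.exp_nat_mul]
    congr 1
    push_cast
    ring
  rw [h5, ← Real.exp_add, ← Real.exp_zero]
  apply Real.exp_le_exp.2
  linarith

/-- the distance against the length of the intervals -/
lemma dist_bound {x n m k σ g h : ℝ} (hx : 0 ≤ x) (hk : 0 < k) (hσ : 0 ≤ σ) (hg : 0 ≤ g) (hh : 0 ≤ h)
    (h2 : σ ≤ 2 * k * h) (h1 : n ≤ 384 * (g ^ 2 * h) ∨ m ≤ 5376 * (g ^ 3 * h ^ 2))
    (hx2 : k * x ^ 2 ≤ n * σ) (hx3 : k * x ^ 3 ≤ m * σ) : x ≤ 28 * (g * h) := by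
  rcases h1 with h1 | h1
  · apply sq_le_aux (by positivity)
    have e2 : n * σ ≤ (384 * (g ^ 2 * h)) * (2 * k * h) := mul_le_mul h1 h2 hσ (by positivity)
    have e3 : (384 * (g ^ 2 * h)) * (2 * k * h) = k * (768 * (g * h) ^ 2) := by ring
    rw [e3] at e2
    have e4 : x ^ 2 ≤ 768 * (g * h) ^ 2 := le_of_mul_le_mul_left (hx2.trans e2) hk
    have e5 : (28 * (g * h)) ^ 2 = 784 * (g * h) ^ 2 := by ring
    have e6 : 0 ≤ (g * h) ^ 2 := by positivity
    linarith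
  · apply cube_le_aux (by positivity)
    have e2 : m * σ ≤ (5376 * (g ^ 3 * h ^ 2)) * (2 * k * h) := mul_le_mul h1 h2 hσ (by positivity)
    have e3 : (5376 * (g ^ 3 * h ^ 2)) * (2 * k * h) = k * (10752 * (g * h) ^ 3) := by ring
    rw [e3] at e2
    have e4 : x ^ 3 ≤ 10752 * (g * h) ^ 3 := le_of_mul_le_mul_left (hx3.trans e2) hk
    have e5 : (28 * (g * h)) ^ 3 = 21952 * (g * h) ^ 3 := by ring
    have e6 : 0 ≤ (g * h) ^ 3 := by positivity
    linarith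

/-- the final computation -/
lemma numcore {m k σ g h r C E FD FL V R N : ℝ} (hk : 1 ≤ k)
    (hσ : 1 ≤ σ) (hg : 1 ≤ g) (hh : 1 ≤ h) (hr : 1 ≤ r) (hgh : σ * 2 ^ 100 ≤ 28 * (g * h))
    (h1' : m ≤ 2 ^ 18 * (g ^ 2 * h * r)) (h2 : h * k ≤ σ) (hC : 0 ≤ C) (hE : 1 ≤ E)
    (hEr : E ^ 3 ≤ 2 ^ 58 * r)
    (ha : k * σ * C * (2 ^ 60 * E ^ 5) ≤ m * FD) (hFD : FD ≤ 28 * E ^ 2 * FL) (hFD0 : 0 ≤ FD)
    (hFL : 1 ≤ FL) (hN : g * h * r ≤ N * E ^ 3)
    (hV : V ≤ 6 * k / g * (C / FL + 1)) (hR : R ≤ 100 * V + 2)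
    (hmain : N / 39200 ≤ R * (50 * σ) + 6) : False := by
  have hk0 : 0 < k := by linarith
  have hσ0 : 0 < σ := by linarith
  have hg0 : 0 < g := by linarith
  have hh0 : 0 < h := by linarith
  have hr0 : 0 < r := by linarith
  have hE0 : 0 < E := by linarith
  have hE3 : 0 < E ^ 3 := by positivity
  have hFL0 : 0 < FL := by linarith
  set G := g * h * r / E ^ 3 with hGdef
  have hG : 0 < G := by positivity
  have hGN : G ≤ N := by
    rw [hGdef, div_le_iff₀ hE3]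
    exact hN
  have hghG : g * h ≤ 2 ^ 58 * G := by
    have e1 : 2 ^ 58 * G = g * h * (2 ^ 58 * r) / E ^ 3 := by
      rw [hGdef]
      ring
    rw [e1, le_div_iff₀ hE3]
    exact mul_le_mul_of_nonneg_left hEr (by positivity)
  -- first term
  have x1 : k * σ * (C / FL) / g * 2 ^ 60 ≤ 2 ^ 23 * G := by
    have e4 : m * FD ≤ (2 ^ 18 * (g ^ 2 * h * r)) * (28 * E ^ 2 * FL) :=
      mul_le_mul h1' hFD hFD0 (by positivity)
    have e5 : (2 ^ 18 * (g ^ 2 * h * r)) * (28 * E ^ 2 * FL) =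
        (2 ^ 18 * 28) * (G * (g * FL * E ^ 5)) := by
      rw [hGdef]
      field_simp
    have e6 : ((2 : ℝ) ^ 18 * 28) * (G * (g * FL * E ^ 5)) ≤ 2 ^ 23 * (G * (g * FL * E ^ 5)) :=
      mul_le_mul_of_nonneg_right (by norm_num) (by positivity)
    rw [e5] at e4
    have e7 : k * σ * C * (2 ^ 60 * E ^ 5) ≤ 2 ^ 23 * (G * (g * FL * E ^ 5)) :=
      ha.trans (e4.trans e6)
    have e8 : k * σ * (C / FL) / g * 2 ^ 60 = k * σ * C * (2 ^ 60 * E ^ 5) / (g * FL * E ^ 5) := by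
      field_simp
    rw [e8, div_le_iff₀ (by positivity)]
    refine e7.trans (le_of_eq ?_)
    ring
  -- second term
  have x2 : k * σ / g * 2 ^ 200 ≤ 784 * (2 ^ 58 * G) := by
    have e2 : k * σ / g * 2 ^ 200 = k * σ * 2 ^ 200 / g := by ring
    rw [e2, div_le_iff₀ hg0]
    have e3 : h * (k * σ * 2 ^ 200) ≤ h * (784 * (g * h) * g) := by
      have e4 : h * (k * σ * 2 ^ 200) = (h * k) * (σ * 2 ^ 200) := by ring
      have e5 : (h * k) * (σ * 2 ^ 200) ≤ σ * (σ * 2 ^ 200) :=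
        mul_le_mul_of_nonneg_right h2 (by positivity)
      have e6 : σ * (σ * 2 ^ 200) = (σ * 2 ^ 100) ^ 2 := by ring
      have e7 : (σ * 2 ^ 100) ^ 2 ≤ (28 * (g * h)) ^ 2 := pow_le_pow_left₀ (by positivity) hgh 2
      have e8 : (28 * (g * h)) ^ 2 = h * (784 * (g * h) * g) := by ring
      rw [e4]
      rw [e6] at e5
      rw [e8] at e7
      exact e5.trans e7
    have e9 : k * σ * 2 ^ 200 ≤ 784 * (g * h) * g := le_of_mul_le_mul_left e3 hh0
    exact e9.trans (mul_le_mul_of_nonneg_right (mul_le_mul_of_nonneg_left hghG (by norm_num)) hg0.le)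
  -- third term
  have x3 : σ * 2 ^ 100 ≤ 28 * (2 ^ 58 * G) :=
    hgh.trans (mul_le_mul_of_nonneg_left hghG (by norm_num))
  -- all terms together
  have y1 : R * (50 * σ) ≤ 30000 * (k * σ * (C / FL) / g) + 30000 * (k * σ / g) + 100 * σ := by
    have e1 : R ≤ 100 * (6 * k / g * (C / FL + 1)) + 2 := by linarith
    have e2 := mul_le_mul_of_nonneg_right e1 (by positivity : (0 : ℝ) ≤ 50 * σ)
    refine e2.trans (le_of_eq ?_)
    ring
  generalize k * σ * (C / FL) / g = A at *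
  generalize k * σ / g = B at *
  norm_num at x1 x2 x3 y1 hmain
  linarith

end Pool.Agent.HLL
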