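import Pool.Agent.HLL.Main
import Pool.Agent.HLL.MainF
import Pool.Agent.HLL.M_PAD1
import Pool.Agent.HLL.M_PAD2
import Pool.Agent.HDL.M_ALPHA
import Pool.Agent.HDL.M_BETA

/-!
# The theorem
-/

open MeasureTheory

namespace Pool.Agent.HLL

open Pool.Agent.HDL (SeekCost LMachine DetectsTriangles)

/-- the final theorem -/
theorem main :
    ∃ c : ℝ, 0 < c ∧ ∃ n0 : ℕ, ∀ n ≥ n0, ∀ m : ℕ, n ≤ m → m ≤ n ^ 2 → ∀ k S : ℕ, 1 ≤ k →
      ∀ ra : Bool, ∃ (v : ℕ) (d : Fin v → ℕ), v + (∑ i, d i) / 2 = n + m ∧ ∑ i, d i ≤ 2 * m ∧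
        ∀ f : ℕ → ℝ, SeekCost f → ∀ D : ℕ, (k : ℝ) * D ^ 2 ≤ n * (S + k * Real.log n) →
        (ra = true → (k : ℝ) * D ^ 3 ≤ m * (S + k * Real.log n)) →
        ∀ (T : ℝ) (Q Ω : Type) [Fintype Q] [MeasurableSpace Ω] (μ : Measure Ω)
          [IsProbabilityMeasure μ], Fintype.card Q ≤ 2 ^ S → ∀ M : LMachine d k Q Ω,
          DetectsTriangles M μ → ExpectedCostLE M μ ra f T →
          c * m * f D * Real.exp (-20 * √(Real.log (if ra then (m : ℝ) else m / n))) ≤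
            k * (S + k * Real.log n) * T := by
  refine ⟨1 / 2 ^ 210, by positivity, 2 ^ 20, fun n hn m hnm hmn k S hk ra => ?_⟩
  cases ra
  · obtain ⟨v, d, h1, h2, h3⟩ := main_ofF HDL.m_BETA HDL.m_ALPHA HDL.m_GAD2 n hn m hnm hmn k S hk
    refine ⟨v, d, h1, h2, fun f hf D hD _ T Q Ω _ _ μ _ hQ M hd hT => ?_⟩
    have h4 : CostLE M μ ∅ f T := by
      rw [← places_false d]
      exact hT
    have h5 := h3 f hf D hD T Q Ω μ hQ M hd h4
    simpa using h5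
  · obtain ⟨v, d, h1, h2, h3⟩ := main_ofT HDL.m_BETA HDL.m_ALPHA (m_PAD2 m_PAD1) n hn m hnm hmn k S hk
    refine ⟨v, d, h1, h2, fun f hf D hD hD' T Q Ω _ _ μ _ hQ M hd hT => ?_⟩
    have h4 : CostLE M μ (starts d) f T := by
      rw [← places_true d]
      exact hT
    have h5 := h3 f hf D hD (hD' rfl) T Q Ω μ hQ M hd h4
    simpa using h5

end Pool.Agent.HLL
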