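import Mathlib
import Pool.Agent.HLL.Final
import Pool.Agent.HLL.Num

/-!
# The final theorem
-/

set_option linter.unusedSectionVars false

open MeasureTheory

namespace Pool.Agent.HLL

open Pool.Agent.HDL (Machine Conf Lay Dat SeekCost LMachine DetectsTriangles HasDegrees tape EE
  one_le_EE EE_cube S_BETA S_ALPHA)

/-- choice of the number of blocks and of the density -/
lemma choose_params (n m b : ℕ) (hb : 96 * 2 ^ b ≤ n) (hb2 : 672 * 2 ^ (2 * b) ≤ m) (hm : n ≤ m)
    (hm2 : m ≤ n ^ 2) :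
    ∃ a c, c ≤ 2 * a + b ∧ 96 * 2 ^ (2 * a + b) ≤ n ∧ 72 * 2 ^ (2 * a + b) * 2 ^ c ≤ m ∧
      672 * 2 ^ (3 * a + 2 * b) ≤ m ∧
      ((n : ℝ) ≤ 384 * (((2 : ℝ) ^ a) ^ 2 * 2 ^ b) ∨
        (m : ℝ) ≤ 5376 * (((2 : ℝ) ^ a) ^ 3 * (2 ^ b) ^ 2)) ∧
      (m : ℝ) ≤ 2 ^ 18 * (((2 : ℝ) ^ a) ^ 2 * 2 ^ b * 2 ^ c) ∧ 2 ^ c ≤ m := by
  classical
  -- the largest `a` with the two properties
  have hex : ∃ a, ¬ (96 * 2 ^ (2 * a + b) ≤ n ∧ 672 * 2 ^ (3 * a + 2 * b) ≤ m) := by
    refine ⟨n, fun h => ?_⟩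
    have h1 : n < 2 ^ n := Nat.lt_two_pow_self
    have h2 : 2 ^ n ≤ 2 ^ (2 * n + b) := Nat.pow_le_pow_right (by norm_num) (by omega)
    omega
  obtain ⟨a, ha1, ha2⟩ : ∃ a, (96 * 2 ^ (2 * a + b) ≤ n ∧ 672 * 2 ^ (3 * a + 2 * b) ≤ m) ∧
      ¬ (96 * 2 ^ (2 * (a + 1) + b) ≤ n ∧ 672 * 2 ^ (3 * (a + 1) + 2 * b) ≤ m) := by
    have h0 : Nat.find hex ≠ 0 := by
      intro h
      have h1 := Nat.find_spec hex
      rw [h] at h1
      apply h1
      simp only [mul_zero, zero_add]
      exact ⟨hb, hb2⟩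
    obtain ⟨a, ha⟩ := Nat.exists_eq_succ_of_ne_zero h0
    refine ⟨a, ?_, ?_⟩
    · have h1 := Nat.find_min hex (m := a) (by omega)
      exact not_not.1 h1
    · have h1 := Nat.find_spec hex
      rw [ha] at h1
      exact h1
  obtain ⟨h5, h5'⟩ := ha1
  set A := 2 ^ (2 * a + b) with hA
  have hA0 : 0 < A := by positivity
  have eA : 2 ^ (2 * (a + 1) + b) = 4 * A := by
    rw [hA, show 2 * (a + 1) + b = 2 + (2 * a + b) by ring, pow_add]
    norm_num
  set B := 2 ^ (3 * a + 2 * b) with hB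
  have eB : 2 ^ (3 * (a + 1) + 2 * b) = 8 * B := by
    rw [hB, show 3 * (a + 1) + 2 * b = 3 + (3 * a + 2 * b) by ring, pow_add]
    norm_num
  have hBA : B ≤ A * A := by
    rw [hA, hB, ← pow_add]
    exact Nat.pow_le_pow_right (by norm_num) (by omega)
  rw [eA, eB] at ha2
  have h6 : n ≤ 384 * A ∨ m ≤ 5376 * B := by
    by_contra hcon
    push Not at hcon
    apply ha2
    omega
  set y := m / (72 * A) with hy
  have hpos2 : 0 < 72 * A := by positivity
  have hy1 : 1 ≤ y := (Nat.one_le_div_iff hpos2).2 (by omega)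
  have h7 : y * (72 * A) ≤ m := Nat.div_mul_le_self _ _
  have h8 : m < (y + 1) * (72 * A) := by
    have := Nat.lt_div_mul_add (a := m) (b := 72 * A) hpos2
    rw [← hy] at this
    calc m < y * (72 * A) + 72 * A := this
      _ = (y + 1) * (72 * A) := by ring
  set x := min A y with hx
  have hxA : x ≤ A := min_le_left _ _
  have hxy : x ≤ y := min_le_right _ _
  have hx1 : 1 ≤ x := le_min hA0 hy1
  set c := Nat.log 2 x with hc
  have h9 : 2 ^ c ≤ x := Nat.pow_log_le_self 2 (by omega)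
  have h10 : x < 2 ^ (c + 1) := Nat.lt_pow_succ_log_self (by norm_num) x
  refine ⟨a, c, ?_, h5, ?_, h5', ?_, ?_, ?_⟩
  · exact (Nat.pow_le_pow_iff_right (by norm_num : 1 < 2)).1 (h9.trans hxA)
  · calc 72 * A * 2 ^ c ≤ 72 * A * y := Nat.mul_le_mul_left _ (h9.trans hxy)
      _ = y * (72 * A) := by ring
      _ ≤ m := h7
  · rcases h6 with h6 | h6
    · left
      have e2 : (((2 : ℝ) ^ a) ^ 2 * 2 ^ b) = ((A : ℕ) : ℝ) := by
        rw [hA]
        push_cast
        ring
      rw [e2]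
      exact_mod_cast h6
    · right
      have e2 : (((2 : ℝ) ^ a) ^ 3 * (2 ^ b) ^ 2) = ((B : ℕ) : ℝ) := by
        rw [hB]
        push_cast
        ring
      rw [e2]
      exact_mod_cast h6
  · have e2 : (((2 : ℝ) ^ a) ^ 2 * 2 ^ b * 2 ^ c) = ((A * 2 ^ c : ℕ) : ℝ) := by
      rw [hA]
      push_cast
      ring
    rw [e2]
    have h11 : m ≤ 2 ^ 18 * (A * 2 ^ c) := by
      rcases min_choice A y with hmin | hmin
      · have h12 : A ≤ 2 ^ c := by
          rw [← hx] at hmin
          rw [hmin] at h10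
          have h13 : 2 * a + b < c + 1 := (Nat.pow_lt_pow_iff_right (by norm_num : 1 < 2)).1 h10
          exact Nat.pow_le_pow_right (by norm_num) (by omega)
        have h14 : A * A ≤ A * 2 ^ c := Nat.mul_le_mul_left _ h12
        rcases h6 with h6 | h6
        · calc m ≤ n ^ 2 := hm2
            _ = n * n := sq n
            _ ≤ (384 * A) * (384 * A) := Nat.mul_le_mul h6 h6
            _ = 147456 * (A * A) := by ring
            _ ≤ 2 ^ 18 * (A * 2 ^ c) := Nat.mul_le_mul (by norm_num) h14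
        · calc m ≤ 5376 * B := h6
            _ ≤ 2 ^ 18 * (A * 2 ^ c) := Nat.mul_le_mul (by norm_num) (hBA.trans h14)
      · have h12 : y + 1 ≤ 2 ^ (c + 1) := by
          rw [← hx] at hmin
          rw [hmin] at h10
          exact h10
        calc m ≤ (y + 1) * (72 * A) := h8.le
          _ ≤ 2 ^ (c + 1) * (72 * A) := Nat.mul_le_mul_right _ h12
          _ = 144 * (A * 2 ^ c) := by ring
          _ ≤ 2 ^ 18 * (A * 2 ^ c) := Nat.mul_le_mul_right _ (by norm_num)
    exact_mod_cast h11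
  · calc 2 ^ c ≤ y := h9.trans hxy
      _ = y * 1 := (mul_one y).symm
      _ ≤ y * (72 * A) := Nat.mul_le_mul_left _ (by omega)
      _ ≤ m := h7

/-- the theorem for machines with random access to the lists -/
def S_MAINT : Prop :=
  ∀ n ≥ 2 ^ 20, ∀ m : ℕ, n ≤ m → m ≤ n ^ 2 → ∀ k S : ℕ, 1 ≤ k →
    ∃ (v : ℕ) (d : Fin v → ℕ), v + (∑ i, d i) / 2 = n + m ∧ ∑ i, d i ≤ 2 * m ∧
      ∀ f : ℕ → ℝ, SeekCost f → ∀ D : ℕ, (k : ℝ) * D ^ 2 ≤ n * (S + k * Real.log n) →
      (k : ℝ) * D ^ 3 ≤ m * (S + k * Real.log n) →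
      ∀ (T : ℝ) (Q Ω : Type) [Fintype Q] [MeasurableSpace Ω] (μ : Measure Ω)
        [IsProbabilityMeasure μ], Fintype.card Q ≤ 2 ^ S → ∀ M : LMachine d k Q Ω,
        DetectsTriangles M μ → CostLE M μ (starts d) f T →
        1 / 2 ^ 210 * m * f D * Real.exp (-20 * √(Real.log m)) ≤ k * (S + k * Real.log n) * T

theorem main_ofT (hB : S_BETA) (hA : S_ALPHA) (hD : S_GADP) : S_MAINT := by
  intro n hn m hnm hmn k S hk
  have hn20 : 2 ^ 20 ≤ n := hn
  have hnpos : (0 : ℝ) < n := by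
    have : 0 < n := by omega
    exact_mod_cast this
  have hn20' : (2 : ℝ) ^ 20 ≤ n := by exact_mod_cast hn20
  have hm0 : (0 : ℝ) ≤ m := Nat.cast_nonneg m
  have hmn' : (m : ℝ) ≤ (n : ℝ) ^ 2 := by exact_mod_cast hmn
  set l := Real.log n with hl
  set σ : ℝ := (S : ℝ) + k * l with hσ
  set W : ℝ := Real.exp (-20 * √(Real.log m)) with hW
  have hW0 : 0 < W := Real.exp_pos _
  have hk1 : (1 : ℝ) ≤ k := by exact_mod_cast hk
  have hk0 : (0 : ℝ) < k := by linarith
  have hS0 : (0 : ℝ) ≤ S := Nat.cast_nonneg _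
  have hl1 : 1 ≤ l := by
    rw [hl, Real.le_log_iff_exp_le hnpos]
    have h1 := Real.exp_one_lt_d9
    have h3 : (3 : ℝ) ≤ 2 ^ 20 := by norm_num
    linarith
  have hkl : (k : ℝ) ≤ k * l := le_mul_of_one_le_right hk0.le hl1
  have hkσ : (k : ℝ) ≤ σ := by linarith
  have hσ1 : 1 ≤ σ := by linarith
  have hσ0 : 0 < σ := by linarith
  by_cases hcase : (n : ℝ) ≤ k * σ * 2 ^ 200 ∨ (m : ℝ) ≤ k * σ ^ 2 * (2 ^ 100) ^ 3
  · -- large space: the machine has to read the tape
    obtain ⟨a, c, hc1, hc2, hc3, hc3', hc4, hc5, hc6⟩ := choose_params n m 0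
      (by omega) (by omega) hnm hmn
    obtain ⟨v, d, K, E', _, _, _, _, L, hvd, hd1, _, _, hcK, _, hcE, hgood⟩ :=
      inst_exists hB hA hD n m a 0 c hc1 hc2 hc3 hc3'
    refine ⟨v, d, hvd, hd1, ?_⟩
    intro f hf D0 hkD0 hkD0' T Q Ω _ _ μ _ hQ M hd hT
    have hEW := EE_five (2 ^ c) m Nat.one_le_two_pow hc6
    set E := EE (2 ^ c) with hE
    have hE1 : 1 ≤ E := one_le_EE _
    have hE0 : 0 < E := by linarith
    have hgd := hgood f hf k T Q Ω μ M hd hT
    have h1 := read_bound M μ hgd (⌈12 * T⌉₊ + 1) (by omega)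
    have hT0 : 0 ≤ T := by simpa using hgd.time (f0 _ _) 0
    have h2 : T / ((⌈12 * T⌉₊ + 1 : ℕ) : ℝ) ≤ 1 / 12 := by
      have h3 : 12 * T ≤ (⌈12 * T⌉₊ : ℝ) := Nat.le_ceil _
      rw [div_le_iff₀ (by positivity)]
      push_cast
      linarith
    have hcK' : (Fintype.card K : ℝ) = (2 : ℝ) ^ a := by
      rw [hcK]
      push_cast
      ring
    set g : ℝ := (2 : ℝ) ^ a with hg
    set r : ℝ := (2 : ℝ) ^ c with hr
    have hg0 : 0 < g := by positivity
    have hr0 : 0 < r := by positivity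
    rw [pow_zero, mul_one] at hc5 hcE
    have h3 : (m : ℝ) / (2 ^ 20 * E ^ 3) ≤ k * T := by
      have h4 : (1 / 4 : ℝ) * (g * (g * r / E ^ 3)) ≤ k * T := by
        refine le_trans ?_ h1
        rw [hcK']
        have h5 : g * r / E ^ 3 ≤ Fintype.card E' := by
          rw [div_le_iff₀ (by positivity)]
          exact hcE
        exact mul_le_mul (by linarith) (mul_le_mul_of_nonneg_left h5 hg0.le) (by positivity)
          (by linarith)
      refine le_trans ?_ h4
      rw [div_le_iff₀ (by positivity)]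
      have h6 : 1 / 4 * (g * (g * r / E ^ 3)) * (2 ^ 20 * E ^ 3) = 2 ^ 18 * (g ^ 2 * r) := by
        field_simp
        ring
      rw [h6]
      exact hc5
    have h4 : (m : ℝ) ≤ k * T * (2 ^ 20 * E ^ 3) := by
      rw [div_le_iff₀ (by positivity)] at h3
      exact h3
    -- the distance
    have hσP : f D0 ≤ 2 ^ 100 * σ := by
      have h5 : (1 : ℝ) ≤ 2 ^ 100 * σ := one_le_mul_of_one_le_of_one_le (by norm_num) hσ1
      rcases Nat.eq_zero_or_pos D0 with h6 | h6
      · have h7 := hf.2.1 (Nat.zero_le 1)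
        rw [hf.1] at h7
        rw [h6]
        linarith
      · refine (hf.le_self h6).trans ?_
        rcases hcase with hcase | hcase
        · apply sq_le_aux (by positivity)
          have h8 : (n : ℝ) * σ ≤ k * σ * 2 ^ 200 * σ := mul_le_mul_of_nonneg_right hcase hσ0.le
          have h9 : (k : ℝ) * σ * 2 ^ 200 * σ = k * (2 ^ 100 * σ) ^ 2 := by ring
          rw [h9] at h8
          exact le_of_mul_le_mul_left (hkD0.trans h8) hk0
        · apply cube_le_aux (by positivity)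
          have h8 : (m : ℝ) * σ ≤ k * σ ^ 2 * (2 ^ 100) ^ 3 * σ := mul_le_mul_of_nonneg_right hcase hσ0.le
          have h9 : (k : ℝ) * σ ^ 2 * (2 ^ 100) ^ 3 * σ = k * (2 ^ 100 * σ) ^ 3 := by ring
          rw [h9] at h8
          exact le_of_mul_le_mul_left (hkD0'.trans h8) hk0
    have hkσT : 0 ≤ k * σ * T := by positivity
    rcases le_or_gt 0 (f D0) with hfD | hfD
    · have h6 : (m : ℝ) * f D0 ≤ (k * T * (2 ^ 20 * E ^ 3)) * (2 ^ 100 * σ) :=
        mul_le_mul h4 hσP hfD (by positivity)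
      have h7 := mul_le_mul_of_nonneg_right h6 hW0.le
      have h8 := mul_le_mul_of_nonneg_left h7 (by positivity : (0 : ℝ) ≤ 1 / 2 ^ 210)
      have h9 : E ^ 3 * W ≤ 1 := by
        have h10 : E ^ 3 ≤ E ^ 5 := pow_le_pow_right₀ hE1 (by norm_num)
        exact (mul_le_mul_of_nonneg_right h10 hW0.le).trans hEW
      have h10 : 1 / 2 ^ 210 * (k * T * (2 ^ 20 * E ^ 3) * (2 ^ 100 * σ) * W) =
          k * σ * T * (E ^ 3 * W / 2 ^ 90) := by
        ring
      have h11 : E ^ 3 * W / 2 ^ 90 ≤ 1 := by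
        rw [div_le_iff₀ (by positivity)]
        refine h9.trans ?_
        norm_num
      have h12 : 1 / 2 ^ 210 * m * f D0 * W = 1 / 2 ^ 210 * (m * f D0 * W) := by ring
      rw [h12]
      refine h8.trans ?_
      rw [h10]
      exact mul_le_of_le_one_right hkσT h11
    · refine le_trans ?_ hkσT
      have h5 : 1 / 2 ^ 210 * (m : ℝ) * f D0 ≤ 0 :=
        mul_nonpos_of_nonneg_of_nonpos (by positivity) hfD.le
      exact mul_nonpos_of_nonpos_of_nonneg h5 hW0.le
  · -- small space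
    push Not at hcase
    obtain ⟨hcase, hcase2⟩ := hcase
    set x := ⌊σ / k⌋₊ with hx
    have hx1 : 1 ≤ x := by
      apply Nat.le_floor
      rw [Nat.cast_one, one_le_div hk0]
      exact hkσ
    set b := Nat.log 2 x with hbdef
    have hb1 : 2 ^ b ≤ x := Nat.pow_log_le_self 2 (by omega)
    have hb2 : x < 2 ^ (b + 1) := Nat.lt_pow_succ_log_self (by norm_num) x
    have hhk' : (2 : ℝ) ^ b * k ≤ σ := by
      have h1 : (x : ℝ) ≤ σ / k := Nat.floor_le (by positivity)
      have h2 : ((2 ^ b : ℕ) : ℝ) ≤ x := by exact_mod_cast hb1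
      push_cast at h2
      rw [le_div_iff₀ hk0] at h1
      exact (mul_le_mul_of_nonneg_right h2 hk0.le).trans h1
    have hh0' : (1 : ℝ) ≤ 2 ^ b := one_le_pow₀ (by norm_num)
    have h2h : σ ≤ 2 * k * 2 ^ b := by
      have h1 : σ / k < x + 1 := Nat.lt_floor_add_one _
      have h2 : ((x + 1 : ℕ) : ℝ) ≤ ((2 ^ (b + 1) : ℕ) : ℝ) := by exact_mod_cast hb2
      push_cast at h2
      rw [div_lt_iff₀ hk0] at h1
      have h3 := mul_le_mul_of_nonneg_right h2 hk0.le
      have h4 : (2 : ℝ) ^ (b + 1) * k = 2 * k * 2 ^ b := by ring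
      rw [h4] at h3
      linarith
    have hσkσ : σ ≤ k * σ := le_mul_of_one_le_left hσ0.le hk1
    have hbσ : (2 : ℝ) ^ b ≤ σ := by
      have : (2 : ℝ) ^ b ≤ 2 ^ b * k := le_mul_of_one_le_right (by linarith) hk1
      linarith
    have h64 : 96 * 2 ^ b ≤ n := by
      have h2 : (2 : ℝ) ^ b * 96 ≤ k * σ * 2 ^ 200 :=
        mul_le_mul (hbσ.trans hσkσ) (by norm_num) (by norm_num) (by positivity)
      have h3 : (96 : ℝ) * 2 ^ b ≤ n := by linarith
      exact_mod_cast h3
    have h65 : 672 * 2 ^ (2 * b) ≤ m := by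
      have h1 : ((2 : ℝ) ^ b) ^ 2 ≤ σ ^ 2 := pow_le_pow_left₀ (by positivity) hbσ 2
      have h2 : σ ^ 2 ≤ k * σ ^ 2 := le_mul_of_one_le_left (by positivity) hk1
      have h3 : ((2 : ℝ) ^ b) ^ 2 * 672 ≤ k * σ ^ 2 * (2 ^ 100) ^ 3 :=
        mul_le_mul (h1.trans h2) (by norm_num) (by norm_num) (by positivity)
      have h4 : (2 : ℝ) ^ (2 * b) = ((2 : ℝ) ^ b) ^ 2 := by
        rw [← pow_mul]
        congr 1
        omega
      have h5 : (672 : ℝ) * 2 ^ (2 * b) ≤ m := by
        rw [h4]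
        linarith
      exact_mod_cast h5
    obtain ⟨a, c, hc1, hc2, hc3, hc3', hc4, hc5, hc6⟩ := choose_params n m b h64 h65 hnm hmn
    obtain ⟨v, d, K, E', _, _, _, _, L, hvd, hd1, hlen, hb0, hcK, hΛE, hNE, hgood⟩ :=
      inst_exists hB hA hD n m a b c hc1 hc2 hc3 hc3'
    refine ⟨v, d, hvd, hd1, ?_⟩
    intro f hf D0 hkD0 hkD0' T Q Ω _ _ μ _ hQ M hd hT
    have hEW := EE_five (2 ^ c) m Nat.one_le_two_pow hc6
    have hEr := EE_cube (2 ^ c) Nat.one_le_two_pow
    set E := EE (2 ^ c) with hE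
    have hE1 : 1 ≤ E := one_le_EE _
    have hE0 : 0 < E := by linarith
    push_cast at hEr
    have hgd := hgood f hf k T Q Ω μ M hd hT
    by_contra hcon
    push Not at hcon
    have hT0 : 0 ≤ T := by simpa using hgd.time (f0 _ _) 0
    -- we may assume that the distance is positive
    obtain ⟨D, hD1, hkD', hkD'', hfDD⟩ : ∃ D : ℕ, 1 ≤ D ∧ (k : ℝ) * D ^ 2 ≤ n * σ ∧
        (k : ℝ) * D ^ 3 ≤ m * σ ∧ f D0 ≤ f D := by
      rcases Nat.eq_zero_or_pos D0 with h6 | h6
      · refine ⟨1, le_rfl, ?_, ?_, ?_⟩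
        · have h7 : (1 : ℝ) * k ≤ n * σ := mul_le_mul (by linarith) hkσ hk0.le hnpos.le
          push_cast
          linarith
        · have hnm' : (n : ℝ) ≤ m := by exact_mod_cast hnm
          have h7 : (1 : ℝ) * k ≤ m * σ := mul_le_mul (by linarith) hkσ hk0.le hm0
          push_cast
          linarith
        · rw [h6]
          exact hf.2.1 (Nat.zero_le 1)
      · exact ⟨D0, h6, hkD0, hkD0', le_rfl⟩
    have hfD1 : 1 ≤ f D := hf.one_le hD1
    have ha : k * σ * T * (2 ^ 60 * E ^ 5) ≤ m * f D := by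
      have h1 : k * σ * T ≤ 1 / 2 ^ 210 * (m : ℝ) * f D * W :=
        hcon.le.trans (mul_le_mul_of_nonneg_right (mul_le_mul_of_nonneg_left hfDD
          (by positivity)) hW0.le)
      have h2 := mul_le_mul_of_nonneg_right h1 (by positivity : (0 : ℝ) ≤ 2 ^ 60 * E ^ 5)
      have h3 : 1 / 2 ^ 210 * (m : ℝ) * f D * W * (2 ^ 60 * E ^ 5) =
          m * f D * (E ^ 5 * W / 2 ^ 150) := by
        ring
      have h4 : E ^ 5 * W / 2 ^ 150 ≤ 1 := by
        rw [div_le_iff₀ (by positivity)]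
        refine hEW.trans ?_
        norm_num
      rw [h3] at h2
      exact h2.trans (mul_le_of_le_one_right (by positivity) h4)
    have hcK' : (Fintype.card K : ℝ) = (2 : ℝ) ^ a := by
      rw [hcK]
      push_cast
      ring
    have hcK0 : 0 < Fintype.card K := by
      rw [hcK]
      positivity
    set g : ℝ := (2 : ℝ) ^ a with hg
    set h : ℝ := (2 : ℝ) ^ b with hh
    set r : ℝ := (2 : ℝ) ^ c with hr
    have hg1 : 1 ≤ g := one_le_pow₀ (by norm_num)
    have hh1 : 1 ≤ h := one_le_pow₀ (by norm_num)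
    have hr1 : 1 ≤ r := one_le_pow₀ (by norm_num)
    have hg0 : 0 < g := by linarith
    have hh0 : 0 < h := by linarith
    have hr0 : 0 < r := by linarith
    set N : ℝ := (Fintype.card E' : ℝ) with hN
    have hN0 : 0 < N := by
      by_contra hcon
      push Not at hcon
      have h1 : N * E ^ 3 ≤ 0 := mul_nonpos_of_nonpos_of_nonneg hcon (by positivity)
      have h2 : 0 < g * h * r := by positivity
      linarith
    have hcardE : 0 < Fintype.card E' := by
      rw [hN] at hN0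
      exact_mod_cast hN0
    have hLlen : 1 ≤ L.len := L.hlen
    have hFL : 1 ≤ f L.len := hf.one_le hLlen
    have hFL0 : 0 < f L.len := by linarith
    -- the distance against the length of the intervals
    have hFD : f D ≤ 28 * E ^ 2 * f L.len := by
      apply hf.scale hD1 hLlen
      · have : 1 ≤ E ^ 2 := one_le_pow₀ hE1
        linarith
      · have h1 : (D : ℝ) ≤ 28 * (g * h) :=
          dist_bound (Nat.cast_nonneg _) hk0 hσ0.le hg0.le hh0.le h2h hc4 hkD' hkD''
        have h2 : 28 * (g * h) ≤ 28 * ((L.len : ℝ) * E ^ 2) :=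
          mul_le_mul_of_nonneg_left hΛE (by norm_num)
        linarith
    -- the intervals are long
    have hgh : σ * 2 ^ 100 ≤ 28 * (g * h) := by
      apply dist_bound (by positivity) hk0 hσ0.le hg0.le hh0.le h2h hc4
      · have h1 : (k : ℝ) * (σ * 2 ^ 100) ^ 2 = (k * σ * 2 ^ 200) * σ := by ring
        rw [h1]
        exact mul_le_mul_of_nonneg_right hcase.le hσ0.le
      · have h1 : (k : ℝ) * (σ * 2 ^ 100) ^ 3 = (k * σ ^ 2 * (2 ^ 100) ^ 3) * σ := by ring
        rw [h1]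
        exact mul_le_mul_of_nonneg_right hcase2.le hσ0.le
    set H := ⌈100 * T⌉₊ + 1 with hH
    set V : ℝ := 6 * k / g * (T / f L.len + 1) with hV
    have hV0 : 0 ≤ V := by
      rw [hV]
      positivity
    set R := ⌈100 * V⌉₊ + 1 with hR
    have hRV : 100 * V ≤ R := by
      rw [hR]
      push_cast
      have := Nat.le_ceil (100 * V)
      linarith
    have hRV2 : (R : ℝ) ≤ 100 * V + 2 := by
      rw [hR]
      push_cast
      have := Nat.ceil_lt_add_one (by linarith : 0 ≤ 100 * V)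
      linarith
    have hR0 : (0 : ℝ) < R := by
      rw [hR]
      positivity
    have hmain := main_ineq M μ hgd H R (by omega) (by omega) hcK0 hcardE (N / 400)
      (by positivity)
    rw [← hN, hcK'] at hmain
    -- cardinality of the transcripts
    have hT3 : T ≤ (n : ℝ) ^ 3 / 1024 := by
      have h0 : T * σ ≤ m * D := by
        have h1 : T * σ ≤ k * σ * T * (2 ^ 60 * E ^ 5) := by
          have h3 : (1 : ℝ) ≤ k * (2 ^ 60 * E ^ 5) :=
            one_le_mul_of_one_le_of_one_le hk1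
              (one_le_mul_of_one_le_of_one_le (by norm_num) (one_le_pow₀ hE1))
          have h4 : T * σ * 1 ≤ T * σ * (k * (2 ^ 60 * E ^ 5)) :=
            mul_le_mul_of_nonneg_left h3 (by positivity)
          refine le_trans (le_of_eq (mul_one _).symm) (h4.trans (le_of_eq ?_))
          ring
        have h2 : (m : ℝ) * f D ≤ m * D := mul_le_mul_of_nonneg_left (hf.le_self hD1) hm0
        linarith
      have h1 : T ^ 2 ≤ (m : ℝ) ^ 2 * n := by
        have h2 : (T * σ) ^ 2 ≤ (m * D) ^ 2 := pow_le_pow_left₀ (by positivity) h0 2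
        have h3 : (D : ℝ) ^ 2 ≤ n * σ := by
          have h4 : (D : ℝ) ^ 2 ≤ k * (D : ℝ) ^ 2 := le_mul_of_one_le_left (by positivity) hk1
          linarith
        have h4 : (m * (D : ℝ)) ^ 2 ≤ (m : ℝ) ^ 2 * (n * σ) := by
          rw [mul_pow]
          exact mul_le_mul_of_nonneg_left h3 (by positivity)
        have h5 : (T * σ) ^ 2 ≤ (m : ℝ) ^ 2 * (n * σ) := h2.trans h4
        have h6 : T ^ 2 * σ ≤ (T * σ) ^ 2 := by
          have h7 : (T * σ) ^ 2 = T ^ 2 * σ * σ := by ring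
          rw [h7]
          exact le_mul_of_one_le_right (by positivity) hσ1
        have h7 : T ^ 2 * σ ≤ ((m : ℝ) ^ 2 * n) * σ := by
          refine h6.trans (h5.trans (le_of_eq ?_))
          ring
        exact le_of_mul_le_mul_right h7 hσ0
      apply sq_le_aux (by positivity)
      refine h1.trans ?_
      have h2 : (m : ℝ) ^ 2 ≤ ((n : ℝ) ^ 2) ^ 2 := pow_le_pow_left₀ hm0 hmn' 2
      have h3 : (m : ℝ) ^ 2 * n ≤ ((n : ℝ) ^ 2) ^ 2 * n := mul_le_mul_of_nonneg_right h2 hnpos.le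
      have h4 : ((n : ℝ) ^ 3 / 1024) ^ 2 = (n : ℝ) ^ 5 * (n / 2 ^ 20) := by ring
      have h5 : ((n : ℝ) ^ 2) ^ 2 * n = (n : ℝ) ^ 5 * 1 := by ring
      have h6 : (1 : ℝ) ≤ n / 2 ^ 20 := by
        rw [le_div_iff₀ (by norm_num)]
        linarith
      rw [h4]
      rw [h5] at h3
      exact h3.trans (mul_le_mul_of_nonneg_left h6 (by positivity))
    have hn3 : n * 2 ^ 40 ≤ n ^ 3 := by
      calc n * 2 ^ 40 = n * (2 ^ 20 * 2 ^ 20) := by norm_num
        _ ≤ n * (n * n) := Nat.mul_le_mul_left _ (Nat.mul_le_mul hn20 hn20)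
        _ = n ^ 3 := by ring
    have hH4 : H + 1 ≤ n ^ 3 := by
      have h1 : (⌈100 * T⌉₊ : ℝ) ≤ 100 * T + 1 := (Nat.ceil_lt_add_one (by linarith)).le
      have h2 : ((n * 2 ^ 40 : ℕ) : ℝ) ≤ ((n ^ 3 : ℕ) : ℝ) := by exact_mod_cast hn3
      push_cast at h2
      have h3 : ((H + 1 : ℕ) : ℝ) ≤ ((n ^ 3 : ℕ) : ℝ) := by
        rw [hH]
        push_cast
        linarith
      exact_mod_cast h3
    have hlen2 : L.len + 1 ≤ n ^ 3 := by
      have h1 : 2 ^ a * 2 ^ b ≤ 2 ^ (2 * a + b) := by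
        rw [← pow_add]
        exact Nat.pow_le_pow_right (by norm_num) (by omega)
      omega
    have hLt : ∑ i, d i ≤ n ^ 3 := by
      have h1 : 2 * m ≤ n ^ 3 := by
        calc 2 * m ≤ n * n ^ 2 := Nat.mul_le_mul (by omega) hmn
          _ = n ^ 3 := by ring
      exact hd1.trans h1
    have hbk : (L.b0 : ℝ) * k ≤ 3 * (S + k * l) := by
      rw [hb0]
      push_cast
      have h1 := mul_le_mul_of_nonneg_left hhk' (by norm_num : (0 : ℝ) ≤ 3)
      refine le_trans (le_of_eq ?_) h1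
      ring
    have hcard := card_St_exp (k := k) (Q := Q) L H S (by omega) hk hQ hH4 hlen2 hLt hbk
    rw [← hl, ← hσ] at hcard
    have hX : (Fintype.card (St L H k Q × St L H k Q) : ℝ) ^ R ≤ Real.exp (R * (50 * σ)) := by
      have h1 : (Fintype.card (St L H k Q × St L H k Q) : ℝ) =
          (Fintype.card (St L H k Q) : ℝ) ^ 2 := by
        have : Fintype.card (St L H k Q × St L H k Q) =
            Fintype.card (St L H k Q) * Fintype.card (St L H k Q) := by
          exact Fintype.card_prod _ _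
        rw [this]
        push_cast
        ring
      rw [h1, ← pow_mul]
      refine (pow_le_pow_left₀ (Nat.cast_nonneg _) hcard _).trans (le_of_eq ?_)
      rw [← Real.exp_nat_mul]
      congr 1
      push_cast
      ring
    have hTH : T / H ≤ 1 / 100 := by
      have h3 : 100 * T ≤ (⌈100 * T⌉₊ : ℝ) := Nat.le_ceil _
      rw [div_le_iff₀ (by rw [hH]; positivity), hH]
      push_cast
      linarith
    have hVR : 6 * (k : ℝ) / (R * g) * (T / f L.len + 1) ≤ 1 / 100 := by
      have h1 : 6 * (k : ℝ) / (R * g) * (T / f L.len + 1) = V / R := by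
        rw [hV]
        field_simp
      rw [h1, div_le_iff₀ hR0]
      linarith
    have hr0 : 8 * (N / 400) / N = 1 / 50 := by
      field_simp
      norm_num
    rw [hr0] at hmain
    have hfin : Real.exp (-6) ≤ Real.exp (R * (50 * σ) - N / 39200) := by
      have h1 : Real.exp (R * (50 * σ) - N / 39200) =
          Real.exp (R * (50 * σ)) * Real.exp (-(N / 400) / 98) := by
        rw [← Real.exp_add]
        congr 1
        ring
      have h2 : 8 * (Fintype.card (St L H k Q × St L H k Q) : ℝ) ^ R *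
          Real.exp (-(N / 400) / 98) ≤
          8 * (Real.exp (R * (50 * σ)) * Real.exp (-(N / 400) / 98)) := by
        rw [mul_assoc]
        refine mul_le_mul_of_nonneg_left ?_ (by norm_num)
        exact mul_le_mul_of_nonneg_right hX (Real.exp_pos _).le
      have h3 : Real.exp (-6) ≤ 1 / 300 := by
        have h4 : (300 : ℝ) ≤ Real.exp 6 := by
          have h5 := Real.exp_one_gt_d9
          have h6 : (2.7 : ℝ) ^ 6 ≤ Real.exp 1 ^ 6 := pow_le_pow_left₀ (by norm_num) (by linarith) 6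
          rw [← Real.exp_nat_mul] at h6
          norm_num at h6
          linarith
        rw [Real.exp_neg, ← one_div]
        exact one_div_le_one_div_of_le (by norm_num) h4
      rw [h1]
      linarith
    have hlog := Real.exp_le_exp.1 hfin
    exact numcore (m := (m : ℝ)) (k := (k : ℝ)) (σ := σ) (g := g) (h := h) (r := r)
      (C := T) (E := E) (FD := f D) (FL := f L.len) (V := V) (R := (R : ℝ)) (N := N)
      hk1 hσ1 hg1 hh1 hr1 hgh hc5 hhk' hT0 hE1 hEr ha hFD (by linarith) hFL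
      hNE hV.le hRV2 (by linarith)

end Pool.Agent.HLL
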